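import Pool.Agent.Lib.MP_96bed6_an.Spec

/-!
# MP_96bed6_an, module EXG: samplers exist.
-/

set_option autoImplicit false

open MeasureTheory Filter Topology Set
open scoped ENNReal ContDiff NNReal

noncomputable section

namespace Pool.Agent.Lib.MP96bed6

namespace EXGM

/-- the centre of the sampler -/
def c : E := EuclideanSpace.single 0 4

/-- the sampler -/
def g (z : E) : ℝ := Real.smoothTransition (1 - 4 * ‖z - c‖ ^ 2)

theorem c0 : c 0 = 4 := by simp [c]

theorem c1 : c 1 = 0 := by simp [c]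

theorem nsq (z : E) : ‖z - c‖ ^ 2 = (z 0 - 4) ^ 2 + (z 1) ^ 2 := by
  rw [EuclideanSpace.norm_eq, Real.sq_sqrt (Finset.sum_nonneg fun i _ => sq_nonneg _)]
  simp [Fin.sum_univ_two, c0, c1]

theorem pos_iff {z : E} : g z ≠ 0 ↔ 4 * ((z 0 - 4) ^ 2 + (z 1) ^ 2) < 1 := by
  unfold g
  rw [nsq]
  constructor
  · intro h
    by_contra hc
    exact h (Real.smoothTransition.zero_of_nonpos (by linarith))
  · intro h
    exact (Real.smoothTransition.pos_of_pos (by linarith)).ne'

end EXGM

open EXGM in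
theorem specEXG : SpecEXG := by
  refine ⟨EXGM.g, ?_, ?_, ?_, ?_, ?_⟩
  · unfold EXGM.g
    refine Real.smoothTransition.contDiff.comp ?_
    exact contDiff_const.sub (contDiff_const.mul ((contDiff_id.sub contDiff_const).norm_sq ℝ))
  · intro z
    exact Real.smoothTransition.nonneg _
  · refine ⟨c, pos_iff.mpr ?_⟩
    rw [c0, c1]; norm_num
  · intro z
    unfold EXGM.g
    rw [nsq, nsq]
    congr 1
    simp [refl]
  · intro z hz
    have h := pos_iff.mp hz
    have h0 : (2 * (z 0 - 4)) ^ 2 < 1 := by nlinarith [sq_nonneg (z 1)]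
    have h1 : (2 * z 1) ^ 2 < 1 := by nlinarith [sq_nonneg (z 0 - 4)]
    have h0' := abs_lt.mp ((sq_lt_one_iff_abs_lt_one _).mp h0)
    have h1' := abs_lt.mp ((sq_lt_one_iff_abs_lt_one _).mp h1)
    refine ⟨by linarith [h0'.1], by linarith [h0'.2], ?_⟩
    have : |z 1| < 1 / 2 := abs_lt.mpr ⟨by linarith [h1'.1], by linarith [h1'.2]⟩
    linarith [h0'.1]

end Pool.Agent.Lib.MP96bed6
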