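import Pool.Agent.Lib.MP_96bed6_an.Spec

/-!
# SYM: the sampling integrals of `kern g` through the reflection
-/

set_option autoImplicit false

open MeasureTheory Filter Topology Set
open scoped ENNReal ContDiff NNReal

noncomputable section

namespace Pool.Agent.Lib.MP96bed6

namespace SYMM

/-- the reflection as a linear isometry equivalence -/
def R : E ≃ₗᵢ[ℝ] E where
  toFun := refl
  invFun := refl
  map_add' := by
    intro x y
    ext i
    fin_cases i
    · simp [refl]
      ring
    · simp [refl]
  map_smul' := by
    intro c x
    ext i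
    fin_cases i <;> simp [refl]
  left_inv := by
    intro x
    ext i
    fin_cases i <;> simp [refl]
  right_inv := by
    intro x
    ext i
    fin_cases i <;> simp [refl]
  norm_map' := by
    intro x
    change ‖refl x‖ = ‖x‖
    simp [EuclideanSpace.norm_eq, refl]

theorem R_apply (x : E) : R x = refl x := rfl

theorem refl_refl (x : E) : refl (refl x) = x := R.symm_apply_apply x

theorem refl_smul (r : ℝ) (x : E) : refl (r • x) = r • refl x := R.map_smul r x

theorem continuous_refl : Continuous refl := R.continuous

theorem integral_refl (F : E → ℝ) : ∫ z, F (refl z) = ∫ z, F z :=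
  R.measurePreserving.integral_comp R.toHomeomorph.measurableEmbedding F

theorem main {h θ : E → ℝ} (hh : Continuous h) (hc : HasCompactSupport h) (hθ : Continuous θ)
    (r : ℝ) : ∫ z : E, θ (r • z) * (h (refl z) - h z) =
      (∫ z : E, -θ (r • z) * h z) + ∫ z : E, θ (refl (r • z)) * h z := by
  have h1 : ∫ z : E, θ (r • z) * h (refl z) = ∫ z : E, θ (refl (r • z)) * h z := by
    rw [← integral_refl (fun z => θ (refl (r • z)) * h z)]
    refine integral_congr_ae (Eventually.of_forall fun z => ?_)
    change θ (r • z) * h (refl z) = θ (refl (r • refl z)) * h (refl z)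
    rw [refl_smul, refl_refl]
  have hi : ∀ F : E → ℝ, Continuous F → Integrable (fun z => F z * h z) volume := by
    intro F hF
    exact (hF.mul hh).integrable_of_hasCompactSupport hc.mul_left
  have hi1 := hi (fun z => -θ (r • z)) (hθ.comp (continuous_const_smul r)).neg
  have hi2 := hi (fun z => θ (refl (r • z)))
    (hθ.comp (continuous_refl.comp (continuous_const_smul r)))
  have hi3 : Integrable (fun z => θ (r • z) * h (refl z)) volume := by
    have h2 : Integrable (fun z => (fun z => θ (refl (r • z)) * h z) (R z)) volume :=
      (R.measurePreserving.integrable_comp_emb R.toHomeomorph.measurableEmbedding).2 hi2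
    refine h2.congr (Eventually.of_forall fun z => ?_)
    change θ (refl (r • refl z)) * h (refl z) = θ (r • z) * h (refl z)
    rw [refl_smul, refl_refl]
  rw [← h1, ← integral_add hi1 hi3]
  refine integral_congr_ae (Eventually.of_forall fun z => ?_)
  change θ (r • z) * (h (refl z) - h z) = -θ (r • z) * h z + θ (r • z) * h (refl z)
  ring

end SYMM

theorem specSYM (hSUPP : SpecSUPP) : SpecSYM := by
  intro g θ hg hθ r
  obtain ⟨s1, _, _, s4, s5, _, s7, _⟩ := hSUPP g hg
  refine ⟨SYMM.main hg.smooth.continuous s1 hθ r, ?_⟩
  have h1 := SYMM.main s4.continuous s5 hθ r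
  rw [← show samp (gp (kern g)) θ r = ∫ z : E, θ (r • z) * (gp g (refl z) - gp g z) from by
    unfold samp
    refine integral_congr_ae (Eventually.of_forall fun z => ?_)
    change θ (r • z) * gp (kern g) z = θ (r • z) * (gp g (refl z) - gp g z)
    rw [s7 z]] at h1
  exact h1

end Pool.Agent.Lib.MP96bed6
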