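import Pool.Agent.Lib.MP_96bed6_an.Spec

section
/-!
# BCT: the barrier is continuous
-/
set_option autoImplicit false

open MeasureTheory Filter Topology Set
open scoped ENNReal ContDiff NNReal

noncomputable section

namespace Pool.Agent.Lib.MP96bed6

namespace BCTM

theorem contAt (hSTP : SpecSTP) (l₀ c V V₂ : ℝ) (z : ℝ × E) (hl : 0 < l₀ - c * z.1) :
    ContinuousAt (fun z : ℝ × E => bar (l₀ - c * z.1) (V * z.1) (V₂ * z.1) z.2) z := by
  obtain ⟨hS, -, hS0, -⟩ := hSTP
  have hSc : Continuous S := hS.continuous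
  have cl : Continuous (fun z : ℝ × E => l₀ - c * z.1) := by fun_prop
  have c0 : Continuous (fun z : ℝ × E => z.2 0) := by fun_prop
  have c1 : Continuous (fun z : ℝ × E => z.2 1) := by fun_prop
  have cf : Continuous (fun z : ℝ × E => z.1) := continuous_fst
  rcases lt_or_ge 0 (z.2 0) with hx | hx
  · have h1 : (fun z : ℝ × E => bar (l₀ - c * z.1) (V * z.1) (V₂ * z.1) z.2) =ᶠ[𝓝 z]
        (fun z : ℝ × E => S (z.2 0 / (l₀ - c * z.1) - 1) *
          S (2 - 8 * (z.2 1 ^ 2 / z.2 0 ^ 2) - 8 * (V₂ * z.1)) * S (2 - z.2 0 - V * z.1)) := by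
      filter_upwards [c0.continuousAt.eventually_const_lt hx] with w hw
      simp only [bar, if_pos hw]
    refine ContinuousAt.congr ?_ h1.symm
    have hl' : l₀ - c * z.1 ≠ 0 := hl.ne'
    have hx' : z.2 0 ^ 2 ≠ 0 := (pow_pos hx 2).ne'
    refine ContinuousAt.mul (ContinuousAt.mul ?_ ?_) ?_
    · exact hSc.continuousAt.comp
        ((c0.continuousAt.div cl.continuousAt hl').sub continuousAt_const)
    · refine hSc.continuousAt.comp (((continuousAt_const).sub (continuousAt_const.mul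
        (((c1.pow 2).continuousAt).div (c0.pow 2).continuousAt hx'))).sub
        (continuousAt_const.mul (continuousAt_const.mul cf.continuousAt)))
    · exact hSc.continuousAt.comp
        ((continuousAt_const.sub c0.continuousAt).sub (continuousAt_const.mul cf.continuousAt))
  · have h1 : (fun z : ℝ × E => bar (l₀ - c * z.1) (V * z.1) (V₂ * z.1) z.2) =ᶠ[𝓝 z]
        (fun _ => (0 : ℝ)) := by
      have h2 : ∀ᶠ w in 𝓝 z, (0 : ℝ) < (l₀ - c * w.1) - w.2 0 :=
        (cl.sub c0).continuousAt.eventually_const_lt (by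
          show (0 : ℝ) < (l₀ - c * z.1) - z.2 0
          linarith)
      filter_upwards [h2, cl.continuousAt.eventually_const_lt hl] with w hw hlw
      simp only [bar]
      split_ifs with h
      · have h3 : S (w.2 0 / (l₀ - c * w.1) - 1) = 0 := by
          apply hS0
          have h4 : w.2 0 / (l₀ - c * w.1) ≤ 1 := by
            rw [div_le_one hlw]
            linarith
          linarith
        rw [h3, zero_mul, zero_mul]
      · rfl
    exact ContinuousAt.congr continuousAt_const h1.symm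

end BCTM

theorem specBCT (hSTP : SpecSTP) : SpecBCT := by
  intro l₀ c V V₂ T' hl z hz
  exact (BCTM.contAt hSTP l₀ c V V₂ z (hl z.1 hz.1)).continuousWithinAt

end Pool.Agent.Lib.MP96bed6
end
end

section
/-! # BDT: the time derivative of the barrier function -/
set_option autoImplicit false

open MeasureTheory Filter Topology Set
open scoped ENNReal ContDiff NNReal

noncomputable section

namespace Pool.Agent.Lib.MP96bed6

theorem specBDT (hSTP : SpecSTP) : SpecBDT := by
  intro l₀ c V V₂ t x hl hx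
  obtain ⟨hS, -⟩ := hSTP
  have hSd : ∀ s, HasDerivAt S (deriv S s) s := fun s =>
    ((hS.differentiable (by simp)) s).hasDerivAt
  have hfun : (fun s => bar (l₀ - c * s) (V * s) (V₂ * s) x) = fun s =>
      S (x 0 / (l₀ - c * s) - 1) * S (2 - 8 * (x 1 ^ 2 / x 0 ^ 2) - 8 * (V₂ * s)) *
        S (2 - x 0 - V * s) := by
    funext s
    unfold bar
    rw [if_pos hx]
  rw [hfun]
  have h1 : HasDerivAt (fun s : ℝ => x 0 / (l₀ - c * s) - 1) (x 0 * c / (l₀ - c * t) ^ 2) t := by
    have h0 : HasDerivAt (fun s : ℝ => l₀ - c * s) (-c) t := by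
      simpa using ((hasDerivAt_id t).const_mul c).const_sub l₀
    have h2 := ((hasDerivAt_const t (x 0)).div h0 hl.ne').sub_const 1
    refine h2.congr_deriv ?_
    ring
  have h2 : HasDerivAt (fun s : ℝ => 2 - 8 * (x 1 ^ 2 / x 0 ^ 2) - 8 * (V₂ * s)) (-8 * V₂) t := by
    have h0 : HasDerivAt (fun s : ℝ => 8 * (V₂ * s)) (8 * V₂) t := by
      simpa using ((hasDerivAt_id t).const_mul V₂).const_mul 8
    refine (h0.const_sub (2 - 8 * (x 1 ^ 2 / x 0 ^ 2))).congr_deriv ?_
    ring
  have h3 : HasDerivAt (fun s : ℝ => 2 - x 0 - V * s) (-V) t := by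
    have h0 : HasDerivAt (fun s : ℝ => V * s) V t := by
      simpa using (hasDerivAt_id t).const_mul V
    exact h0.const_sub (2 - x 0)
  have k1 := (hSd _).comp t h1
  have k2 := (hSd _).comp t h2
  have k3 := (hSd _).comp t h3
  refine ((k1.mul k2).mul k3).congr_deriv ?_
  unfold barT
  simp only [Pi.mul_apply, Function.comp]
  ring

end Pool.Agent.Lib.MP96bed6
end
end

section
/-!
# MP_96bed6_an, module BDX: the spatial derivative of the barrier function
-/
set_option autoImplicit false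

open MeasureTheory Filter Topology Set
open scoped ENNReal ContDiff NNReal

noncomputable section

namespace Pool.Agent.Lib.MP96bed6

namespace BDXM

/-- The coordinate functionals. -/
def pr (i : Fin 2) : E →L[ℝ] ℝ := EuclideanSpace.proj i

lemma pr_apply (i : Fin 2) (v : E) : pr i v = v i := rfl

lemma hasFDerivAt_pr (i : Fin 2) (x : E) : HasFDerivAt (fun y : E => y i) (pr i) x :=
  (pr i).hasFDerivAt

lemma hasDerivAt_S (hS : ContDiff ℝ ∞ S) (s : ℝ) : HasDerivAt S (deriv S s) s :=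
  ((hS.differentiable (by simp)) s).hasDerivAt

end BDXM

open BDXM in
theorem specBDX (hSTP : SpecSTP) : SpecBDX := by
  intro l p q x hl hx
  obtain ⟨hS, -⟩ := hSTP
  have hx0 : x 0 ≠ 0 := hx.ne'
  have hl0 : l ≠ 0 := hl.ne'
  have h0 := hasFDerivAt_pr 0 x
  have h1 := hasFDerivAt_pr 1 x
  have hs1 : HasFDerivAt (fun y : E => y 0 / l - 1) (l⁻¹ • pr 0) x := by
    have := (h0.const_smul l⁻¹).sub_const 1
    refine this.congr_of_eventuallyEq (Eventually.of_forall fun y => ?_)
    simp [div_eq_inv_mul]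
  have hu : HasFDerivAt (fun y : E => y 1 * (y 0)⁻¹)
      (x 1 • ((-(x 0 ^ 2)⁻¹) • pr 0) + (x 0)⁻¹ • pr 1) x :=
    h1.mul ((hasDerivAt_inv hx0).comp_hasFDerivAt x h0)
  have hs2 : HasFDerivAt (fun y : E => 2 - 8 * (y 1 ^ 2 / y 0 ^ 2) - 8 * q)
      ((-16 * (x 1 * (x 0)⁻¹)) • (x 1 • ((-(x 0 ^ 2)⁻¹) • pr 0) + (x 0)⁻¹ • pr 1)) x := by
    have h2 : HasDerivAt (fun u : ℝ => 2 - 8 * u ^ 2 - 8 * q) (-16 * (x 1 * (x 0)⁻¹)) (x 1 * (x 0)⁻¹) := by
      have := (((hasDerivAt_id (x 1 * (x 0)⁻¹)).pow 2).const_mul 8).const_sub 2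
      have h3 := this.sub_const (8 * q)
      refine h3.congr_deriv ?_
      simp
      ring
    have h4 := h2.comp_hasFDerivAt x hu
    refine h4.congr_of_eventuallyEq (Eventually.of_forall fun y => ?_)
    simp only [Function.comp, ← div_eq_mul_inv, div_pow]
  have hs3 : HasFDerivAt (fun y : E => 2 - y 0 - p) (-pr 0) x :=
    (h0.const_sub 2).sub_const p
  have f1 := (hasDerivAt_S hS (x 0 / l - 1)).comp_hasFDerivAt x hs1
  have f2 := (hasDerivAt_S hS (2 - 8 * (x 1 ^ 2 / x 0 ^ 2) - 8 * q)).comp_hasFDerivAt x hs2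
  have f3 := (hasDerivAt_S hS (2 - x 0 - p)).comp_hasFDerivAt x hs3
  have f := (f1.mul f2).mul f3
  refine ⟨_, f.congr_of_eventuallyEq ?_, ?_⟩
  · have hop : ∀ᶠ y : E in 𝓝 x, 0 < y 0 := h0.continuousAt.eventually (lt_mem_nhds hx)
    filter_upwards [hop] with y hy
    simp [bar, hy, Function.comp]
  · intro v
    simp only [barX, add_apply, smul_apply,
      neg_apply, smul_eq_mul, pr_apply, Function.comp, Pi.mul_apply]
    field_simp
    ring

end Pool.Agent.Lib.MP96bed6
end
end

section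
/-!
# MP_96bed6_an, module BLP: the barrier function is Lipschitz with constant `K/l`
-/
set_option autoImplicit false

open MeasureTheory Filter Topology Set
open scoped ENNReal ContDiff NNReal

noncomputable section

namespace Pool.Agent.Lib.MP96bed6

namespace BLPM

lemma abs_coord_le (v : E) (i : Fin 2) : |v i| ≤ ‖v‖ := by
  have := EuclideanSpace.norm_eq v
  have h := PiLp.norm_apply_le v i
  simpa using h

/-- The bound on the derivative. -/
lemma barX_le (B : ℝ) (hB1 : 1 ≤ B) (hB : ∀ s, deriv S s ≤ B) (h01 : ∀ s, 0 ≤ S s ∧ S s ≤ 1)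
    (hz : ∀ s, s ≤ 0 → S s = 0) (hd0 : ∀ s, 0 ≤ deriv S s) (hd : ∀ s, deriv S s ≠ 0 → 0 < s ∧ s < 1)
    (l p q : ℝ) (hl : 0 < l) (hl1 : l ≤ 1) (hq : 0 ≤ q) (x : E) (hx : 0 < x 0) (v : E) :
    |barX l p q x v| ≤ 14 * B / l * ‖v‖ := by
  have hB0 : 0 ≤ B := by linarith
  have hv0 := abs_coord_le v 0
  have hv1 := abs_coord_le v 1
  have hn : 0 ≤ ‖v‖ := norm_nonneg v
  set s1 := x 0 / l - 1 with hs1
  set s2 := 2 - 8 * (x 1 ^ 2 / x 0 ^ 2) - 8 * q with hs2
  set s3 := 2 - x 0 - p with hs3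
  have absS : ∀ s, |S s| ≤ 1 := fun s => by rw [abs_of_nonneg (h01 s).1]; exact (h01 s).2
  have absD : ∀ s, |deriv S s| ≤ B := fun s => by rw [abs_of_nonneg (hd0 s)]; exact hB s
  have t1 : |deriv S s1 * S s2 * S s3 * (v 0 / l)| ≤ B / l * ‖v‖ := by
    rw [abs_mul, abs_mul, abs_mul, abs_div, abs_of_pos hl]
    have a1 : |deriv S s1| * |S s2| * |S s3| ≤ B := by
      have := mul_le_mul (absD s1) (absS s2) (abs_nonneg _) hB0
      have := mul_le_mul this (absS s3) (abs_nonneg _) (by linarith)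
      linarith
    calc |deriv S s1| * |S s2| * |S s3| * (|v 0| / l) ≤ B * (‖v‖ / l) :=
          mul_le_mul a1 (by gcongr) (by positivity) hB0
      _ = B / l * ‖v‖ := by ring
  have t2 : |S s1 * deriv S s2 * S s3 * (-16 * (x 1 / x 0) * ((v 1 * x 0 - v 0 * x 1) / x 0 ^ 2))|
      ≤ 12 * B / l * ‖v‖ := by
    by_cases h1 : S s1 = 0
    · rw [h1]; simp; positivity
    by_cases h2 : deriv S s2 = 0
    · rw [h2]; simp; positivity
    have hlx : l < x 0 := by
      by_contra hcon
      apply h1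
      apply hz
      rw [hs1]
      have : x 0 / l ≤ 1 := by rw [div_le_one hl]; linarith
      linarith
    have h4 : x 1 ^ 2 / x 0 ^ 2 < 1 / 4 := by
      have := (hd _ h2).1
      rw [hs2] at this
      linarith
    have h5 : (x 1 / x 0) ^ 2 < (1 / 2) ^ 2 := by rw [div_pow]; linarith
    have h6 : |x 1 / x 0| ≤ 1 / 2 := abs_le_of_sq_le_sq h5.le (by norm_num)
    have h7 : |x 1| ≤ x 0 / 2 := by
      rw [abs_div, abs_of_pos hx, div_le_iff₀ hx] at h6
      linarith
    have h8 : |v 1 * x 0 - v 0 * x 1| ≤ 3 / 2 * ‖v‖ * x 0 := by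
      calc |v 1 * x 0 - v 0 * x 1| ≤ |v 1 * x 0| + |v 0 * x 1| := abs_sub _ _
        _ = |v 1| * x 0 + |v 0| * |x 1| := by rw [abs_mul, abs_mul, abs_of_pos hx]
        _ ≤ ‖v‖ * x 0 + ‖v‖ * (x 0 / 2) := by gcongr
        _ = 3 / 2 * ‖v‖ * x 0 := by ring
    have h9 : |-16 * (x 1 / x 0) * ((v 1 * x 0 - v 0 * x 1) / x 0 ^ 2)| ≤ 12 / l * ‖v‖ := by
      rw [abs_mul, abs_mul, abs_div _ (x 0 ^ 2), abs_of_pos (show (0:ℝ) < x 0 ^ 2 by positivity)]
      have e16 : |(-16 : ℝ)| = 16 := by norm_num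
      rw [e16]
      calc 16 * |x 1 / x 0| * (|v 1 * x 0 - v 0 * x 1| / x 0 ^ 2)
          ≤ 16 * (1 / 2) * (3 / 2 * ‖v‖ * x 0 / x 0 ^ 2) := by gcongr
        _ = 12 * ‖v‖ / x 0 := by field_simp; ring
        _ ≤ 12 * ‖v‖ / l := by gcongr
        _ = 12 / l * ‖v‖ := by ring
    rw [abs_mul]
    have a1 : |S s1 * deriv S s2 * S s3| ≤ B := by
      rw [abs_mul, abs_mul]
      have := mul_le_mul (absS s1) (absD s2) (abs_nonneg _) zero_le_one
      have := mul_le_mul this (absS s3) (abs_nonneg _) (by linarith)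
      linarith
    calc _ ≤ B * (12 / l * ‖v‖) := mul_le_mul a1 h9 (abs_nonneg _) hB0
      _ = 12 * B / l * ‖v‖ := by ring
  have t3 : |S s1 * S s2 * deriv S s3 * (-(v 0))| ≤ B / l * ‖v‖ := by
    rw [abs_mul, abs_mul, abs_mul, abs_neg]
    have a1 : |S s1| * |S s2| * |deriv S s3| ≤ B := by
      have := mul_le_mul (absS s1) (absS s2) (abs_nonneg _) zero_le_one
      have := mul_le_mul this (absD s3) (abs_nonneg _) (by norm_num)
      linarith
    have a2 : ‖v‖ ≤ ‖v‖ / l := by
      rw [le_div_iff₀ hl]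
      nlinarith
    calc |S s1| * |S s2| * |deriv S s3| * |v 0| ≤ B * (‖v‖ / l) :=
          mul_le_mul a1 (hv0.trans a2) (by positivity) hB0
      _ = B / l * ‖v‖ := by ring
  have := abs_add_three (deriv S s1 * S s2 * S s3 * (v 0 / l))
    (S s1 * deriv S s2 * S s3 * (-16 * (x 1 / x 0) * ((v 1 * x 0 - v 0 * x 1) / x 0 ^ 2)))
    (S s1 * S s2 * deriv S s3 * (-(v 0)))
  have hfin : B / l * ‖v‖ + 12 * B / l * ‖v‖ + B / l * ‖v‖ = 14 * B / l * ‖v‖ := by ring
  unfold barX
  linarith

end BLPM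

open BLPM in
theorem specBLP (hSTP : SpecSTP) (hBVL : SpecBVL) (hBDX : SpecBDX) : SpecBLP := by
  obtain ⟨hS, h01, hz, h1, hpos, hd0, hd, B, hB1, hB⟩ := hSTP
  refine ⟨14 * B, by linarith, ?_⟩
  intro l p q hl hl1 hq x y
  have key : ∀ z : E, ∃ A : E →L[ℝ] ℝ, HasFDerivAt (bar l p q) A z ∧ ∀ v, |A v| ≤ 14 * B / l * ‖v‖ := by
    intro z
    by_cases hz0 : 0 < z 0
    · obtain ⟨A, hA, hAv⟩ := hBDX l p q z hl hz0
      refine ⟨A, hA, fun v => ?_⟩
      rw [hAv]
      exact barX_le B hB1 hB h01 hz hd0 hd l p q hl hl1 hq z hz0 v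
    · refine ⟨0, ?_, fun v => ?_⟩
      · have hop : ∀ᶠ y : E in 𝓝 z, y 0 < l := by
          have hc : Continuous (fun y : E => y 0) := by fun_prop
          exact hc.continuousAt.eventually (gt_mem_nhds (by linarith))
        refine (hasFDerivAt_const (0 : ℝ) z).congr_of_eventuallyEq ?_
        filter_upwards [hop] with y hy
        by_contra hne
        have h2 := (hBVL l p q y hl)
        have h3 : 0 < bar l p q y := lt_of_le_of_ne h2.1.1 (Ne.symm hne)
        exact absurd (h2.2.1 h3).1 (by linarith)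
      · simp; positivity
  have hdiff : ∀ z, DifferentiableAt ℝ (bar l p q) z := fun z => by
    obtain ⟨A, hA, -⟩ := key z
    exact hA.differentiableAt
  have hbound : ∀ z, ‖fderiv ℝ (bar l p q) z‖ ≤ 14 * B / l := fun z => by
    obtain ⟨A, hA, hAv⟩ := key z
    rw [hA.fderiv]
    exact A.opNorm_le_bound (by positivity) fun v => by simpa using hAv v
  have := Convex.norm_image_sub_le_of_norm_fderiv_le (𝕜 := ℝ) (f := bar l p q) (s := Set.univ)
    (fun z _ => hdiff z) (fun z _ => hbound z) convex_univ (mem_univ y) (mem_univ x)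
  simpa using this

end Pool.Agent.Lib.MP96bed6
end
end

section
/-!
# MP_96bed6_an, module BVL: values of the barrier function.
-/
set_option autoImplicit false

open MeasureTheory Filter Topology Set
open scoped ENNReal ContDiff NNReal

noncomputable section

namespace Pool.Agent.Lib.MP96bed6

theorem specBVL (hSTP : SpecSTP) : SpecBVL := by
  obtain ⟨-, h01, h0, h1, -, -, -, -⟩ := hSTP
  intro l p q x hl
  have key : ∀ s, 0 < S s → 0 < s := by
    intro s hs
    by_contra hc
    rw [h0 s (not_lt.mp hc)] at hs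
    exact lt_irrefl _ hs
  refine ⟨?_, ?_, ?_⟩
  · unfold bar
    split_ifs with hx
    · have a := h01 (x 0 / l - 1)
      have b := h01 (2 - 8 * (x 1 ^ 2 / x 0 ^ 2) - 8 * q)
      have c := h01 (2 - x 0 - p)
      refine ⟨mul_nonneg (mul_nonneg a.1 b.1) c.1, ?_⟩
      exact mul_le_one₀ (mul_le_one₀ a.2 b.1 b.2) c.1 c.2
    · exact ⟨le_refl _, zero_le_one⟩
  · intro hb
    unfold bar at hb
    split_ifs at hb with hx
    · have a := h01 (x 0 / l - 1)
      have b := h01 (2 - 8 * (x 1 ^ 2 / x 0 ^ 2) - 8 * q)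
      have c := h01 (2 - x 0 - p)
      have hab : 0 < S (x 0 / l - 1) * S (2 - 8 * (x 1 ^ 2 / x 0 ^ 2) - 8 * q) :=
        pos_of_mul_pos_left hb c.1
      have hc : 0 < S (2 - x 0 - p) := pos_of_mul_pos_right hb (mul_nonneg a.1 b.1)
      have ha : 0 < S (x 0 / l - 1) := pos_of_mul_pos_left hab b.1
      have hb' : 0 < S (2 - 8 * (x 1 ^ 2 / x 0 ^ 2) - 8 * q) := pos_of_mul_pos_right hab a.1
      have e1 := key _ ha
      have e2 := key _ hb'
      have e3 := key _ hc
      refine ⟨?_, by linarith, by linarith⟩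
      have : 1 < x 0 / l := by linarith
      rwa [one_lt_div hl] at this
    · exact absurd hb (lt_irrefl _)
  · intro hx hy hq hp
    have hx0 : 0 < x 0 := by linarith
    unfold bar
    rw [if_pos hx0]
    have a1 : S (x 0 / l - 1) = 1 := by
      apply h1
      have : 2 ≤ x 0 / l := by rw [le_div_iff₀ hl]; exact hx
      linarith
    have a2 : S (2 - 8 * (x 1 ^ 2 / x 0 ^ 2) - 8 * q) = 1 := by
      apply h1
      have : x 1 ^ 2 / x 0 ^ 2 ≤ 1 / 9 := by
        rw [div_le_iff₀ (by positivity)]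
        linarith
      linarith
    have a3 : S (2 - x 0 - p) = 1 := by
      apply h1
      linarith
    rw [a1, a2, a3]; norm_num

end Pool.Agent.Lib.MP96bed6
end
end

section
/-! # CPS: the velocity vanishes far from the support -/
set_option autoImplicit false

open MeasureTheory Filter Topology Set
open scoped ENNReal ContDiff NNReal

noncomputable section

namespace Pool.Agent.Lib.MP96bed6

theorem specCPS (hSUPP : SpecSUPP) : SpecCPS := by
  intro g θ hg R hR x hx
  obtain ⟨-, -, -, -, -, -, -, -, s9, -⟩ := hSUPP g hg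
  have h0 : ∀ y : E, R < 3 * ‖y‖ → stream g θ y = 0 := by
    intro y hy
    have h1 : ∀ z : E, θ (‖y‖ • z) * kern g z = 0 := by
      intro z
      by_cases hz : kern g z = 0
      · rw [hz, mul_zero]
      · have h2 := (s9 z hz).1
        rw [hR, zero_mul]
        rw [norm_smul, norm_norm]
        nlinarith [norm_nonneg y]
    unfold stream
    rw [integral_congr_ae (Eventually.of_forall h1), integral_zero, mul_zero]
  have hev : stream g θ =ᶠ[𝓝 x] fun _ => (0 : ℝ) := by
    have h1 : {y : E | R < 3 * ‖y‖} ∈ 𝓝 x :=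
      (isOpen_lt continuous_const (continuous_const.mul continuous_norm)).mem_nhds hx
    filter_upwards [h1] with y hy
    exact h0 y hy
  have hf : fderiv ℝ (stream g θ) x = 0 := by
    rw [hev.fderiv_eq]
    exact fderiv_const_apply (0 : ℝ)
  unfold vel
  rw [hf]
  ext i
  fin_cases i <;> simp

end Pool.Agent.Lib.MP96bed6
end
end

section
/-!
# MP_96bed6_an, module CPT

The first touching time.
-/
set_option autoImplicit false

open MeasureTheory Filter Topology Set
open scoped ENNReal ContDiff NNReal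

noncomputable section

namespace Pool.Agent.Lib.MP96bed6

/-- CPT. -/
theorem specCPT : SpecCPT := by
  intro T' R D hT hD h0 hR hex
  set K : Set (ℝ × E) := Icc (0 : ℝ) T' ×ˢ Metric.closedBall (0 : E) R with hK
  have hKc : IsCompact K := isCompact_Icc.prod (isCompact_closedBall _ _)
  have hDK : ∀ i, ContinuousOn (fun p : ℝ × E => D i p.1 p.2) K := fun i =>
    (hD i).mono (prod_mono le_rfl (subset_univ _))
  have hcl : ∀ i, IsClosed (K ∩ (fun p : ℝ × E => D i p.1 p.2) ⁻¹' (Iic 0)) := fun i =>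
    (hDK i).preimage_isClosed_of_isClosed hKc.isClosed isClosed_Iic
  set Z : Set (ℝ × E) := ⋃ i, (K ∩ (fun p : ℝ × E => D i p.1 p.2) ⁻¹' (Iic 0)) with hZ
  have hZc : IsCompact Z := by
    refine hKc.of_isClosed_subset (isClosed_iUnion_of_finite hcl) ?_
    intro p hp
    obtain ⟨i, hi⟩ := mem_iUnion.1 hp
    exact hi.1
  have hmem : ∀ (i : Fin 2) (t : ℝ) (x : E), t ∈ Icc 0 T' → D i t x ≤ 0 → (t, x) ∈ Z := by
    intro i t x ht hx
    refine mem_iUnion.2 ⟨i, ⟨⟨ht, ?_⟩, hx⟩⟩
    rw [mem_closedBall_zero_iff]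
    by_contra hcon
    exact absurd (hR i t ht x (not_le.1 hcon).le) (not_lt.2 hx)
  obtain ⟨i₁, t₁, ht₁, x₁, hx₁⟩ := hex
  have hZne : Z.Nonempty := ⟨(t₁, x₁), hmem i₁ t₁ x₁ ht₁ hx₁⟩
  obtain ⟨⟨t₀, x₀⟩, hz₀, hmin⟩ := hZc.exists_isMinOn hZne continuous_fst.continuousOn
  obtain ⟨i, hi⟩ := mem_iUnion.1 hz₀
  have ht₀ : t₀ ∈ Icc 0 T' := hi.1.1
  have hDi : D i t₀ x₀ ≤ 0 := hi.2
  have ht₀pos : 0 < t₀ := by
    rcases ht₀.1.eq_or_lt with h | h
    · exfalso
      rw [← h] at hDi
      exact absurd (h0 i x₀) (not_lt.2 hDi)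
    · exact h
  have hbefore : ∀ j, ∀ s ∈ Ico 0 t₀, ∀ y, 0 < D j s y := by
    intro j s hs y
    by_contra hcon
    have h1 : (s, y) ∈ Z := hmem j s y ⟨hs.1, hs.2.le.trans ht₀.2⟩ (not_lt.1 hcon)
    have h2 : t₀ ≤ s := hmin h1
    exact absurd hs.2 (not_lt.2 h2)
  have hat : ∀ j y, 0 ≤ D j t₀ y := by
    intro j y
    have hc : ContinuousOn (fun s : ℝ => D j s y) (Icc 0 T') := by
      have : ContinuousOn (fun s : ℝ => ((s, y) : ℝ × E)) (Icc 0 T') := by fun_prop
      exact (hD j).comp this (fun s hs => ⟨hs, mem_univ _⟩)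
    have hcw : ContinuousWithinAt (fun s : ℝ => D j s y) (Ico 0 t₀) t₀ :=
      (hc t₀ ht₀).mono (fun s hs => ⟨hs.1, hs.2.le.trans ht₀.2⟩)
    have hne : (𝓝[Ico 0 t₀] t₀).NeBot := by
      rw [← mem_closure_iff_nhdsWithin_neBot, closure_Ico ht₀pos.ne]
      exact ⟨ht₀pos.le, le_rfl⟩
    refine ge_of_tendsto hcw ?_
    filter_upwards [self_mem_nhdsWithin] with s hs
    exact (hbefore j s hs y).le
  exact ⟨i, t₀, ⟨ht₀pos, ht₀.2⟩, x₀, le_antisymm hDi (hat i x₀), hbefore, hat⟩

end Pool.Agent.Lib.MP96bed6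
end
end

section
/-!
# Module DAT: the initial data
-/
set_option autoImplicit false

open MeasureTheory Filter Topology Set
open scoped ENNReal ContDiff NNReal

noncomputable section

namespace Pool.Agent.Lib.MP96bed6

namespace DATM

/-- the cut-off of the sector -/
def P (l a b : ℝ) : ℝ := S (2 * a / l - 1) * S (4 - a) * S (3 - b ^ 2)

theorem P_mem (h : SpecSTP) (l a b : ℝ) : 0 ≤ P l a b ∧ P l a b ≤ 1 := by
  obtain ⟨-, h01, -⟩ := h
  unfold P
  constructor
  · exact mul_nonneg (mul_nonneg (h01 _).1 (h01 _).1) (h01 _).1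
  · have h1 : S (2 * a / l - 1) * S (4 - a) ≤ 1 :=
      mul_le_one₀ (h01 _).2 (h01 _).1 (h01 _).2
    exact mul_le_one₀ h1 (h01 _).1 (h01 _).2

theorem P_supp (h : SpecSTP) {l a b : ℝ} (hl : 0 < l) (hP : P l a b ≠ 0) :
    0 < a ∧ a ≤ 4 ∧ b ^ 2 ≤ 3 := by
  obtain ⟨-, -, h0, -⟩ := h
  unfold P at hP
  refine ⟨?_, ?_, ?_⟩
  · by_contra hc
    push Not at hc
    apply hP
    rw [h0 (2 * a / l - 1), zero_mul, zero_mul]
    have h1 : 2 * a / l ≤ 0 := div_nonpos_of_nonpos_of_nonneg (by linarith) hl.le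
    linarith
  · by_contra hc
    push Not at hc
    apply hP
    rw [h0 (4 - a) (by linarith), mul_zero, zero_mul]
  · by_contra hc
    push Not at hc
    apply hP
    rw [h0 (3 - b ^ 2) (by linarith), mul_zero]

theorem P_one (h : SpecSTP) {l a b : ℝ} (hl : 0 < l) (ha : l < a) (ha2 : a < 2)
    (hb : b ^ 2 ≤ 1) : P l a b = 1 := by
  obtain ⟨-, -, -, h1, -⟩ := h
  unfold P
  have h2 : 1 ≤ a / l := by rw [le_div_iff₀ hl]; linarith
  rw [h1 (2 * a / l - 1) (by rw [mul_div_assoc]; linarith), h1 (4 - a) (by linarith),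
    h1 (3 - b ^ 2) (by linarith)]
  norm_num

/-- the initial datum -/
def dat (l M : ℝ) (x : E) : ℝ := M * (P l (-(x 0)) (x 1) - P l (x 0) (x 1))

theorem refl0 (x : E) : refl x 0 = -(x 0) := by simp [refl]

theorem refl1 (x : E) : refl x 1 = x 1 := by simp [refl]

theorem coord (i : Fin 2) : ContDiff ℝ ∞ (fun x : E => x i) :=
  (EuclideanSpace.proj (𝕜 := ℝ) i : E →L[ℝ] ℝ).contDiff

theorem dat_smooth (h : SpecSTP) (l M : ℝ) : ContDiff ℝ ∞ (dat l M) := by
  have hS := h.1
  have h0 := coord 0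
  have h1 := coord 1
  unfold dat P
  refine contDiff_const.mul (ContDiff.sub ?_ ?_)
  · refine ContDiff.mul (ContDiff.mul ?_ ?_) ?_
    · exact hS.comp (((contDiff_const.mul h0.neg).div_const l).sub contDiff_const)
    · exact hS.comp (contDiff_const.sub h0.neg)
    · exact hS.comp (contDiff_const.sub (h1.pow 2))
  · refine ContDiff.mul (ContDiff.mul ?_ ?_) ?_
    · exact hS.comp (((contDiff_const.mul h0).div_const l).sub contDiff_const)
    · exact hS.comp (contDiff_const.sub h0)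
    · exact hS.comp (contDiff_const.sub (h1.pow 2))

theorem dat_supp (h : SpecSTP) {l : ℝ} (hl : 0 < l) (M : ℝ) : HasCompactSupport (dat l M) := by
  refine HasCompactSupport.of_support_subset_isCompact (isCompact_closedBall (0 : E) 5) ?_
  intro x hx
  rw [Function.mem_support] at hx
  have h1 : (x 0) ^ 2 ≤ 16 ∧ (x 1) ^ 2 ≤ 3 := by
    by_cases hP : P l (x 0) (x 1) = 0
    · have hQ : P l (-(x 0)) (x 1) ≠ 0 := by
        intro hQ
        apply hx
        unfold dat
        rw [hP, hQ, sub_zero, mul_zero]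
      obtain ⟨h2, h3, h4⟩ := P_supp h hl hQ
      exact ⟨by nlinarith, h4⟩
    · obtain ⟨h2, h3, h4⟩ := P_supp h hl hP
      exact ⟨by nlinarith, h4⟩
  rw [mem_closedBall_zero_iff]
  have h2 : ‖x‖ ^ 2 = (x 0) ^ 2 + (x 1) ^ 2 := by
    rw [EuclideanSpace.norm_sq_eq, Fin.sum_univ_two]
    simp
  have h3 : 0 ≤ ‖x‖ := norm_nonneg x
  nlinarith

theorem key (hSTP : SpecSTP) (hBVL : SpecBVL) {l : ℝ} (hl : 0 < l) (x : E) :
    -1 + 2 * bar l 0 0 x ≤ P l (x 0) (x 1) - P l (-(x 0)) (x 1) := by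
  obtain ⟨⟨h1, h2⟩, h3, -⟩ := hBVL l 0 0 x hl
  obtain ⟨h4, h5⟩ := P_mem hSTP l (x 0) (x 1)
  obtain ⟨h6, h7⟩ := P_mem hSTP l (-(x 0)) (x 1)
  rcases h1.eq_or_lt with h | h
  · rw [← h]
    linarith
  · obtain ⟨h8, h9, h10⟩ := h3 h
    have hx0 : 0 < x 0 := hl.trans h8
    have h11 : (x 1) ^ 2 ≤ 1 := by
      have h12 : (x 1) ^ 2 / (x 0) ^ 2 < 1 / 4 := by linarith
      rw [div_lt_iff₀ (by positivity)] at h12
      nlinarith
    rw [P_one hSTP hl h8 (by linarith) h11]
    have h12 : P l (-(x 0)) (x 1) = 0 := by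
      by_contra hc
      have h13 := (P_supp hSTP hl hc).1
      linarith
    rw [h12]
    linarith

end DATM

open DATM in
theorem specDAT (hSTP : SpecSTP) (hBVL : SpecBVL) : SpecDAT := by
  intro l M hl _ hM
  refine ⟨dat l M, dat_smooth hSTP l M, dat_supp hSTP hl M, fun x => ?_, fun x => ?_, fun x => ?_⟩
  · obtain ⟨h4, h5⟩ := P_mem hSTP l (x 0) (x 1)
    obtain ⟨h6, h7⟩ := P_mem hSTP l (-(x 0)) (x 1)
    unfold dat
    rw [abs_mul, abs_of_pos hM]
    have h8 : |P l (-(x 0)) (x 1) - P l (x 0) (x 1)| ≤ 1 := by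
      rw [abs_le]
      constructor <;> linarith
    nlinarith
  · have h1 : -(dat l M x) / M = P l (x 0) (x 1) - P l (-(x 0)) (x 1) := by
      unfold dat
      field_simp
      ring
    rw [h1]
    exact key hSTP hBVL hl x
  · have h1 : dat l M (refl x) / M = P l (x 0) (x 1) - P l (-(x 0)) (x 1) := by
      unfold dat
      rw [refl0, refl1, neg_neg]
      field_simp
    rw [h1]
    exact key hSTP hBVL hl x

end Pool.Agent.Lib.MP96bed6
end
end

section
/-!
# DER: the derivative of the sampled function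
-/
set_option autoImplicit false

open MeasureTheory Filter Topology Set
open scoped ENNReal ContDiff NNReal

noncomputable section

namespace Pool.Agent.Lib.MP96bed6

namespace DERM

/-- the change of variables -/
theorem samp_eq (f θ : E → ℝ) {r : ℝ} (hr : 0 < r) :
    samp f θ r = ∫ y : E, θ y * ((r⁻¹) ^ 2 * f (r⁻¹ • y)) := by
  have h1 := Measure.integral_comp_smul (volume : Measure E) (fun y : E => θ y * f (r⁻¹ • y)) r
  have h2 : ∀ z : E, r⁻¹ • (r • z) = z := fun z => by
    rw [smul_smul, inv_mul_cancel₀ hr.ne', one_smul]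
  simp only [h2] at h1
  unfold samp
  rw [h1, finrank_euclideanSpace_fin, abs_of_pos (by positivity), smul_eq_mul, ← integral_const_mul]
  congr 1
  funext y
  rw [inv_pow]
  ring

/-- the derivative of the integrand -/
theorem hd (f : E → ℝ) (hf : Differentiable ℝ f) (y : E) {s : ℝ} (hs : 0 < s) :
    HasDerivAt (fun s : ℝ => (s⁻¹) ^ 2 * f (s⁻¹ • y)) ((s⁻¹) ^ 3 * gp f (s⁻¹ • y)) s := by
  have h1 : HasDerivAt (fun s : ℝ => s⁻¹) (-(s ^ 2)⁻¹) s := hasDerivAt_inv hs.ne'
  have h2 : HasDerivAt (fun s : ℝ => s⁻¹ • y) ((-(s ^ 2)⁻¹) • y) s := h1.smul_const y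
  have h3 : HasDerivAt (fun s : ℝ => f (s⁻¹ • y)) (fderiv ℝ f (s⁻¹ • y) ((-(s ^ 2)⁻¹) • y)) s :=
    (hf (s⁻¹ • y)).hasFDerivAt.comp_hasDerivAt s h2
  have h4 := (h1.pow 2).mul h3
  refine h4.congr_deriv ?_
  unfold gp
  have h5 : (-(s ^ 2)⁻¹) • y = (-s⁻¹) • (s⁻¹ • y) := by
    rw [smul_smul]
    congr 1
    rw [← inv_pow]
    ring
  rw [h5, map_smul, smul_eq_mul]
  simp only [Nat.cast_ofNat, Nat.add_one_sub_one, pow_one, Pi.pow_apply]
  rw [show (s ^ 2)⁻¹ = s⁻¹ ^ 2 by rw [inv_pow]]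
  ring

end DERM

theorem specDER : SpecDER := by
  intro f θ hf hfc hθ r hr
  have hfd : Differentiable ℝ f := hf.differentiable (by simp)
  have hgp : Continuous (gp f) := by
    have h1 : ContDiff ℝ ∞ (fderiv ℝ f) := hf.fderiv_right (by simp)
    exact (continuous_const.mul hf.continuous).sub
      (h1.continuous.clm_apply continuous_id)
  -- the supports
  obtain ⟨R, hR0, hR⟩ : ∃ R : ℝ, 0 < R ∧ tsupport f ⊆ Metric.closedBall 0 R := by
    obtain ⟨R, hR⟩ := hfc.isCompact.isBounded.subset_closedBall (0 : E)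
    exact ⟨max R 1, lt_max_of_lt_right one_pos, hR.trans (Metric.closedBall_subset_closedBall (le_max_left _ _))⟩
  have hf0 : ∀ z : E, R < ‖z‖ → f z = 0 ∧ gp f z = 0 := by
    intro z hz
    have h1 : z ∉ tsupport f := by
      intro h
      have := hR h
      rw [mem_closedBall_zero_iff] at this
      exact absurd hz (not_lt.2 this)
    have h2 : f z = 0 := image_eq_zero_of_notMem_tsupport h1
    have h3 : fderiv ℝ f z = 0 := by
      have h4 : z ∉ tsupport (fderiv ℝ f) := fun h => h1 (tsupport_fderiv_subset ℝ h)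
      exact image_eq_zero_of_notMem_tsupport h4
    refine ⟨h2, ?_⟩
    unfold gp
    rw [h2, h3]
    simp
  -- bounds
  obtain ⟨B, hB⟩ : ∃ B, ∀ z : E, ‖gp f z‖ ≤ B := by
    have hc : HasCompactSupport (gp f) := by
      refine HasCompactSupport.of_support_subset_isCompact (isCompact_closedBall (0 : E) R) ?_
      intro z hz
      rw [mem_closedBall_zero_iff]
      by_contra hcon
      exact hz (hf0 z (not_le.1 hcon)).2
    exact hgp.bounded_above_of_compact_support hc
  have hB0 : 0 ≤ B := (norm_nonneg _).trans (hB 0)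
  obtain ⟨T, hT⟩ : ∃ T, ∀ z ∈ Metric.closedBall (0 : E) (2 * r * R), ‖θ z‖ ≤ T :=
    (isCompact_closedBall (0 : E) (2 * r * R)).exists_bound_of_continuousOn hθ.continuousOn
  have hT0 : 0 ≤ T := (norm_nonneg _).trans (hT 0 (by
    rw [mem_closedBall_zero_iff, norm_zero]; positivity))
  set F : ℝ → E → ℝ := fun s y => θ y * ((s⁻¹) ^ 2 * f (s⁻¹ • y)) with hF
  set F' : ℝ → E → ℝ := fun s y => θ y * ((s⁻¹) ^ 3 * gp f (s⁻¹ • y)) with hF'
  set bd : E → ℝ := (Metric.closedBall (0 : E) (2 * r * R)).indicator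
    fun _ => T * (((r / 2)⁻¹) ^ 3 * B) with hbd
  have hcF : ∀ s, Continuous (F s) := fun s =>
    hθ.mul (continuous_const.mul (hf.continuous.comp (continuous_const_smul _)))
  have hcF' : ∀ s, Continuous (F' s) := fun s =>
    hθ.mul (continuous_const.mul (hgp.comp (continuous_const_smul _)))
  have hsup : ∀ s : ℝ, 0 < s → s < 2 * r → ∀ y : E, y ∉ Metric.closedBall (0 : E) (2 * r * R) →
      R < ‖s⁻¹ • y‖ := by
    intro s hs hs2 y hy
    rw [mem_closedBall_zero_iff, not_le] at hy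
    rw [norm_smul, norm_inv, Real.norm_of_nonneg hs.le, inv_mul_eq_div, lt_div_iff₀ hs]
    calc R * s < R * (2 * r) := mul_lt_mul_of_pos_left hs2 hR0
      _ = 2 * r * R := by ring
      _ < ‖y‖ := hy
  have hs : Ioo (r / 2) (2 * r) ∈ 𝓝 r := Ioo_mem_nhds (by linarith) (by linarith)
  have key := hasDerivAt_integral_of_dominated_loc_of_deriv_le (μ := (volume : Measure E))
    (F := F) (F' := F') (x₀ := r) (bound := bd) hs
    (Filter.Eventually.of_forall fun s => (hcF s).aestronglyMeasurable)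
    (by
      apply (hcF r).integrable_of_hasCompactSupport
      refine HasCompactSupport.of_support_subset_isCompact
        (isCompact_closedBall (0 : E) (2 * r * R)) ?_
      intro y hy
      by_contra hcon
      apply hy
      show θ y * ((r⁻¹) ^ 2 * f (r⁻¹ • y)) = 0
      rw [(hf0 _ (hsup r hr (by linarith) y hcon)).1, mul_zero, mul_zero])
    (hcF' r).aestronglyMeasurable
    (Filter.Eventually.of_forall fun y s hs' => by
      have hs0 : 0 < s := by have := hs'.1; linarith
      by_cases hy : y ∈ Metric.closedBall (0 : E) (2 * r * R)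
      · rw [hbd, indicator_of_mem hy]
        show ‖θ y * ((s⁻¹) ^ 3 * gp f (s⁻¹ • y))‖ ≤ _
        rw [norm_mul, norm_mul, norm_pow, norm_inv, Real.norm_of_nonneg hs0.le]
        have h1 : s⁻¹ ≤ (r / 2)⁻¹ := inv_anti₀ (by linarith) hs'.1.le
        have h2 : s⁻¹ ^ 3 ≤ (r / 2)⁻¹ ^ 3 := pow_le_pow_left₀ (by positivity) h1 3
        exact mul_le_mul (hT y hy) (mul_le_mul h2 (hB _) (norm_nonneg _) (by positivity))
          (by positivity) hT0
      · rw [hbd, indicator_of_notMem hy]
        show ‖θ y * ((s⁻¹) ^ 3 * gp f (s⁻¹ • y))‖ ≤ _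
        rw [(hf0 _ (hsup s hs0 hs'.2 y hy)).2, mul_zero, mul_zero, norm_zero])
    (by
      rw [hbd, integrable_indicator_iff measurableSet_closedBall]
      exact integrableOn_const (hs := (isCompact_closedBall (0 : E) (2 * r * R)).measure_lt_top.ne))
    (Filter.Eventually.of_forall fun y s hs' =>
      (DERM.hd f hfd y (by have := hs'.1; linarith)).const_mul (θ y))
  have h1 := key.2
  have h2 : (∫ y : E, F' r y) = samp (gp f) θ r / r := by
    rw [DERM.samp_eq (gp f) θ hr, ← integral_div]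
    congr 1
    funext y
    show θ y * ((r⁻¹) ^ 3 * gp f (r⁻¹ • y)) = _
    field_simp
  rw [h2] at h1
  refine h1.congr_of_eventuallyEq ?_
  filter_upwards [hs] with s hs'
  exact DERM.samp_eq f θ (by have := hs'.1; linarith)

end Pool.Agent.Lib.MP96bed6
end
end

section
/-! # DIL: the operator commutes with dilations -/
set_option autoImplicit false

open MeasureTheory Filter Topology Set
open scoped ENNReal ContDiff NNReal

noncomputable section

namespace Pool.Agent.Lib.MP96bed6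

namespace DILM

theorem stream_smul (g θ : E → ℝ) {lam : ℝ} (hl : 0 < lam) (x : E) :
    stream g (fun y => θ (lam • y)) x = lam⁻¹ * stream g θ (lam • x) := by
  have h1 : ‖lam • x‖ = lam * ‖x‖ := by rw [norm_smul, Real.norm_of_nonneg hl.le]
  unfold stream
  rw [h1]
  have h2 : (fun z : E => θ (lam • (‖x‖ • z)) * kern g z) =
      fun z : E => θ ((lam * ‖x‖) • z) * kern g z := by
    funext z
    rw [smul_smul]
  rw [h2, ← mul_assoc]
  congr 1
  have h3 : (lam • x) 0 = lam * x 0 := rfl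
  have h4 : (lam • x) 1 = lam * x 1 := rfl
  rw [h3, h4]
  by_cases hx : ‖x‖ = 0
  · rw [hx]; simp
  · field_simp

theorem fderiv_stream (g θ : E → ℝ) {lam : ℝ} (hl : 0 < lam) (x : E) :
    fderiv ℝ (stream g (fun y => θ (lam • y))) x = fderiv ℝ (stream g θ) (lam • x) := by
  have h1 : stream g (fun y => θ (lam • y)) = fun x => lam⁻¹ • stream g θ (lam • x) := by
    funext y
    rw [stream_smul g θ hl, smul_eq_mul]
  rw [h1]
  have h2 : fderiv ℝ (fun x => lam⁻¹ • stream g θ (lam • x)) x =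
      lam⁻¹ • fderiv ℝ (fun x => stream g θ (lam • x)) x :=
    congrFun (fderiv_const_smul_field (f := fun x => stream g θ (lam • x)) lam⁻¹) x
  rw [h2, fderiv_comp_smul, smul_smul, inv_mul_cancel₀ hl.ne', one_smul]

end DILM

theorem specDIL : SpecDIL := by
  intro g θ lam hl x
  unfold vel
  rw [DILM.fderiv_stream g θ hl x]

end Pool.Agent.Lib.MP96bed6
end
end

section
/-!
# DIV: the velocity is smooth and divergence free
-/
set_option autoImplicit false

open MeasureTheory Filter Topology Set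
open scoped ENNReal ContDiff NNReal

noncomputable section

namespace Pool.Agent.Lib.MP96bed6

theorem specDIV (hSMO : SpecSMO) : SpecDIV := by
  intro g θ hg hθ
  have hψ := hSMO g θ hg hθ
  have h1 : ContDiff ℝ ∞ (fderiv ℝ (stream g θ)) := hψ.fderiv_right (by simp)
  have hv : ContDiff ℝ ∞ (vel g θ) := by
    rw [contDiff_euclidean]
    intro i
    fin_cases i
    · show ContDiff ℝ ∞ fun x => -(fderiv ℝ (stream g θ) x e1)
      exact (h1.clm_apply contDiff_const).neg
    · show ContDiff ℝ ∞ fun x => fderiv ℝ (stream g θ) x e0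
      exact h1.clm_apply contDiff_const
  refine ⟨hv, fun x => ?_⟩
  have hd : HasFDerivAt (vel g θ) (fderiv ℝ (vel g θ) x) x :=
    (hv.differentiable (by simp) x).hasFDerivAt
  have hdi : ∀ i : Fin 2, HasFDerivAt (fun y => (vel g θ y) i)
      ((EuclideanSpace.proj i : E →L[ℝ] ℝ).comp (fderiv ℝ (vel g θ) x)) x := fun i =>
    (EuclideanSpace.proj i : E →L[ℝ] ℝ).hasFDerivAt.comp x hd
  have hd2 : HasFDerivAt (fderiv ℝ (stream g θ)) (fderiv ℝ (fderiv ℝ (stream g θ)) x) x :=
    (h1.differentiable (by simp) x).hasFDerivAt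
  have hc : ∀ w : E, HasFDerivAt (fun y => fderiv ℝ (stream g θ) y w)
      ((fderiv ℝ (fderiv ℝ (stream g θ)) x).flip w) x := by
    intro w
    have := hd2.clm_apply (hasFDerivAt_const w x)
    simpa using this
  have e0' : (fderiv ℝ (vel g θ) x e0) 0 = -(fderiv ℝ (fderiv ℝ (stream g θ)) x e0 e1) := by
    have h2 := (hdi 0).unique (hc e1).neg
    have h3 := congrArg (fun L : E →L[ℝ] ℝ => L e0) h2
    exact h3
  have e1' : (fderiv ℝ (vel g θ) x e1) 1 = fderiv ℝ (fderiv ℝ (stream g θ)) x e1 e0 := by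
    have h2 := (hdi 1).unique (hc e0)
    have h3 := congrArg (fun L : E →L[ℝ] ℝ => L e1) h2
    exact h3
  have hs : IsSymmSndFDerivAt ℝ (stream g θ) x :=
    hψ.contDiffAt.isSymmSndFDerivAt (by
      rw [minSmoothness_of_isRCLikeNormedField]
      exact WithTop.coe_le_coe.2 le_top)
  rw [e0', e1', hs e1 e0]
  ring

end Pool.Agent.Lib.MP96bed6
end
end

section
/-!
# MP_96bed6_an, module EVN: even smooth functions of the norm are smooth
-/
set_option autoImplicit false

open MeasureTheory Filter Topology Set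
open scoped ENNReal ContDiff NNReal

noncomputable section

namespace Pool.Agent.Lib.MP96bed6

namespace EVNM

theorem hasFDerivAt_norm' {x : E} (hx : x ≠ 0) :
    HasFDerivAt (fun y : E => ‖y‖) (‖x‖⁻¹ • innerSL ℝ x) x := by
  have h1 := (hasStrictFDerivAt_norm_sq x).hasFDerivAt
  have hx' : ‖x‖ ≠ 0 := norm_ne_zero_iff.2 hx
  have h2 := h1.sqrt (by positivity)
  have h3 : (fun y : E => √(‖y‖ ^ 2)) = fun y : E => ‖y‖ := by
    funext y
    exact Real.sqrt_sq (norm_nonneg y)
  rw [h3, Real.sqrt_sq (norm_nonneg x)] at h2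
  have h4 : (1 / (2 * ‖x‖)) • (2 • (innerSL ℝ) x) = ‖x‖⁻¹ • (innerSL ℝ) x := by
    rw [← Nat.cast_smul_eq_nsmul ℝ 2, smul_smul]
    congr 1
    push_cast
    field_simp
  rw [h4] at h2
  exact h2

theorem hasFDerivAt_zero {W : ℝ → ℝ} (h : HasDerivAt W 0 0) :
    HasFDerivAt (fun x : E => W ‖x‖) (0 : E →L[ℝ] ℝ) 0 := by
  rw [hasFDerivAt_iff_isLittleO_nhds_zero]
  have h1 := hasDerivAt_iff_isLittleO_nhds_zero.1 h
  have h2 : Tendsto (fun x : E => ‖x‖) (𝓝 0) (𝓝 0) := by
    have := (continuous_norm (E := E)).tendsto 0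
    simpa using this
  have h3 := h1.comp_tendsto h2
  simp only [Function.comp_def, zero_add, smul_zero, sub_zero] at h3
  have h4 : (fun x : E => W ‖(0 : E) + x‖ - W ‖(0 : E)‖ - (0 : E →L[ℝ] ℝ) x) =
      fun x : E => W ‖x‖ - W 0 := by
    funext x
    simp
  rw [h4]
  exact h3.trans_isBigO (Asymptotics.isBigO_refl _ _).norm_left

end EVNM

theorem specEVN (hHAD : SpecHAD) : SpecEVN := by
  have key : ∀ n : ℕ, ∀ W : ℝ → ℝ, ContDiff ℝ ∞ W → (∀ t, W (-t) = W t) →
      ContDiff ℝ n (fun x : E => W ‖x‖) := by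
    intro n
    induction n with
    | zero =>
      intro W hW _
      exact contDiff_zero.2 (hW.continuous.comp continuous_norm)
    | succ n ih =>
      intro W hW hev
      have hd : ContDiff ℝ ∞ (deriv W) := (contDiff_infty_iff_deriv.1 hW).2
      have hdW : Differentiable ℝ W := (contDiff_infty_iff_deriv.1 hW).1
      have hodd : ∀ t, deriv W (-t) = -deriv W t := by
        intro t
        have h1 : (fun s => W (-s)) = W := funext hev
        have h2 := deriv_comp_neg (f := W) (x := t)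
        rw [h1] at h2
        rw [h2]
        ring
      have h0 : deriv W 0 = 0 := by
        have := hodd 0
        rw [neg_zero] at this
        linarith
      obtain ⟨W₁, hW₁, hW₁e⟩ := hHAD (deriv W) hd h0
      have hev₁ : ∀ t, W₁ (-t) = W₁ t := by
        intro t
        rcases eq_or_ne t 0 with rfl | ht
        · rw [neg_zero]
        · have h1 := hodd t
          rw [hW₁e, hW₁e t] at h1
          have h2 : t * (W₁ (-t) - W₁ t) = 0 := by linarith
          rcases mul_eq_zero.1 h2 with h3 | h3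
          · exact absurd h3 ht
          · linarith
      have hih := ih W₁ hW₁ hev₁
      rw [show ((n + 1 : ℕ) : WithTop ℕ∞) = (n : WithTop ℕ∞) + 1 by push_cast; rfl]
      rw [contDiff_succ_iff_hasFDerivAt]
      refine ⟨fun x => W₁ ‖x‖ • innerSL ℝ x, ?_, ?_⟩
      · exact hih.smul (innerSL ℝ).contDiff
      · intro x
        rcases eq_or_ne x 0 with rfl | hx
        · have h1 : HasDerivAt W 0 0 := by
            have := (hdW 0).hasDerivAt
            rwa [h0] at this
          have h2 := EVNM.hasFDerivAt_zero h1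
          simpa using h2
        · have h1 := (hdW ‖x‖).hasDerivAt.comp_hasFDerivAt x (EVNM.hasFDerivAt_norm' hx)
          have h2 : deriv W ‖x‖ • (‖x‖⁻¹ • innerSL ℝ x) = W₁ ‖x‖ • innerSL ℝ x := by
            rw [hW₁e, smul_smul]
            congr 1
            have hx' : ‖x‖ ≠ 0 := norm_ne_zero_iff.2 hx
            field_simp
          rw [h2] at h1
          exact h1
  intro W hW hev
  rw [contDiff_infty]
  intro n
  exact key n W hW hev

end Pool.Agent.Lib.MP96bed6
end
end

section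
set_option autoImplicit false

open MeasureTheory Filter Topology Set
open scoped ENNReal ContDiff NNReal

noncomputable section

namespace Pool.Agent.Lib.MP96bed6.FLAM

open Pool.Agent.Lib.MP96bed6

/-- `refl` as a linear isometry equivalence. -/
def reflE : E ≃ₗᵢ[ℝ] E where
  toFun := refl
  invFun := refl
  left_inv := by
    intro x
    ext i
    fin_cases i <;> simp [refl]
  right_inv := by
    intro x
    ext i
    fin_cases i <;> simp [refl]
  map_add' := by
    intro x y
    ext i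
    fin_cases i <;> simp [refl, add_comm]
  map_smul' := by
    intro c x
    ext i
    fin_cases i <;> simp [refl]
  norm_map' := by
    intro x
    simp [refl, EuclideanSpace.norm_eq, Fin.sum_univ_two]

lemma reflE_apply (x : E) : reflE x = refl x := rfl

lemma refl_refl (x : E) : refl (refl x) = x := reflE.left_inv x

end Pool.Agent.Lib.MP96bed6.FLAM

namespace Pool.Agent.Lib.MP96bed6

open FLAM

theorem specFLA : SpecFLA := by
  intro α f x
  refine ⟨?_, ?_⟩
  · intro c d
    unfold fracLap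
    rw [← integral_const_mul]
    congr 1
    ext y
    ring
  · unfold fracLap
    have hmp : MeasurePreserving (reflE : E → E) volume volume := reflE.measurePreserving
    have h := hmp.integral_comp reflE.toHomeomorph.measurableEmbedding
      (fun y : E => (f (refl x) - f y) / ‖refl x - y‖ ^ (2 + 2 * α))
    rw [← h]
    congr 1
    ext y
    have h1 : ‖refl x - reflE y‖ = ‖x - y‖ := by
      rw [← reflE_apply, ← map_sub, reflE.norm_map]
    rw [h1, reflE_apply]

end Pool.Agent.Lib.MP96bed6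
end
end

section
set_option autoImplicit false

open MeasureTheory Filter Topology Set
open scoped ENNReal ContDiff NNReal

noncomputable section

namespace Pool.Agent.Lib.MP96bed6

theorem specFLB (hINT : SpecINT) : SpecFLB := by
  intro α h0 h1 F L x hL hF hLip
  obtain ⟨hint, hval⟩ := (hINT α h0 h1).2 L hL
  have hint2 : Integrable (fun y : E => min 1 (L * ‖x - y‖) / ‖x - y‖ ^ (2 + 2 * α)) :=
    hint.comp_sub_left x
  have hval2 : (∫ y : E, min 1 (L * ‖x - y‖) / ‖x - y‖ ^ (2 + 2 * α)) = L ^ (2 * α) * PHI α := by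
    rw [← hval]
    exact integral_sub_left_eq_self (fun z : E => min 1 (L * ‖z‖) / ‖z‖ ^ (2 + 2 * α)) volume x
  rw [← hval2, ← Real.norm_eq_abs]
  unfold fracLap
  refine norm_integral_le_of_norm_le hint2 ?_
  filter_upwards with y
  have hp : 0 ≤ ‖x - y‖ ^ (2 + 2 * α) := Real.rpow_nonneg (norm_nonneg _) _
  rw [Real.norm_eq_abs, abs_div, abs_of_nonneg hp]
  refine div_le_div_of_nonneg_right (le_min ?_ (hLip x y)) hp
  rw [abs_le]
  constructor <;> linarith [(hF x).1, (hF x).2, (hF y).1, (hF y).2]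

end Pool.Agent.Lib.MP96bed6
end
end

section
/-!
# FLC: comparison for the fractional Laplacian
-/
set_option autoImplicit false

open MeasureTheory Filter Topology Set
open scoped ENNReal ContDiff NNReal

noncomputable section

namespace Pool.Agent.Lib.MP96bed6

theorem specFLC (hFLI : SpecFLI) : SpecFLC := by
  intro α hα hα2 f h M x hf hh hfM hhM hfx hhx hle
  refine integral_mono (hFLI α hα hα2 f M x hf hfM hfx) (hFLI α hα hα2 h M x hh hhM hhx) ?_
  intro y
  have h1 : f x - f y ≤ h x - h y := by linarith [hle y]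
  exact div_le_div_of_nonneg_right h1 (Real.rpow_nonneg (norm_nonneg _) _)

end Pool.Agent.Lib.MP96bed6
end
end

section
set_option autoImplicit false

open MeasureTheory Filter Topology Set
open scoped ENNReal ContDiff NNReal

noncomputable section

namespace Pool.Agent.Lib.MP96bed6.FLIM

open Pool.Agent.Lib.MP96bed6

lemma exists_bound {f : E → ℝ} {M : ℝ} {x : E} (hM : ∀ y, |f y| ≤ M) (hd : DifferentiableAt ℝ f x) :
    ∃ K : ℝ, 0 ≤ K ∧ ∀ y, |f x - f y| ≤ K * min 1 ‖x - y‖ := by
  obtain ⟨C, hC, hCb⟩ := hd.hasFDerivAt.isBigO_sub.exists_pos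
  have hev := hCb.bound
  rw [Metric.eventually_nhds_iff] at hev
  obtain ⟨ε, hε, hb⟩ := hev
  have hM0 : 0 ≤ M := (abs_nonneg _).trans (hM x)
  set δ : ℝ := min ε 1 with hδ
  have hδ0 : 0 < δ := lt_min hε one_pos
  refine ⟨max C (2 * M / δ), le_max_of_le_left hC.le, fun y => ?_⟩
  rcases lt_or_ge ‖x - y‖ δ with h | h
  · have h1 : ‖x - y‖ < 1 := h.trans_le (min_le_right _ _)
    have h2 : dist y x < ε := by
      rw [dist_comm, dist_eq_norm]
      exact h.trans_le (min_le_left _ _)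
    have h3 := hb h2
    rw [min_eq_right h1.le]
    have h4 : |f x - f y| ≤ C * ‖x - y‖ := by
      rw [abs_sub_comm, norm_sub_rev x y]
      exact h3
    exact h4.trans (mul_le_mul_of_nonneg_right (le_max_left _ _) (norm_nonneg _))
  · have h1 : δ ≤ min 1 ‖x - y‖ := le_min (min_le_right _ _) h
    have h2 : |f x - f y| ≤ 2 * M := by
      calc |f x - f y| ≤ |f x| + |f y| := abs_sub _ _
        _ ≤ M + M := add_le_add (hM x) (hM y)
        _ = 2 * M := by ring
    calc |f x - f y| ≤ 2 * M := h2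
      _ = 2 * M / δ * δ := by field_simp
      _ ≤ max C (2 * M / δ) * min 1 ‖x - y‖ :=
        mul_le_mul (le_max_right _ _) h1 hδ0.le (le_max_of_le_left hC.le)

end Pool.Agent.Lib.MP96bed6.FLIM

namespace Pool.Agent.Lib.MP96bed6

open FLIM

theorem specFLI (hINT : SpecINT) : SpecFLI := by
  intro α h0 h1 f M x hf hM hd
  obtain ⟨K, hK0, hK⟩ := exists_bound hM hd
  have hint := (hINT α h0 h1).1
  have hint2 : Integrable (fun y : E => min 1 ‖x - y‖ / ‖x - y‖ ^ (2 + 2 * α)) :=
    hint.comp_sub_left x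
  refine (hint2.const_mul K).mono' ?_ ?_
  · have hm : Measurable (fun y : E => (f x - f y) / ‖x - y‖ ^ (2 + 2 * α)) := by
      have hmf : Measurable f := hf.measurable
      fun_prop
    exact hm.aestronglyMeasurable
  · filter_upwards with y
    have hp : 0 ≤ ‖x - y‖ ^ (2 + 2 * α) := Real.rpow_nonneg (norm_nonneg _) _
    rw [Real.norm_eq_abs, abs_div, abs_of_nonneg hp, ← mul_div_assoc]
    exact div_le_div_of_nonneg_right (hK y) hp

end Pool.Agent.Lib.MP96bed6
end
end

section
/-!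
# HAD: Hadamard's lemma
-/
set_option autoImplicit false

open MeasureTheory Filter Topology Set
open scoped ENNReal ContDiff NNReal

noncomputable section

namespace Pool.Agent.Lib.MP96bed6

namespace HADM

/-- `∫₀¹ k(st) s^j ds` -/
def I (k : ℝ → ℝ) (j : ℕ) (t : ℝ) : ℝ := ∫ s in (0 : ℝ)..1, k (s * t) * s ^ j

theorem hasDerivAt_I (k : ℝ → ℝ) (hk : ContDiff ℝ ∞ k) (j : ℕ) (t : ℝ) :
    HasDerivAt (I k j) (I (deriv k) (j + 1) t) t := by
  have hk' : Continuous (deriv k) := (contDiff_infty_iff_deriv.1 hk).2.continuous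
  have hkc : Continuous k := hk.continuous
  obtain ⟨C, hC⟩ := (isCompact_Icc (a := -(|t| + 1)) (b := |t| + 1)).exists_bound_of_continuousOn
    hk'.continuousOn
  refine (intervalIntegral.hasDerivAt_integral_of_dominated_loc_of_deriv_le (μ := volume) (a := 0)
    (b := 1) (F := fun t s => k (s * t) * s ^ j) (F' := fun t s => deriv k (s * t) * s ^ (j + 1))
    (x₀ := t) (s := Metric.ball t 1) (bound := fun _ => C)
    (Metric.ball_mem_nhds t one_pos) ?_ ?_ ?_ ?_ ?_ ?_).2
  · refine Eventually.of_forall (fun x => ?_)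
    exact ((hkc.comp (continuous_id.mul continuous_const)).mul
      (continuous_id.pow j)).aestronglyMeasurable
  · exact ((hkc.comp (continuous_id.mul continuous_const)).mul
      (continuous_id.pow j)).intervalIntegrable 0 1
  · exact ((hk'.comp (continuous_id.mul continuous_const)).mul
      (continuous_id.pow (j + 1))).aestronglyMeasurable
  · refine Eventually.of_forall (fun s hs x hx => ?_)
    rw [uIoc_of_le zero_le_one] at hs
    have hs0 : 0 ≤ s := hs.1.le
    have hs1 : s ≤ 1 := hs.2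
    have hx' : |x| ≤ |t| + 1 := by
      rw [Metric.mem_ball, Real.dist_eq] at hx
      have := abs_sub_abs_le_abs_sub x t
      linarith
    have hsx : |s * x| ≤ |t| + 1 := by
      rw [abs_mul, abs_of_nonneg hs0]
      calc s * |x| ≤ 1 * |x| := mul_le_mul_of_nonneg_right hs1 (abs_nonneg x)
        _ = |x| := one_mul _
        _ ≤ _ := hx'
    have h1 := hC (s * x) ⟨(abs_le.1 hsx).1, (abs_le.1 hsx).2⟩
    have h2 : ‖s ^ (j + 1)‖ ≤ 1 := by
      rw [norm_pow, Real.norm_eq_abs, abs_of_nonneg hs0]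
      exact pow_le_one₀ hs0 hs1
    have hC0 : 0 ≤ C := (norm_nonneg _).trans h1
    rw [norm_mul]
    calc ‖deriv k (s * x)‖ * ‖s ^ (j + 1)‖ ≤ C * 1 :=
          mul_le_mul h1 h2 (norm_nonneg _) hC0
      _ = C := mul_one C
  · exact intervalIntegrable_const
  · refine Eventually.of_forall (fun s _ x _ => ?_)
    have h1 : HasDerivAt k (deriv k (s * x)) (s * x) :=
      ((contDiff_infty_iff_deriv.1 hk).1 (s * x)).hasDerivAt
    have h2 : HasDerivAt (fun y : ℝ => s * y) s x := by
      simpa using (hasDerivAt_id x).const_mul s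
    have h3 : HasDerivAt (fun y : ℝ => k (s * y)) (deriv k (s * x) * s) x :=
      HasDerivAt.comp x h1 h2
    have h4 := h3.mul_const (s ^ j)
    have h5 : deriv k (s * x) * s ^ (j + 1) = deriv k (s * x) * s * s ^ j := by ring
    rw [h5]
    exact h4

theorem contDiff_I (n : ℕ) : ∀ (k : ℝ → ℝ), ContDiff ℝ ∞ k → ∀ j : ℕ,
    ContDiff ℝ n (I k j) := by
  induction n with
  | zero =>
    intro k hk j
    rw [Nat.cast_zero, contDiff_zero]
    have hd : Differentiable ℝ (I k j) := fun t => (hasDerivAt_I k hk j t).differentiableAt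
    exact hd.continuous
  | succ n ih =>
    intro k hk j
    rw [Nat.cast_succ, contDiff_succ_iff_deriv]
    refine ⟨fun t => (hasDerivAt_I k hk j t).differentiableAt, ?_, ?_⟩
    · intro h
      exact absurd h (by simp)
    · have h1 : deriv (I k j) = I (deriv k) (j + 1) := by
        funext t
        exact (hasDerivAt_I k hk j t).deriv
      rw [h1]
      exact ih (deriv k) (contDiff_infty_iff_deriv.1 hk).2 (j + 1)

end HADM

theorem specHAD : SpecHAD := by
  intro h hh h0
  have hd := contDiff_infty_iff_deriv.1 hh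
  refine ⟨HADM.I (deriv h) 0, contDiff_infty.2 (fun n => HADM.contDiff_I n _ hd.2 0), ?_⟩
  intro t
  have h1 : ∀ s ∈ uIcc (0 : ℝ) 1, HasDerivAt (fun s : ℝ => h (s * t)) (deriv h (s * t) * t) s := by
    intro s _
    have h1 : HasDerivAt h (deriv h (s * t)) (s * t) := (hd.1 (s * t)).hasDerivAt
    have h2 : HasDerivAt (fun y : ℝ => y * t) t s := by
      simpa using (hasDerivAt_id s).mul_const t
    exact HasDerivAt.comp s h1 h2
  have h2 : IntervalIntegrable (fun s : ℝ => deriv h (s * t) * t) volume 0 1 :=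
    ((hd.2.continuous.comp (continuous_id.mul continuous_const)).mul
      continuous_const).intervalIntegrable 0 1
  have h3 := intervalIntegral.integral_eq_sub_of_hasDerivAt h1 h2
  rw [one_mul, zero_mul, h0, sub_zero, intervalIntegral.integral_mul_const] at h3
  rw [← h3, HADM.I]
  simp only [pow_zero, mul_one]
  ring

end Pool.Agent.Lib.MP96bed6
end
end

section
/-!
# MP_96bed6_an, module INQ: the transport inequality for the barrier
-/
set_option autoImplicit false

open MeasureTheory Filter Topology Set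
open scoped ENNReal ContDiff NNReal

noncomputable section

namespace Pool.Agent.Lib.MP96bed6

namespace INQM

/-- The square of the norm. -/
lemma nsq (x : E) : ‖x‖ ^ 2 = x 0 ^ 2 + x 1 ^ 2 := by
  rw [EuclideanSpace.norm_eq, Real.sq_sqrt (by positivity)]
  simp [Fin.sum_univ_two]

lemma abs_coord (x : E) (i : Fin 2) : |x i| ≤ ‖x‖ := by
  have h := nsq x
  apply abs_le_of_sq_le_sq _ (norm_nonneg x) 
  rw [h]
  fin_cases i
  · simp; positivity
  · simp; positivity

lemma U0 (C D : ℝ) (x : E) : (U C D x) 0 = -(x 0 * (C * x 0 ^ 2 + D * x 1 ^ 2)) / ‖x‖ ^ 3 := by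
  simp [U]

lemma U1 (C D : ℝ) (x : E) : (U C D x) 1 = x 1 * (C * x 1 ^ 2 + D * x 0 ^ 2) / ‖x‖ ^ 3 := by
  simp [U]

lemma v0 (C D M : ℝ) (x w : E) : (M • U C D x + w) 0 = M * (U C D x) 0 + w 0 := by
  simp

lemma v1 (C D M : ℝ) (x w : E) : (M • U C D x + w) 1 = M * (U C D x) 1 + w 1 := by
  simp

/-- Lagrange: the determinant of two plane vectors. -/
lemma det_le (x w : E) : |w 1 * x 0 - w 0 * x 1| ≤ ‖w‖ * ‖x‖ := by
  apply abs_le_of_sq_le_sq _ (by positivity)
  rw [mul_pow, nsq, nsq]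
  nlinarith [sq_nonneg (w 0 * x 0 + w 1 * x 1)]

/-- Second bracket, pure real form. -/
lemma term2 (M m K C D η R ρ z : ℝ) (hM : 0 < M) (hm : 0 < m) (hK : 0 ≤ K) (hC : |C| ≤ 2 * m)
    (hD : |D| ≤ K) (hη0 : 1 / 3 ≤ η) (hη1 : η ≤ 1 / 2) (hR : 0 < R) (hρ : ρ ≤ 5 / 4)
    (hz : |z| ≤ η * (m / 10 * M) * (ρ * R))
    (hcase : 3 / 2 * m ≤ C + D ∨ R ≤ 10) :
    -8 * (7 * M * (2 * m + K)) - 16 * M * η ^ 2 * (C + D) * R - 16 * z ≤ 0 := by
  have hz1 : -z ≤ η * (m / 10 * M) * (5 / 4 * R) := by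
    have h1 : -z ≤ |z| := neg_le_abs z
    have h2 : η * (m / 10 * M) * (ρ * R) ≤ η * (m / 10 * M) * (5 / 4 * R) := by
      apply mul_le_mul_of_nonneg_left _ (by positivity)
      exact mul_le_mul_of_nonneg_right hρ hR.le
    linarith
  have hN : 0 ≤ M * (2 * m + K) := by positivity
  rcases hcase with hg | hb
  · have h3 : η * (1 / 2 * m) ≤ η ^ 2 * (C + D) := by
      have : η * (1 / 3) * (3 / 2 * m) ≤ η * η * (C + D) := by
        apply mul_le_mul _ hg (by positivity) (by positivity)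
        exact mul_le_mul_of_nonneg_left hη0 (by positivity)
      nlinarith
    have h4 : M * R * (η * (1 / 2 * m)) ≤ M * R * (η ^ 2 * (C + D)) :=
      mul_le_mul_of_nonneg_left h3 (by positivity)
    have h5 : 0 ≤ M * R * η * m := by positivity
    nlinarith
  · have hCD : |C + D| ≤ 2 * m + K := (abs_add_le C D).trans (add_le_add hC hD)
    have h6 : -(C + D) ≤ 2 * m + K := (neg_le_abs _).trans hCD
    have h7 : M * η ^ 2 * R * (-(C + D)) ≤ M * η ^ 2 * R * (2 * m + K) :=
      mul_le_mul_of_nonneg_left h6 (by positivity)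
    have hη2 : η ^ 2 ≤ 1 / 4 := by nlinarith
    have h8 : M * η ^ 2 * R * (2 * m + K) ≤ M * (1 / 4) * 10 * (2 * m + K) := by
      apply mul_le_mul_of_nonneg_right _ (by positivity)
      apply mul_le_mul _ hb hR.le (by positivity)
      exact mul_le_mul_of_nonneg_left hη2 hM.le
    have h9 : η * (m / 10 * M) * (5 / 4 * R) ≤ 1 / 2 * (m / 10 * M) * (5 / 4 * 10) := by
      apply mul_le_mul _ _ (by positivity) (by positivity)
      · exact mul_le_mul_of_nonneg_right hη1 (by positivity)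
      · exact mul_le_mul_of_nonneg_left hb (by norm_num)
    nlinarith [mul_pos hM hm, mul_nonneg hM.le hK]

end INQM

open INQM

/-- INQ. -/
theorem specINQ (hSTP : SpecSTP) : SpecINQ := by
  intro l p q m K M C D x w hl hp hp2 hlp hq hq2 hm hK hM hC hD hw hgood hlx hx2
  obtain ⟨-, hS01, -, -, -, hS'0, hS'1, -⟩ := hSTP
  have hN0 := v0 C D M x w
  have hN1 := v1 C D M x w
  rw [U0] at hN0
  rw [U1] at hN1
  have hw0 := (abs_coord w 0).trans hw
  have hdet := det_le x w
  have hr2 := nsq x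
  unfold barT barX
  generalize (M • U C D x + w) 0 = V0 at *
  generalize (M • U C D x + w) 1 = V1 at *
  have hr0 : 0 ≤ ‖x‖ := norm_nonneg x
  generalize ‖x‖ = r at *
  generalize x 0 = a at *
  generalize x 1 = b at *
  have ha : 0 < a := hl.trans hlx
  have hb2 : b ^ 2 / a ^ 2 < 1 / 4 := by linarith
  have hb3 : b ^ 2 < a ^ 2 / 4 := by
    rw [div_lt_iff₀ (by positivity)] at hb2
    linarith
  have hr : 0 < r := by
    rcases hr0.lt_or_eq with h | h
    · exact h
    · exfalso
      rw [← h] at hr2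
      nlinarith
  have har : a ≤ r := by nlinarith
  have hra : r ≤ 1.12 * a := by
    apply le_of_sq_le_sq _ (by positivity)
    nlinarith
  -- first bracket
  have hB1 : deriv S (a / l - 1) ≠ 0 → a * (M * m / 4) / l + V0 ≤ 0 := by
    intro hne
    have h12 := (hS'1 _ hne).2
    have hal : a < 2 * l := by
      have : a / l < 2 := by linarith
      rwa [div_lt_iff₀ hl] at this
    have hgr := hgood (by linarith) (by nlinarith)
    obtain ⟨hD2, hCD⟩ := hgr
    have h1 : a * (M * m / 4) / l ≤ M * m / 2 := by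
      rw [div_le_iff₀ hl]
      nlinarith [mul_pos hM hm]
    have hc : 0 < C - |D| := by linarith
    have h2 : 3 / 2 * m * a ^ 2 ≤ C * a ^ 2 + D * b ^ 2 := by
      have h3 : -|D| * b ^ 2 ≤ D * b ^ 2 := mul_le_mul_of_nonneg_right (neg_abs_le D) (sq_nonneg b)
      have h4 : |D| * b ^ 2 ≤ |D| * a ^ 2 := mul_le_mul_of_nonneg_left (by linarith [sq_nonneg a]) (abs_nonneg D)
      nlinarith [sq_nonneg a]
    have h5 : r ^ 3 ≤ 3 / 2 * a ^ 3 := by
      have : r ^ 3 ≤ (1.12 * a) ^ 3 := pow_le_pow_left₀ hr.le hra 3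
      nlinarith [pow_pos ha 3]
    have h6 : m * r ^ 3 ≤ a * (C * a ^ 2 + D * b ^ 2) := by
      calc m * r ^ 3 ≤ m * (3 / 2 * a ^ 3) := mul_le_mul_of_nonneg_left h5 hm.le
        _ = a * (3 / 2 * m * a ^ 2) := by ring
        _ ≤ a * (C * a ^ 2 + D * b ^ 2) := mul_le_mul_of_nonneg_left h2 ha.le
    have h7 : -(a * (C * a ^ 2 + D * b ^ 2)) / r ^ 3 ≤ -m := by
      rw [div_le_iff₀ (by positivity)]
      linarith
    have h8 : M * (-(a * (C * a ^ 2 + D * b ^ 2)) / r ^ 3) ≤ M * (-m) := mul_le_mul_of_nonneg_left h7 hM.le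
    have h9 : w 0 ≤ m / 10 * M := (le_abs_self _).trans hw0
    rw [hN0]
    nlinarith [mul_pos hM hm]
  -- second bracket
  have hB2 : deriv S (2 - 8 * (b ^ 2 / a ^ 2) - 8 * q) ≠ 0 →
      -8 * (7 * M * (2 * m + K)) + -16 * (b / a) * ((V1 * a - V0 * b) / a ^ 2) ≤ 0 := by
    intro hne
    obtain ⟨h0, h1⟩ := hS'1 _ hne
    have hH : 1 / 9 ≤ b ^ 2 / a ^ 2 := by linarith
    have hη2 : |b / a| ^ 2 = b ^ 2 / a ^ 2 := by rw [sq_abs, div_pow]
    have hη0 : 1 / 3 ≤ |b / a| := by
      apply le_of_sq_le_sq _ (abs_nonneg _)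
      rw [hη2]; linarith
    have hη1 : |b / a| ≤ 1 / 2 := by
      apply le_of_sq_le_sq _ (by norm_num)
      rw [hη2]; linarith
    have e1 : -16 * (b / a) * ((V1 * a - V0 * b) / a ^ 2)
        = - 16 * M * |b / a| ^ 2 * (C + D) * (1 / r) - 16 * ((b / a) * ((w 1 * a - w 0 * b) / a ^ 2)) := by
      rw [hη2, hN0, hN1]
      have : (a ^ 2 + b ^ 2) / r ^ 3 = 1 / r := by
        rw [← hr2]; field_simp
      rw [← this]
      field_simp
      ring
    have hz : |(b / a) * ((w 1 * a - w 0 * b) / a ^ 2)| ≤ |b / a| * (m / 10 * M) * (r ^ 2 / a ^ 2 * (1 / r)) := by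
      rw [abs_mul, abs_div (w 1 * a - w 0 * b), abs_of_pos (pow_pos ha 2), mul_assoc]
      apply mul_le_mul_of_nonneg_left _ (abs_nonneg _)
      have : m / 10 * M * (r ^ 2 / a ^ 2 * (1 / r)) = (m / 10 * M * r) / a ^ 2 := by
        field_simp
      rw [this]
      apply div_le_div_of_nonneg_right _ (by positivity)
      exact hdet.trans (mul_le_mul_of_nonneg_right hw hr.le)
    have hρ : r ^ 2 / a ^ 2 ≤ 5 / 4 := by
      rw [div_le_iff₀ (by positivity)]
      linarith
    have hcase : 3 / 2 * m ≤ C + D ∨ 1 / r ≤ 10 := by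
      by_cases hg : 5 * r + p ≤ 1
      · left
        have := (hgood (by linarith) hg).2
        linarith [neg_abs_le D]
      · right
        rw [div_le_iff₀ hr]
        linarith
    have := term2 M m K C D |b / a| (1 / r) (r ^ 2 / a ^ 2) _ hM hm hK hC hD hη0 hη1 (by positivity) hρ hz hcase
    rw [e1]
    linarith
  -- third bracket
  have hB3 : -(2 * M * (2 * m + K)) - V0 ≤ 0 := by
    have h1 : |(a * (C * a ^ 2 + D * b ^ 2)) / r ^ 3| ≤ 2 * m + K := by
      rw [abs_div, abs_of_pos (pow_pos hr 3), div_le_iff₀ (by positivity), abs_mul, abs_of_pos ha]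
      have h2 : |C * a ^ 2 + D * b ^ 2| ≤ (2 * m + K) * r ^ 2 := by
        calc |C * a ^ 2 + D * b ^ 2| ≤ |C * a ^ 2| + |D * b ^ 2| := abs_add_le _ _
          _ = |C| * a ^ 2 + |D| * b ^ 2 := by
              rw [abs_mul, abs_mul, abs_of_nonneg (sq_nonneg a), abs_of_nonneg (sq_nonneg b)]
          _ ≤ (2 * m) * a ^ 2 + K * b ^ 2 := by gcongr
          _ ≤ (2 * m + K) * r ^ 2 := by rw [hr2]; nlinarith [sq_nonneg a, sq_nonneg b, mul_nonneg hK (sq_nonneg a), mul_nonneg hm.le (sq_nonneg b)]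
      calc a * |C * a ^ 2 + D * b ^ 2| ≤ r * ((2 * m + K) * r ^ 2) := by gcongr
        _ = (2 * m + K) * r ^ 3 := by ring
    have h3 := (le_abs_self _).trans h1
    have h4 : M * ((a * (C * a ^ 2 + D * b ^ 2)) / r ^ 3) ≤ M * (2 * m + K) := mul_le_mul_of_nonneg_left h3 hM.le
    have h5 : -(m / 10 * M) ≤ w 0 := (abs_le.mp hw0).1
    rw [hN0, neg_div]
    nlinarith [mul_pos hM hm, mul_nonneg hM.le hK]
  have hA1 := hS'0 (a / l - 1)
  have hA2 := hS'0 (2 - 8 * (b ^ 2 / a ^ 2) - 8 * q)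
  have hA3 := hS'0 (2 - a - p)
  have hS1 := (hS01 (a / l - 1)).1
  have hS2 := (hS01 (2 - 8 * (b ^ 2 / a ^ 2) - 8 * q)).1
  have hS3 := (hS01 (2 - a - p)).1
  generalize deriv S (a / l - 1) = d1 at *
  generalize deriv S (2 - 8 * (b ^ 2 / a ^ 2) - 8 * q) = d2 at *
  generalize deriv S (2 - a - p) = d3 at *
  generalize S (a / l - 1) = s1 at *
  generalize S (2 - 8 * (b ^ 2 / a ^ 2) - 8 * q) = s2 at *
  generalize S (2 - a - p) = s3 at *
  have hT1 : d1 * s2 * s3 * ((a * (M * m / 4) / l + V0) / l) ≤ 0 := by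
    by_cases h : d1 = 0
    · rw [h]; simp
    · exact mul_nonpos_of_nonneg_of_nonpos (by positivity) (div_nonpos_of_nonpos_of_nonneg (hB1 h) hl.le)
  have hT2 : s1 * d2 * s3 * (-8 * (7 * M * (2 * m + K)) + -16 * (b / a) * ((V1 * a - V0 * b) / a ^ 2)) ≤ 0 := by
    by_cases h : d2 = 0
    · rw [h]; simp
    · exact mul_nonpos_of_nonneg_of_nonpos (by positivity) (hB2 h)
  have hT3 : s1 * s2 * d3 * (-(2 * M * (2 * m + K)) - V0) ≤ 0 :=
    mul_nonpos_of_nonneg_of_nonpos (by positivity) hB3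
  have e : a * (M * m / 4) / l ^ 2 + V0 / l = (a * (M * m / 4) / l + V0) / l := by
    field_simp
  have e' : d1 * s2 * s3 * ((a * (M * m / 4) / l + V0) / l)
      = d1 * s2 * s3 * (a * (M * m / 4) / l ^ 2) + d1 * s2 * s3 * (V0 / l) := by
    rw [← e]; ring
  rw [e'] at hT1
  linarith

end Pool.Agent.Lib.MP96bed6
end
end

section
/-!
# MP_96bed6_an, module INT: integrability of the kernel of the fractional Laplacian
-/
set_option autoImplicit false

open MeasureTheory Filter Topology Set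
open scoped ENNReal ContDiff NNReal

noncomputable section

namespace Pool.Agent.Lib.MP96bed6

namespace INTM

lemma radial (α : ℝ) (h0 : 0 < α) (h1 : α < 1 / 2) :
    IntegrableOn (fun y : ℝ => y ^ (2 - 1) • (min 1 y / y ^ (2 + 2 * α))) (Ioi 0) := by
  have hsplit : (Ioi (0:ℝ)) = Ioo 0 1 ∪ Ici 1 := by
    ext y; simp only [mem_Ioi, mem_union, mem_Ioo, mem_Ici]
    constructor
    · intro h; rcases lt_or_ge y 1 with h' | h'
      · exact Or.inl ⟨h, h'⟩
      · exact Or.inr h'
    · rintro (h | h)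
      · exact h.1
      · linarith
  rw [hsplit, integrableOn_union]
  constructor
  · have h2 : IntegrableOn (fun y : ℝ => y ^ (-(2 * α))) (Ioo 0 1) := by
      rw [intervalIntegral.integrableOn_Ioo_rpow_iff zero_lt_one]; linarith
    apply h2.congr_fun _ measurableSet_Ioo
    intro y hy
    have hy0 : 0 < y := hy.1
    simp only [smul_eq_mul, min_eq_right hy.2.le]
    rw [show (2 - 1 : ℕ) = 1 from rfl, pow_one, eq_comm]
    rw [Real.rpow_add hy0, Real.rpow_neg hy0.le]
    have : y ^ (2:ℝ) = y * y := by rw [Real.rpow_two, sq]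
    rw [this]
    have h3 : 0 < y ^ (2 * α) := Real.rpow_pos_of_pos hy0 _
    field_simp
  · have h2 : IntegrableOn (fun y : ℝ => y ^ (-1 - 2 * α)) (Ici 1) := by
      rw [integrableOn_Ici_iff_integrableOn_Ioi]
      exact integrableOn_Ioi_rpow_of_lt (by linarith) zero_lt_one
    apply h2.congr_fun _ measurableSet_Ici
    intro y hy
    have hy1 : (1:ℝ) ≤ y := hy
    have hy0 : 0 < y := by linarith
    simp only [smul_eq_mul, min_eq_left hy1]
    rw [show (2 - 1 : ℕ) = 1 from rfl, pow_one, eq_comm]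
    rw [show (-1 - 2 * α : ℝ) = 1 - (2 + 2 * α) by ring, Real.rpow_sub hy0, Real.rpow_one]
    ring

lemma integ (α : ℝ) (h0 : 0 < α) (h1 : α < 1 / 2) :
    Integrable (fun z : E => min 1 ‖z‖ / ‖z‖ ^ (2 + 2 * α)) := by
  have h := (integrable_fun_norm_addHaar (volume : Measure E) (f := fun y : ℝ => min 1 y / y ^ (2 + 2 * α))).2
  apply h
  have : Module.finrank ℝ E = 2 := by simp
  rw [this]
  exact radial α h0 h1

lemma scale (α L : ℝ) (hL : 0 < L) (z : E) :
    min 1 (L * ‖z‖) / ‖z‖ ^ (2 + 2 * α) = L ^ (2 + 2 * α) * (min 1 ‖L • z‖ / ‖L • z‖ ^ (2 + 2 * α)) := by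
  rw [norm_smul, Real.norm_eq_abs, abs_of_pos hL, Real.mul_rpow hL.le (norm_nonneg z)]
  have : 0 < L ^ (2 + 2 * α) := Real.rpow_pos_of_pos hL _
  rcases eq_or_ne (‖z‖ ^ (2 + 2 * α)) 0 with h | h
  · rw [h]; simp
  · field_simp

end INTM

open INTM

/-- INT. -/
theorem specINT : SpecINT := by
  intro α h0 h1
  refine ⟨integ α h0 h1, fun L hL => ⟨?_, ?_⟩⟩
  · have h := ((integrable_comp_smul_iff (volume : Measure E)
      (fun z : E => min 1 ‖z‖ / ‖z‖ ^ (2 + 2 * α)) hL.ne').2 (integ α h0 h1)).const_mul (L ^ (2 + 2 * α))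
    refine h.congr (Filter.Eventually.of_forall fun z => ?_)
    exact (scale α L hL z).symm
  · have h2 : ∀ z : E, min 1 (L * ‖z‖) / ‖z‖ ^ (2 + 2 * α)
        = L ^ (2 + 2 * α) * (min 1 ‖L • z‖ / ‖L • z‖ ^ (2 + 2 * α)) := scale α L hL
    simp_rw [h2]
    rw [integral_const_mul,
      Measure.integral_comp_smul (volume : Measure E) (fun z : E => min 1 ‖z‖ / ‖z‖ ^ (2 + 2 * α)) L]
    have h3 : Module.finrank ℝ E = 2 := by simp
    rw [h3, abs_of_pos (by positivity), smul_eq_mul, ← mul_assoc]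
    unfold PHI
    congr 1
    rw [Real.rpow_add hL, Real.rpow_two]
    field_simp

end Pool.Agent.Lib.MP96bed6
end
end

section
/-! # MP_96bed6_an, module LIFT -/
set_option autoImplicit false

open MeasureTheory Filter Topology Set
open scoped ENNReal ContDiff NNReal

noncomputable section

namespace Pool.Agent.Lib.MP96bed6

namespace LIFTM

@[simp] lemma refl_zero_apply (x : E) : (refl x) 0 = -(x 0) := by simp [refl]

@[simp] lemma refl_one_apply (x : E) : (refl x) 1 = x 1 := by simp [refl]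

lemma E_ext {x y : E} (h0 : x 0 = y 0) (h1 : x 1 = y 1) : x = y := by
  ext i
  fin_cases i
  · exact h0
  · exact h1

lemma norm_refl (x : E) : ‖refl x‖ = ‖x‖ := by
  rw [EuclideanSpace.norm_eq, EuclideanSpace.norm_eq]
  simp [Fin.sum_univ_two]

lemma refl_refl (x : E) : refl (refl x) = x := by
  apply E_ext <;> simp

lemma refl_add (x y : E) : refl (x + y) = refl x + refl y := by
  apply E_ext
  · simp; ring
  · simp

lemma refl_smul (c : ℝ) (x : E) : refl (c • x) = c • refl x := by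
  apply E_ext <;> simp

/-- `refl` as a continuous linear map. -/
def reflL : E →L[ℝ] E :=
  LinearMap.toContinuousLinearMap
    { toFun := refl
      map_add' := refl_add
      map_smul' := fun c x => by simpa using refl_smul c x }

@[simp] lemma reflL_apply (x : E) : reflL x = refl x := rfl

lemma continuous_refl : Continuous refl := reflL.continuous

lemma refl_zero : refl 0 = 0 := by
  have := reflL.map_zero
  simpa using this

lemma refl_ne_zero {x : E} (hx : x ≠ 0) : refl x ≠ 0 := by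
  intro h
  apply hx
  have := congrArg refl h
  rwa [refl_refl, refl_zero] at this

lemma U_refl (C D : ℝ) (x : E) : U C D (refl x) = refl (U C D x) := by
  apply E_ext
  · simp [U, norm_refl]; ring
  · simp [U, norm_refl]

lemma U_smul (M C D : ℝ) (x : E) : M • U C D x = U (M * C) (M * D) x := by
  apply E_ext
  · simp [U]; ring
  · simp [U]; ring

lemma vel_refl (hVEL : SpecVEL) {g θ : E → ℝ} (hg : IsSampler g) (hθ : Continuous θ) (x : E) :
    vel g θ (refl x) = refl (vel g θ x) := by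
  obtain ⟨h0, h1⟩ := hVEL g θ hg hθ
  by_cases hx : x = 0
  · subst hx
    rw [refl_zero, h0, refl_zero]
  · rw [h1 x hx, h1 (refl x) (refl_ne_zero hx), norm_refl, U_refl]

lemma samp_scale (f η : E → ℝ) (M : ℝ) (r : ℝ) (ζ : E → ℝ) (h : ∀ x, η x = M * ζ x) :
    samp f η r = M * samp f ζ r := by
  unfold samp
  rw [← integral_const_mul]
  congr 1
  ext z
  rw [h]
  ring

end LIFTM

open LIFTM in
theorem specLIFT (hVEL : SpecVEL) (hSYM : SpecSYM) (hFLA : SpecFLA) : SpecLIFT := by
  intro α κ τ M g w θ₀ θ hg hM hτ hw hs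
  have hM' : M ≠ 0 := hM.ne'
  have hcont : ∀ t ∈ Ioo (0 : ℝ) τ, Continuous (θ t) := by
    intro t ht
    have h1 : Continuous (fun x : E => ((t, x) : ℝ × E)) := by fun_prop
    exact hs.cont.comp_continuous h1 (fun x => ⟨⟨ht.1.le, ht.2.le⟩, mem_univ _⟩)
  set Θ0 : ℝ → E → ℝ := fun t x => -(θ t x) / M with hΘ0
  set Θ1 : ℝ → E → ℝ := fun t x => θ t (refl x) / M with hΘ1
  set v0 : ℝ → E → E := fun t x => vel g (θ t) x + w t x with hv0
  set v1 : ℝ → E → E := fun t x => vel g (θ t) x + refl (w t (refl x)) with hv1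
  have L0 : IsLin α κ τ v0 Θ0 := by
    refine ⟨?_, ?_, ?_, ?_, ?_⟩
    · exact (hs.cont.neg).div_const M
    · intro η hη
      obtain ⟨R, hR⟩ := hs.decay (η * M) (mul_pos hη hM)
      refine ⟨R, fun t ht x hx => ?_⟩
      have := hR t ht x hx
      rw [hΘ0]
      simp only
      rw [abs_div, abs_neg, abs_of_pos hM, div_le_iff₀ hM]
      exact this
    · intro t ht x
      exact ((hs.dt t ht x).neg).div_const M
    · intro t ht x
      have h2 : (Θ0 t) = fun y => θ t y * (-(1 / M)) := by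
        ext s; rw [hΘ0]; simp only; ring
      rw [h2]
      exact (hs.dx t ht x).mul_const _
    · intro t ht x
      have e := hs.eqn t ht x
      have d1 : deriv (fun s => Θ0 s x) t = -(1 / M) * deriv (fun s => θ s x) t := by
        have h := (hs.dt t ht x).hasDerivAt.const_mul (-(1 / M))
        have h2 : (fun s => Θ0 s x) = fun s => -(1 / M) * θ s x := by
          ext s; rw [hΘ0]; simp only; ring
        rw [h2]
        exact h.deriv
      have d2 : fderiv ℝ (Θ0 t) x = (-(1 / M)) • fderiv ℝ (θ t) x := by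
        have h := (hs.dx t ht x).hasFDerivAt.const_smul (-(1 / M))
        have h2 : (Θ0 t) = fun y => (-(1 / M)) • θ t y := by
          ext s; rw [hΘ0]; simp only [smul_eq_mul]; ring
        rw [h2]
        exact h.fderiv
      have d3 : fracLap α (Θ0 t) x = -(1 / M) * fracLap α (θ t) x := by
        have h := (hFLA α (θ t) x).1 (-(1 / M)) 0
        have h2 : (Θ0 t) = fun y => (-(1 / M)) * θ t y + 0 := by
          ext s; rw [hΘ0]; simp only; ring
        rw [h2]
        exact h
      rw [d1, d2, d3]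
      rw [smul_apply, smul_eq_mul]
      linear_combination (-(1 / M)) * e
  have L1 : IsLin α κ τ v1 Θ1 := by
    refine ⟨?_, ?_, ?_, ?_, ?_⟩
    · have h1 : ContinuousOn (fun p : ℝ × E => ((p.1, refl p.2) : ℝ × E)) (Icc 0 τ ×ˢ univ) := by
        refine (Continuous.prodMk continuous_fst (continuous_refl.comp continuous_snd)).continuousOn
      have h2 : MapsTo (fun p : ℝ × E => ((p.1, refl p.2) : ℝ × E)) (Icc 0 τ ×ˢ univ) (Icc 0 τ ×ˢ univ) := by
        intro p hp
        exact ⟨hp.1, mem_univ _⟩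
      exact (hs.cont.comp h1 h2).div_const M
    · intro η hη
      obtain ⟨R, hR⟩ := hs.decay (η * M) (mul_pos hη hM)
      refine ⟨R, fun t ht x hx => ?_⟩
      have := hR t ht (refl x) (by rwa [norm_refl])
      rw [hΘ1]
      simp only
      rw [abs_div, abs_of_pos hM, div_le_iff₀ hM]
      exact this
    · intro t ht x
      exact (hs.dt t ht (refl x)).div_const M
    · intro t ht x
      have h := (hs.dx t ht (refl x))
      have h2 : DifferentiableAt ℝ (fun y => θ t (refl y)) x := by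
        have h3 : DifferentiableAt ℝ (fun y : E => reflL y) x := reflL.differentiableAt
        exact DifferentiableAt.comp (g := θ t) x h h3
      have h4 : (Θ1 t) = fun y => θ t (refl y) * (1 / M) := by
        ext s; rw [hΘ1]; simp only; ring
      rw [h4]
      exact h2.mul_const _
    · intro t ht x
      have e := hs.eqn t ht (refl x)
      have d1 : deriv (fun s => Θ1 s x) t = (1 / M) * deriv (fun s => θ s (refl x)) t := by
        have h := (hs.dt t ht (refl x)).hasDerivAt.const_mul (1 / M)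
        have h2 : (fun s => Θ1 s x) = fun s => (1 / M) * θ s (refl x) := by
          ext s; rw [hΘ1]; simp only; ring
        rw [h2]
        exact h.deriv
      have d2 : fderiv ℝ (Θ1 t) x = (1 / M) • (fderiv ℝ (θ t) (refl x)).comp reflL := by
        have h0 : HasFDerivAt (fun y : E => reflL y) reflL x := reflL.hasFDerivAt
        have h1 : HasFDerivAt (θ t) (fderiv ℝ (θ t) (refl x)) ((fun y : E => reflL y) x) :=
          (hs.dx t ht (refl x)).hasFDerivAt
        have h := (h1.comp x h0).const_smul (1 / M)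
        have h2 : (Θ1 t) = fun y => (1 / M) • ((θ t) ∘ (fun y : E => reflL y)) y := by
          ext s; rw [hΘ1]; simp only [smul_eq_mul, Function.comp, reflL_apply]; ring
        rw [h2]
        exact h.fderiv
      have d3 : fracLap α (Θ1 t) x = (1 / M) * fracLap α (θ t) (refl x) := by
        have h := (hFLA α (fun y => θ t (refl y)) x).1 (1 / M) 0
        have h2 : (Θ1 t) = fun y => (1 / M) * θ t (refl y) + 0 := by
          ext s; rw [hΘ1]; simp only; ring
        rw [h2, h, (hFLA α (θ t) x).2]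
      have hv : refl (v1 t x) = vel g (θ t) (refl x) + w t (refl x) := by
        rw [hv1]
        simp only
        rw [refl_add, refl_refl, vel_refl hVEL hg (hcont t ht)]
      rw [d1, d2, d3]
      rw [smul_apply, smul_eq_mul, ContinuousLinearMap.comp_apply, reflL_apply, hv]
      linear_combination (1 / M) * e
  have hv_eq : ∀ t ∈ Ioo 0 τ, ∀ x : E, x ≠ 0 → vel g (θ t) x =
      M • U (samp g (Θ0 t) ‖x‖ + samp g (Θ1 t) ‖x‖) (samp (gp g) (Θ0 t) ‖x‖ + samp (gp g) (Θ1 t) ‖x‖) x := by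
    intro t ht x hx
    obtain ⟨-, h1⟩ := hVEL g (θ t) hg (hcont t ht)
    obtain ⟨s1, s2⟩ := hSYM g (θ t) hg (hcont t ht) ‖x‖
    have a0 : ∀ y, (fun x => -θ t x) y = M * Θ0 t y := by
      intro y; rw [hΘ0]; simp only; field_simp
    have a1 : ∀ y, (fun x => θ t (refl x)) y = M * Θ1 t y := by
      intro y; rw [hΘ1]; simp only; field_simp
    rw [h1 x hx, s1, s2, U_smul]
    rw [samp_scale g _ M ‖x‖ (Θ0 t) a0, samp_scale g _ M ‖x‖ (Θ1 t) a1,
      samp_scale (gp g) _ M ‖x‖ (Θ0 t) a0, samp_scale (gp g) _ M ‖x‖ (Θ1 t) a1]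
    rw [← mul_add, ← mul_add]
  refine ⟨![v0, v1], ![Θ0, Θ1], fun t x => rfl, fun t x => rfl, ?_, ?_⟩
  · intro i
    fin_cases i
    · exact L0
    · exact L1
  · intro i t ht x hx
    fin_cases i
    · refine ⟨w t x, hw t x, ?_⟩
      show v0 t x = M • U (samp g (Θ0 t) ‖x‖ + samp g (Θ1 t) ‖x‖)
        (samp (gp g) (Θ0 t) ‖x‖ + samp (gp g) (Θ1 t) ‖x‖) x + w t x
      rw [← hv_eq t ht x hx]
    · refine ⟨refl (w t (refl x)), ?_, ?_⟩
      · rw [norm_refl]; exact hw t (refl x)
      show v1 t x = M • U (samp g (Θ0 t) ‖x‖ + samp g (Θ1 t) ‖x‖)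
        (samp (gp g) (Θ0 t) ‖x‖ + samp (gp g) (Θ1 t) ‖x‖) x + refl (w t (refl x))
      rw [← hv_eq t ht x hx]

end Pool.Agent.Lib.MP96bed6
end
end

section
/-! # LIN: the operator is linear -/
set_option autoImplicit false

open MeasureTheory Filter Topology Set
open scoped ENNReal ContDiff NNReal

noncomputable section

namespace Pool.Agent.Lib.MP96bed6

namespace LINM

theorem samp_lin {f θ η : E → ℝ} (hf : Continuous f) (hc : HasCompactSupport f)
    (hθ : Continuous θ) (hη : Continuous η) (a b r : ℝ) :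
    samp f (fun y => a * θ y + b * η y) r = a * samp f θ r + b * samp f η r := by
  have hi : ∀ F : E → ℝ, Continuous F → Integrable (fun z => F (r • z) * f z) volume := by
    intro F hF
    exact ((hF.comp (continuous_const_smul r)).mul hf).integrable_of_hasCompactSupport hc.mul_left
  unfold samp
  rw [← integral_const_mul, ← integral_const_mul, ← integral_add ((hi θ hθ).const_mul a)
    ((hi η hη).const_mul b)]
  refine integral_congr_ae (Eventually.of_forall fun z => ?_)
  change (a * θ (r • z) + b * η (r • z)) * f z = a * (θ (r • z) * f z) + b * (η (r • z) * f z)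
  ring

theorem U_lin (a b C D C' D' : ℝ) (x : E) :
    U (a * C + b * C') (a * D + b * D') x = a • U C D x + b • U C' D' x := by
  ext i
  fin_cases i
  · simp [U]
    ring
  · simp [U]
    ring

end LINM

theorem specLIN (hVEL : SpecVEL) (hSUPP : SpecSUPP) : SpecLIN := by
  intro g θ η hg hθ hη a b x
  have hc : Continuous fun y => a * θ y + b * η y :=
    (continuous_const.mul hθ).add (continuous_const.mul hη)
  obtain ⟨v0, v1⟩ := hVEL g θ hg hθ
  obtain ⟨w0, w1⟩ := hVEL g η hg hη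
  obtain ⟨u0, u1⟩ := hVEL g _ hg hc
  obtain ⟨-, s2, s3, -⟩ := hSUPP g hg
  have s4 : Continuous (gp (kern g)) := by
    unfold gp
    have h1 : Continuous (kern g) := s2.continuous
    have h2 : Continuous fun z : E => fderiv ℝ (kern g) z z :=
      (s2.continuous_fderiv (by simp)).clm_apply continuous_id
    exact (continuous_const.mul h1).sub h2
  have s5 : HasCompactSupport (gp (kern g)) := by
    refine s3.mono' ?_
    intro z hz
    by_contra hzt
    apply hz
    have h1 : kern g =ᶠ[𝓝 z] 0 := notMem_tsupport_iff_eventuallyEq.1 hzt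
    unfold gp
    have h2 : fderiv ℝ (kern g) z = 0 := by
      rw [h1.fderiv_eq]
      exact fderiv_const_apply (0 : ℝ)
    rw [h1.self_of_nhds, h2]
    simp
  by_cases hx : x = 0
  · subst hx
    rw [v0, w0, u0, smul_zero, smul_zero, add_zero]
  · rw [v1 x hx, w1 x hx, u1 x hx, LINM.samp_lin s2.continuous s3 hθ hη,
      LINM.samp_lin s4 s5 hθ hη, LINM.U_lin]

end Pool.Agent.Lib.MP96bed6
end
end

section
/-! # SUP: the operator is bounded for the supremum norm -/
set_option autoImplicit false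

open MeasureTheory Filter Topology Set
open scoped ENNReal ContDiff NNReal

noncomputable section

namespace Pool.Agent.Lib.MP96bed6

namespace SUPM

theorem norm_sq (x : E) : ‖x‖ ^ 2 = x 0 ^ 2 + x 1 ^ 2 := by
  rw [EuclideanSpace.norm_sq_eq, Fin.sum_univ_two, Real.norm_eq_abs, Real.norm_eq_abs, sq_abs, sq_abs]

theorem norm_le_add (x : E) : ‖x‖ ≤ |x 0| + |x 1| := by
  have h := norm_sq x
  refine abs_le_of_sq_le_sq' ?_ (by positivity) |>.2
  rw [h]
  nlinarith [abs_nonneg (x 0), abs_nonneg (x 1), sq_abs (x 0), sq_abs (x 1)]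

theorem abs0_le (x : E) : |x 0| ≤ ‖x‖ := by
  refine abs_le_of_sq_le_sq ?_ (norm_nonneg x)
  rw [norm_sq]; nlinarith [sq_nonneg (x 1)]

theorem abs1_le (x : E) : |x 1| ≤ ‖x‖ := by
  refine abs_le_of_sq_le_sq ?_ (norm_nonneg x)
  rw [norm_sq]; nlinarith [sq_nonneg (x 0)]

theorem norm_U_le (C D : ℝ) (x : E) : ‖U C D x‖ ≤ 2 * (|C| + |D|) := by
  rcases eq_or_ne x 0 with rfl | hx
  · have h0 : U C D 0 = 0 := by
      ext i
      fin_cases i <;> simp [U]
    rw [h0, norm_zero]
    positivity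
  · have hr : 0 < ‖x‖ := norm_pos_iff.2 hx
    have key : ∀ a b c : ℝ, |a| ≤ ‖x‖ → |b| ≤ ‖x‖ → |c| ≤ ‖x‖ →
        |a * (C * b ^ 2 + D * c ^ 2)| ≤ (|C| + |D|) * ‖x‖ ^ 3 := by
      intro a b c ha hb hc
      rw [abs_mul]
      have h1 : |C * b ^ 2 + D * c ^ 2| ≤ (|C| + |D|) * ‖x‖ ^ 2 := by
        refine (abs_add_le _ _).trans ?_
        rw [abs_mul, abs_mul, abs_pow, abs_pow, add_mul]
        have hb2 : |b| ^ 2 ≤ ‖x‖ ^ 2 := pow_le_pow_left₀ (abs_nonneg _) hb 2
        have hc2 : |c| ^ 2 ≤ ‖x‖ ^ 2 := pow_le_pow_left₀ (abs_nonneg _) hc 2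
        exact add_le_add (mul_le_mul_of_nonneg_left hb2 (abs_nonneg _))
          (mul_le_mul_of_nonneg_left hc2 (abs_nonneg _))
      calc |a| * |C * b ^ 2 + D * c ^ 2| ≤ ‖x‖ * ((|C| + |D|) * ‖x‖ ^ 2) :=
            mul_le_mul ha h1 (abs_nonneg _) hr.le
        _ = (|C| + |D|) * ‖x‖ ^ 3 := by ring
    have h0 : |U C D x 0| ≤ |C| + |D| := by
      have : U C D x 0 = -(x 0 * (C * x 0 ^ 2 + D * x 1 ^ 2)) / ‖x‖ ^ 3 := rfl
      rw [this, abs_div, abs_neg, abs_of_pos (pow_pos hr 3), div_le_iff₀ (pow_pos hr 3)]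
      exact key _ _ _ (abs0_le x) (abs0_le x) (abs1_le x)
    have h1 : |U C D x 1| ≤ |C| + |D| := by
      have : U C D x 1 = x 1 * (C * x 1 ^ 2 + D * x 0 ^ 2) / ‖x‖ ^ 3 := rfl
      rw [this, abs_div, abs_of_pos (pow_pos hr 3), div_le_iff₀ (pow_pos hr 3)]
      exact key _ _ _ (abs1_le x) (abs1_le x) (abs0_le x)
    have := norm_le_add (U C D x)
    linarith

theorem samp_le {f θ : E → ℝ} (hf : Continuous f) (hc : HasCompactSupport f) {M : ℝ}
    (hM : ∀ x, |θ x| ≤ M) (r : ℝ) : |samp f θ r| ≤ M * ∫ z, |f z| := by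
  have hint : Integrable (fun z : E => |f z|) :=
    (hf.integrable_of_hasCompactSupport hc).abs
  unfold samp
  rw [← Real.norm_eq_abs, ← integral_const_mul]
  refine norm_integral_le_of_norm_le (hint.const_mul M) (Eventually.of_forall fun z => ?_)
  rw [norm_mul, Real.norm_eq_abs, Real.norm_eq_abs]
  exact mul_le_mul_of_nonneg_right (hM _) (abs_nonneg _)

end SUPM

open SUPM in
theorem specSUP (hVEL : SpecVEL) (hSUPP : SpecSUPP) : SpecSUP := by
  intro g hg
  obtain ⟨h1, h2, h3, h4, h5, h6, h7, h8, h9, h10, h11⟩ := hSUPP g hg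
  have hA : Continuous (kern g) := h2.continuous
  have hgk : Continuous (gp (kern g)) := by
    have hd : Continuous (fderiv ℝ (kern g)) := h2.continuous_fderiv (by simp)
    unfold gp
    exact (continuous_const.mul hA).sub (hd.clm_apply continuous_id)
  have hck : HasCompactSupport (gp (kern g)) := by
    refine HasCompactSupport.of_support_subset_isCompact (isCompact_closedBall (0 : E) 6) ?_
    intro z hz
    rw [mem_closedBall_zero_iff]
    exact (h10 z hz).2
  refine ⟨2 * ((∫ z, |kern g z|) + ∫ z, |gp (kern g) z|), ?_, ?_⟩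
  · have e1 : 0 ≤ ∫ z, |kern g z| := integral_nonneg fun z => abs_nonneg _
    have e2 : 0 ≤ ∫ z, |gp (kern g) z| := integral_nonneg fun z => abs_nonneg _
    positivity
  · intro θ hθ M hM x
    obtain ⟨hv0, hv⟩ := hVEL g θ hg hθ
    have e1 : 0 ≤ ∫ z, |kern g z| := integral_nonneg fun z => abs_nonneg _
    have e2 : 0 ≤ ∫ z, |gp (kern g) z| := integral_nonneg fun z => abs_nonneg _
    have hM0 : 0 ≤ M := (abs_nonneg _).trans (hM 0)
    rcases eq_or_ne x 0 with rfl | hx
    · rw [hv0, norm_zero]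
      positivity
    · rw [hv x hx]
      refine (norm_U_le _ _ _).trans ?_
      have k1 := samp_le hA h3 hM ‖x‖
      have k2 := samp_le hgk hck hM ‖x‖
      nlinarith

end Pool.Agent.Lib.MP96bed6
end
end

section
/-! # LIP: the operator maps Lipschitz functions to Lipschitz fields -/
set_option autoImplicit false

open MeasureTheory Filter Topology Set
open scoped ENNReal ContDiff NNReal

noncomputable section

namespace Pool.Agent.Lib.MP96bed6

namespace LIPM

open SUPM

theorem gp_odd {f : E → ℝ} (hf : ContDiff ℝ ∞ f) (ho : ∀ z, f (-z) = -f z) (z : E) :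
    gp f (-z) = -gp f z := by
  have hd : Differentiable ℝ f := hf.differentiable (by simp)
  have h0 : HasFDerivAt f (fderiv ℝ f (-z)) (-z) := (hd (-z)).hasFDerivAt
  have hneg : HasFDerivAt (fun x : E => -x) (-(ContinuousLinearMap.id ℝ E)) z :=
    (hasFDerivAt_id z).neg
  have h1 := h0.comp z hneg
  have h2 : (f ∘ fun x : E => -x) = fun x => -f x := by
    funext x
    exact ho x
  rw [h2] at h1
  have h3 : HasFDerivAt (fun x => -f x) (-(fderiv ℝ f z)) z := (hd z).hasFDerivAt.neg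
  have h4 := congrArg (fun A : E →L[ℝ] ℝ => A z) (h1.unique h3)
  simp only [ContinuousLinearMap.comp_apply, neg_apply,
    ContinuousLinearMap.id_apply, map_neg] at h4
  unfold gp
  rw [ho, map_neg]
  linarith

theorem integral_odd {f : E → ℝ} (ho : ∀ z, f (-z) = -f z) : ∫ z, f z = 0 := by
  have h := integral_neg_eq_self f (volume : Measure E)
  simp only [ho, integral_neg] at h
  linarith

theorem samp_zero {f θ : E → ℝ} (ho : ∀ z, f (-z) = -f z) : samp f θ 0 = 0 := by
  unfold samp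
  simp only [zero_smul]
  rw [integral_const_mul, integral_odd ho, mul_zero]

theorem samp_sub {f θ : E → ℝ} (hf : Continuous f) (hc : HasCompactSupport f) {L : ℝ≥0}
    (hL : LipschitzWith L θ) (r s : ℝ) :
    |samp f θ r - samp f θ s| ≤ L * (∫ z, ‖z‖ * |f z|) * |r - s| := by
  have hθ : Continuous θ := hL.continuous
  have hint : ∀ t : ℝ, Integrable (fun z : E => θ (t • z) * f z) := fun t =>
    ((hθ.comp (continuous_const_smul t)).mul hf).integrable_of_hasCompactSupport hc.mul_left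
  have hJ : Integrable (fun z : E => ‖z‖ * |f z|) := by
    refine (continuous_norm.mul hf.abs).integrable_of_hasCompactSupport ?_
    exact (hc.comp_left (g := fun t : ℝ => |t|) abs_zero).mul_left
  unfold samp
  rw [← integral_sub (hint r) (hint s), ← Real.norm_eq_abs]
  have : L * (∫ z, ‖z‖ * |f z|) * |r - s| = ∫ z, (L * |r - s|) * (‖z‖ * |f z|) := by
    rw [integral_const_mul]
    ring
  rw [this]
  refine norm_integral_le_of_norm_le (hJ.const_mul _) (Eventually.of_forall fun z => ?_)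
  rw [← sub_mul, norm_mul, Real.norm_eq_abs (f z)]
  have h1 : ‖θ (r • z) - θ (s • z)‖ ≤ L * (|r - s| * ‖z‖) := by
    have := hL.norm_sub_le (r • z) (s • z)
    rwa [← sub_smul, norm_smul, Real.norm_eq_abs] at this
  calc ‖θ (r • z) - θ (s • z)‖ * |f z| ≤ L * (|r - s| * ‖z‖) * |f z| :=
        mul_le_mul_of_nonneg_right h1 (abs_nonneg _)
    _ = L * |r - s| * (‖z‖ * |f z|) := by ring

theorem U_sub (C D C' D' : ℝ) (x : E) : U C D x - U C' D' x = U (C - C') (D - D') x := by
  ext i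
  fin_cases i <;> simp [U] <;> ring

theorem U_smul (C D : ℝ) {t : ℝ} (ht : 0 < t) (x : E) (hx : x ≠ 0) : U C D (t • x) = U C D x := by
  have hr : 0 < ‖x‖ := norm_pos_iff.2 hx
  have hn : ‖t • x‖ = t * ‖x‖ := by rw [norm_smul, Real.norm_of_nonneg ht.le]
  ext i
  fin_cases i
  · simp only [U, hn, Fin.zero_eta, PiLp.smul_apply, smul_eq_mul, Matrix.cons_val_zero]
    field_simp
  · simp only [U, hn, Fin.mk_one, PiLp.smul_apply, smul_eq_mul, Matrix.cons_val_one,
      Matrix.cons_val_fin_one]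
    field_simp

theorem poly_bd {a b c d : ℝ} (ha : |a| ≤ 1) (hb : |b| ≤ 1) (hc : |c| ≤ 1) (hd : |d| ≤ 1)
    {e : ℝ} (h1 : |a - c| ≤ e) (h2 : |b - d| ≤ e) (C D : ℝ) :
    |a * (C * a ^ 2 + D * b ^ 2) - c * (C * c ^ 2 + D * d ^ 2)| ≤ 3 * (|C| + |D|) * e := by
  have he : 0 ≤ e := (abs_nonneg _).trans h1
  have k1 : |a ^ 2 + a * c + c ^ 2| ≤ 3 := by
    have := abs_le.1 ha
    have := abs_le.1 hc
    rw [abs_le]
    constructor <;> nlinarith
  have k2 : |b ^ 2| ≤ 1 := by
    rw [abs_pow]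
    exact pow_le_one₀ (abs_nonneg _) hb
  have k3 : |c * (b + d)| ≤ 2 := by
    rw [abs_mul]
    have : |b + d| ≤ 2 := (abs_add_le _ _).trans (by linarith)
    calc |c| * |b + d| ≤ 1 * 2 := mul_le_mul hc this (abs_nonneg _) zero_le_one
      _ = 2 := by norm_num
  have e1 : a * (C * a ^ 2 + D * b ^ 2) - c * (C * c ^ 2 + D * d ^ 2) =
      C * ((a ^ 2 + a * c + c ^ 2) * (a - c)) + D * (b ^ 2 * (a - c) + (c * (b + d)) * (b - d)) := by
    ring
  rw [e1]
  refine (abs_add_le _ _).trans ?_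
  rw [abs_mul, abs_mul D]
  have t1 : |(a ^ 2 + a * c + c ^ 2) * (a - c)| ≤ 3 * e := by
    rw [abs_mul]
    exact mul_le_mul k1 h1 (abs_nonneg _) (by norm_num)
  have t2 : |b ^ 2 * (a - c) + (c * (b + d)) * (b - d)| ≤ 3 * e := by
    refine (abs_add_le _ _).trans ?_
    rw [abs_mul, abs_mul (c * (b + d))]
    have s1 : |b ^ 2| * |a - c| ≤ 1 * e := mul_le_mul k2 h1 (abs_nonneg _) (by norm_num)
    have s2 : |c * (b + d)| * |b - d| ≤ 2 * e := mul_le_mul k3 h2 (abs_nonneg _) (by norm_num)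
    linarith
  have u1 := mul_le_mul_of_nonneg_left t1 (abs_nonneg C)
  have u2 := mul_le_mul_of_nonneg_left t2 (abs_nonneg D)
  linarith

theorem U_unit (C D : ℝ) {u v : E} (hu : ‖u‖ = 1) (hv : ‖v‖ = 1) :
    ‖U C D u - U C D v‖ ≤ 6 * (|C| + |D|) * ‖u - v‖ := by
  have a0 : |u 0| ≤ 1 := hu ▸ abs0_le u
  have a1 : |u 1| ≤ 1 := hu ▸ abs1_le u
  have b0 : |v 0| ≤ 1 := hv ▸ abs0_le v
  have b1 : |v 1| ≤ 1 := hv ▸ abs1_le v
  have d0 : |u 0 - v 0| ≤ ‖u - v‖ := abs0_le (u - v)
  have d1 : |u 1 - v 1| ≤ ‖u - v‖ := abs1_le (u - v)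
  refine (norm_le_add _).trans ?_
  have h0 : |(U C D u - U C D v) 0| ≤ 3 * (|C| + |D|) * ‖u - v‖ := by
    have : (U C D u - U C D v) 0 =
        -(u 0 * (C * u 0 ^ 2 + D * u 1 ^ 2) - v 0 * (C * v 0 ^ 2 + D * v 1 ^ 2)) := by
      show -(u 0 * (C * u 0 ^ 2 + D * u 1 ^ 2)) / ‖u‖ ^ 3 -
        -(v 0 * (C * v 0 ^ 2 + D * v 1 ^ 2)) / ‖v‖ ^ 3 = _
      rw [hu, hv]
      ring
    rw [this, abs_neg]
    exact poly_bd a0 a1 b0 b1 d0 d1 C D
  have h1 : |(U C D u - U C D v) 1| ≤ 3 * (|C| + |D|) * ‖u - v‖ := by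
    have : (U C D u - U C D v) 1 =
        u 1 * (C * u 1 ^ 2 + D * u 0 ^ 2) - v 1 * (C * v 1 ^ 2 + D * v 0 ^ 2) := by
      show (u 1 * (C * u 1 ^ 2 + D * u 0 ^ 2)) / ‖u‖ ^ 3 -
        (v 1 * (C * v 1 ^ 2 + D * v 0 ^ 2)) / ‖v‖ ^ 3 = _
      rw [hu, hv]
      ring
    rw [this]
    exact poly_bd a1 a0 b1 b0 d1 d0 C D
  linarith

theorem unit_bd {x y : E} (hx : x ≠ 0) (hy : y ≠ 0) (h : ‖y‖ ≤ ‖x‖) :
    ‖y‖ * ‖(‖x‖⁻¹ • x) - (‖y‖⁻¹ • y)‖ ≤ 2 * ‖x - y‖ := by
  have hr : 0 < ‖x‖ := norm_pos_iff.2 hx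
  have hs : 0 < ‖y‖ := norm_pos_iff.2 hy
  have e1 : ‖y‖ * ‖(‖x‖⁻¹ • x) - (‖y‖⁻¹ • y)‖ = ‖(‖y‖ * ‖x‖⁻¹) • x - y‖ := by
    rw [← abs_of_pos hs, ← Real.norm_eq_abs, ← norm_smul, Real.norm_eq_abs, abs_of_pos hs, smul_sub,
      smul_smul, smul_smul, mul_inv_cancel₀ hs.ne', one_smul]
  rw [e1]
  have e2 : (‖y‖ * ‖x‖⁻¹) • x - y = (‖y‖ * ‖x‖⁻¹ - 1) • x + (x - y) := by
    rw [sub_smul, one_smul]
    abel
  rw [e2]
  refine (norm_add_le _ _).trans ?_
  have e3 : ‖(‖y‖ * ‖x‖⁻¹ - 1) • x‖ = ‖x‖ - ‖y‖ := by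
    rw [norm_smul, Real.norm_eq_abs, abs_of_nonpos]
    · field_simp
      ring
    · have : ‖y‖ * ‖x‖⁻¹ ≤ 1 := by
        rw [← div_eq_mul_inv, div_le_one hr]
        exact h
      linarith
  rw [e3]
  have := norm_sub_norm_le x y
  linarith

theorem core {A B : ℝ} (hA : 0 ≤ A) (hB : 0 ≤ B) (C D C' D' : ℝ) {x y : E} (hx : x ≠ 0) (hy : y ≠ 0)
    (hyx : ‖y‖ ≤ ‖x‖) (b1 : |C - C'| ≤ A * ‖x - y‖) (b2 : |D - D'| ≤ B * ‖x - y‖)
    (b3 : |C'| ≤ A * ‖y‖) (b4 : |D'| ≤ B * ‖y‖) :
    ‖U C D x - U C' D' y‖ ≤ 14 * (A + B) * ‖x - y‖ := by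
  have hs : 0 < ‖y‖ := norm_pos_iff.2 hy
  have hr : 0 < ‖x‖ := norm_pos_iff.2 hx
  have n1 : ‖‖x‖⁻¹ • x‖ = 1 := by
    rw [norm_smul, norm_inv, norm_norm, inv_mul_cancel₀ hr.ne']
  have n2 : ‖‖y‖⁻¹ • y‖ = 1 := by
    rw [norm_smul, norm_inv, norm_norm, inv_mul_cancel₀ hs.ne']
  have a2 := U_unit C' D' n1 n2
  rw [U_smul C' D' (inv_pos.2 hr) x hx, U_smul C' D' (inv_pos.2 hs) y hy] at a2
  have a1 := norm_U_le (C - C') (D - D') x
  rw [← U_sub] at a1
  have a3 := unit_bd hx hy hyx
  have tri : ‖U C D x - U C' D' y‖ ≤ ‖U C D x - U C' D' x‖ + ‖U C' D' x - U C' D' y‖ :=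
    norm_sub_le_norm_sub_add_norm_sub _ _ _
  have b5 : 6 * (|C'| + |D'|) * ‖(‖x‖⁻¹ • x) - (‖y‖⁻¹ • y)‖ ≤ 12 * (A + B) * ‖x - y‖ := by
    calc 6 * (|C'| + |D'|) * ‖(‖x‖⁻¹ • x) - (‖y‖⁻¹ • y)‖
        ≤ 6 * (A * ‖y‖ + B * ‖y‖) * ‖(‖x‖⁻¹ • x) - (‖y‖⁻¹ • y)‖ := by
          refine mul_le_mul_of_nonneg_right ?_ (norm_nonneg _)
          linarith
      _ = 6 * (A + B) * (‖y‖ * ‖(‖x‖⁻¹ • x) - (‖y‖⁻¹ • y)‖) := by ring
      _ ≤ 6 * (A + B) * (2 * ‖x - y‖) :=
          mul_le_mul_of_nonneg_left a3 (by positivity)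
      _ = 12 * (A + B) * ‖x - y‖ := by ring
  have e : 14 * (A + B) * ‖x - y‖ = 2 * (A * ‖x - y‖ + B * ‖x - y‖) + 12 * (A + B) * ‖x - y‖ := by
    ring
  rw [e]
  linarith

end LIPM

open SUPM LIPM in
theorem specLIP (hVEL : SpecVEL) (hSUPP : SpecSUPP) : SpecLIP := by
  intro g hg
  obtain ⟨h1, h2, h3, h4, h5, h6, h7, h8, h9, h10, h11⟩ := hSUPP g hg
  have hA : Continuous (kern g) := h2.continuous
  have hgk : Continuous (gp (kern g)) := by
    have hd : Continuous (fderiv ℝ (kern g)) := h2.continuous_fderiv (by simp)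
    unfold gp
    exact (continuous_const.mul hA).sub (hd.clm_apply continuous_id)
  have hck : HasCompactSupport (gp (kern g)) := by
    refine HasCompactSupport.of_support_subset_isCompact (isCompact_closedBall (0 : E) 6) ?_
    intro z hz
    rw [mem_closedBall_zero_iff]
    exact (h10 z hz).2
  have ho : ∀ z, gp (kern g) (-z) = -gp (kern g) z := gp_odd h2 h8
  obtain ⟨J1, hJ1⟩ : ∃ J : ℝ, J = ∫ z, ‖z‖ * |kern g z| := ⟨_, rfl⟩
  obtain ⟨J2, hJ2⟩ : ∃ J : ℝ, J = ∫ z, ‖z‖ * |gp (kern g) z| := ⟨_, rfl⟩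
  have j1 : 0 ≤ J1 := by
    rw [hJ1]
    exact integral_nonneg fun z => by positivity
  have j2 : 0 ≤ J2 := by
    rw [hJ2]
    exact integral_nonneg fun z => by positivity
  refine ⟨⟨14 * (J1 + J2), by positivity⟩, ?_⟩
  intro θ L hL
  have hθ := hL.continuous
  obtain ⟨hv0, hv⟩ := hVEL g θ hg hθ
  have c1 : ∀ r s : ℝ, |samp (kern g) θ r - samp (kern g) θ s| ≤ L * J1 * |r - s| := fun r s => by
    rw [hJ1]
    exact samp_sub hA h3 hL r s
  have c2 : ∀ r s : ℝ, |samp (gp (kern g)) θ r - samp (gp (kern g)) θ s| ≤ L * J2 * |r - s| :=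
    fun r s => by
      rw [hJ2]
      exact samp_sub hgk hck hL r s
  have z1 : ∀ r : ℝ, 0 ≤ r → |samp (kern g) θ r| ≤ L * J1 * r := fun r hr => by
    have := c1 r 0
    rwa [samp_zero h8, sub_zero, sub_zero, abs_of_nonneg hr] at this
  have z2 : ∀ r : ℝ, 0 ≤ r → |samp (gp (kern g)) θ r| ≤ L * J2 * r := fun r hr => by
    have := c2 r 0
    rwa [samp_zero ho, sub_zero, sub_zero, abs_of_nonneg hr] at this
  have hLn : (0 : ℝ) ≤ L := L.2
  have key0 : ∀ x : E, ‖vel g θ x‖ ≤ 14 * (J1 + J2) * L * ‖x‖ := by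
    intro x
    rcases eq_or_ne x 0 with rfl | hx
    · rw [hv0]
      simp
    · rw [hv x hx]
      refine (norm_U_le _ _ _).trans ?_
      have k1 := z1 ‖x‖ (norm_nonneg x)
      have k2 := z2 ‖x‖ (norm_nonneg x)
      have : 0 ≤ (J1 + J2) * L * ‖x‖ := by positivity
      nlinarith
  have key : ∀ x y : E, ‖y‖ ≤ ‖x‖ → ‖vel g θ x - vel g θ y‖ ≤ 14 * (J1 + J2) * L * ‖x - y‖ := by
    intro x y hyx
    rcases eq_or_ne y 0 with rfl | hy
    · rw [hv0, sub_zero, sub_zero]
      exact key0 x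
    · have hs : 0 < ‖y‖ := norm_pos_iff.2 hy
      have hr : 0 < ‖x‖ := hs.trans_le hyx
      have hx : x ≠ 0 := norm_pos_iff.1 hr
      rw [hv x hx, hv y hy]
      have b1 : |samp (kern g) θ ‖x‖ - samp (kern g) θ ‖y‖| ≤ L * J1 * ‖x - y‖ := (c1 _ _).trans
        (mul_le_mul_of_nonneg_left (abs_norm_sub_norm_le x y) (mul_nonneg hLn j1))
      have b2 : |samp (gp (kern g)) θ ‖x‖ - samp (gp (kern g)) θ ‖y‖| ≤ L * J2 * ‖x - y‖ :=
        (c2 _ _).trans (mul_le_mul_of_nonneg_left (abs_norm_sub_norm_le x y) (mul_nonneg hLn j2))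
      have b3 := z1 _ hs.le
      have b4 := z2 _ hs.le
      refine (core (mul_nonneg hLn j1) (mul_nonneg hLn j2) _ _ _ _ hx hy hyx b1 b2 b3 b4).trans ?_
      apply le_of_eq
      ring
  refine LipschitzWith.of_dist_le_mul fun x y => ?_
  rw [dist_eq_norm, dist_eq_norm]
  show _ ≤ 14 * (J1 + J2) * (L : ℝ) * _
  rcases le_total ‖y‖ ‖x‖ with h | h
  · exact key x y h
  · rw [norm_sub_rev, norm_sub_rev x y]
    exact key y x h

end Pool.Agent.Lib.MP96bed6
end
end

section
/-! # LPB: the operator is bounded for the `L^p` norms -/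
set_option autoImplicit false

open MeasureTheory Filter Topology Set
open scoped ENNReal ContDiff NNReal

noncomputable section

namespace Pool.Agent.Lib.MP96bed6

namespace LPBM

open SUPM

/-- Hoelder's inequality with a weight -/
theorem jensen {f φ : E → ℝ≥0∞} (hf : Measurable f) (hφ : Measurable φ) {p : ℝ} (hp : 1 ≤ p) :
    (∫⁻ z, f z * φ z) ^ p ≤ (∫⁻ z, φ z) ^ (p - 1) * ∫⁻ z, f z ^ p * φ z := by
  rcases eq_or_lt_of_le hp with h | h
  · subst h
    simp
  · have hpq : p.HolderConjugate (Real.conjExponent p) := Real.HolderConjugate.conjExponent h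
    set q := Real.conjExponent p
    have hp0 : 0 < p := hpq.pos
    have hq0 : 0 < q := hpq.symm.pos
    have h1 := ENNReal.lintegral_mul_le_Lp_mul_Lq (volume : Measure E) hpq
      (f := fun z => f z * φ z ^ (1 / p)) (g := fun z => φ z ^ (1 / q))
      (hf.mul (hφ.pow_const _)).aemeasurable (hφ.pow_const _).aemeasurable
    have e1 : ∀ z, ((fun z => f z * φ z ^ (1 / p)) * fun z => φ z ^ (1 / q)) z = f z * φ z := by
      intro z
      simp only [Pi.mul_apply]
      rw [mul_assoc, ← ENNReal.rpow_add_of_nonneg _ _ (by positivity) (by positivity)]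
      have : 1 / p + 1 / q = 1 := by
        rw [one_div, one_div]
        exact hpq.inv_add_inv_eq_one
      rw [this, ENNReal.rpow_one]
    have e2 : ∀ z, (f z * φ z ^ (1 / p)) ^ p = f z ^ p * φ z := by
      intro z
      rw [ENNReal.mul_rpow_of_nonneg _ _ hp0.le, ← ENNReal.rpow_mul, one_div_mul_cancel hp0.ne',
        ENNReal.rpow_one]
    have e3 : ∀ z, (φ z ^ (1 / q)) ^ q = φ z := by
      intro z
      rw [← ENNReal.rpow_mul, one_div_mul_cancel hq0.ne', ENNReal.rpow_one]
    simp only [e1, e2, e3] at h1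
    have h2 := ENNReal.rpow_le_rpow h1 hp0.le
    refine h2.trans (le_of_eq ?_)
    rw [ENNReal.mul_rpow_of_nonneg _ _ hp0.le, ← ENNReal.rpow_mul, one_div_mul_cancel hp0.ne',
      ENNReal.rpow_one, ← ENNReal.rpow_mul, mul_comm]
    congr 2
    have : q = p / (p - 1) := rfl
    have hp1 : p - 1 ≠ 0 := by linarith
    rw [this]
    field_simp

/-- the annulus -/
def ann (z : E) : ℝ≥0∞ := indicator {z : E | 3 ≤ ‖z‖ ∧ ‖z‖ ≤ 6} 1 z

theorem measurableSet_ann : MeasurableSet {z : E | 3 ≤ ‖z‖ ∧ ‖z‖ ≤ 6} :=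
  (measurableSet_le measurable_const measurable_norm).inter
    (measurableSet_le measurable_norm measurable_const)

theorem measurable_ann : Measurable ann := measurable_one.indicator measurableSet_ann

theorem lintegral_scale {H : E → ℝ≥0∞} (hH : Measurable H) {r : ℝ} (hr : 0 < r) :
    ∫⁻ z, H (r • z) = ENNReal.ofReal (r⁻¹ ^ 2) * ∫⁻ y, H y := by
  have h := Measure.map_addHaar_smul (volume : Measure E) hr.ne'
  have h1 : ∫⁻ z, H (r • z) = ∫⁻ y, H y ∂(Measure.map (r • ·) (volume : Measure E)) :=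
    (lintegral_map hH (measurable_const_smul r)).symm
  rw [h1, h, lintegral_smul_measure, smul_eq_mul]
  congr 2
  rw [finrank_euclideanSpace_fin, abs_of_pos (by positivity), inv_pow]

theorem inner_bd (y : E) : (∫⁻ x : E, ENNReal.ofReal (‖x‖⁻¹ ^ 2) * ann (‖x‖⁻¹ • y)) ≤
    4 * volume (Metric.ball (0 : E) 1) := by
  rcases eq_or_ne y 0 with rfl | hy
  · have : ∀ x : E, ENNReal.ofReal (‖x‖⁻¹ ^ 2) * ann (‖x‖⁻¹ • (0 : E)) = 0 := by
      intro x
      have : ann (‖x‖⁻¹ • (0 : E)) = 0 := by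
        rw [smul_zero]
        refine indicator_of_notMem ?_ _
        simp
      rw [this, mul_zero]
    simp only [this, lintegral_zero]
    exact zero_le
  · have hs : 0 < ‖y‖ := norm_pos_iff.2 hy
    have h1 : ∀ x : E, ENNReal.ofReal (‖x‖⁻¹ ^ 2) * ann (‖x‖⁻¹ • y) ≤
        indicator (Metric.closedBall (0 : E) (‖y‖ / 3)) (fun _ => ENNReal.ofReal ((6 / ‖y‖) ^ 2)) x := by
      intro x
      by_cases hx : 3 ≤ ‖‖x‖⁻¹ • y‖ ∧ ‖‖x‖⁻¹ • y‖ ≤ 6
      · have e1 : ann (‖x‖⁻¹ • y) = 1 := indicator_of_mem (s := {z : E | 3 ≤ ‖z‖ ∧ ‖z‖ ≤ 6}) hx _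
        rw [norm_smul, norm_inv, norm_norm] at hx
        have hr : 0 < ‖x‖ := by
          by_contra h0
          have h0' : ‖x‖ = 0 := le_antisymm (not_lt.1 h0) (norm_nonneg x)
          rw [h0', inv_zero, zero_mul] at hx
          linarith [hx.1]
        have a1 : 3 * ‖x‖ ≤ ‖y‖ := by
          have := mul_le_mul_of_nonneg_left hx.1 hr.le
          rw [← mul_assoc, mul_inv_cancel₀ hr.ne', one_mul] at this
          linarith
        have a2 : ‖x‖⁻¹ ≤ 6 / ‖y‖ := by
          rw [le_div_iff₀ hs]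
          exact hx.2
        rw [e1, mul_one, indicator_of_mem]
        · refine ENNReal.ofReal_le_ofReal ?_
          exact pow_le_pow_left₀ (by positivity) a2 2
        · rw [mem_closedBall_zero_iff]
          linarith
      · have e1 : ann (‖x‖⁻¹ • y) = 0 :=
          indicator_of_notMem (s := {z : E | 3 ≤ ‖z‖ ∧ ‖z‖ ≤ 6}) hx _
        rw [e1, mul_zero]
        exact zero_le
    refine (lintegral_mono h1).trans ?_
    rw [lintegral_indicator Metric.isClosed_closedBall.measurableSet, setLIntegral_const,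
      Measure.addHaar_closedBall _ _ (by positivity), finrank_euclideanSpace_fin, ← mul_assoc,
      ← ENNReal.ofReal_mul (by positivity)]
    have : (6 / ‖y‖) ^ 2 * (‖y‖ / 3) ^ 2 = 4 := by
      field_simp
      norm_num
    rw [this]
    have h4 : ENNReal.ofReal 4 = 4 := by simp
    rw [h4]

theorem tonelli {H : E → ℝ≥0∞} (hH : Measurable H) :
    (∫⁻ x : E, ∫⁻ y : E, H y * (ENNReal.ofReal (‖x‖⁻¹ ^ 2) * ann (‖x‖⁻¹ • y))) ≤
      4 * volume (Metric.ball (0 : E) 1) * ∫⁻ y, H y := by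
  rw [lintegral_lintegral_swap]
  · have : ∀ y : E, ∫⁻ x : E, H y * (ENNReal.ofReal (‖x‖⁻¹ ^ 2) * ann (‖x‖⁻¹ • y)) ≤
        H y * (4 * volume (Metric.ball (0 : E) 1)) := by
      intro y
      rw [lintegral_const_mul]
      · exact mul_le_mul_right (inner_bd y) _
      · refine Measurable.mul ?_ ?_
        · exact ((measurable_norm.inv).pow_const 2).ennreal_ofReal
        · exact measurable_ann.comp ((measurable_norm.inv).smul_const y)
    refine (lintegral_mono this).trans ?_
    rw [lintegral_mul_const _ hH, mul_comm]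
  · refine Measurable.aemeasurable ?_
    refine Measurable.mul (hH.comp measurable_snd) (Measurable.mul ?_ ?_)
    · exact (((measurable_norm.comp measurable_fst).inv).pow_const 2).ennreal_ofReal
    · exact measurable_ann.comp (((measurable_norm.comp measurable_fst).inv).smul measurable_snd)

theorem samp_enorm_le {f θ : E → ℝ} (r : ℝ) :
    ‖samp f θ r‖ₑ ≤ ∫⁻ z, ‖θ (r • z)‖ₑ * ‖f z‖ₑ := by
  unfold samp
  refine (enorm_integral_le_lintegral_enorm _).trans (le_of_eq ?_)
  simp only [enorm_mul]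

theorem U_enorm_le (C D : ℝ) (x : E) : ‖U C D x‖ₑ ≤ 2 * ‖C‖ₑ + 2 * ‖D‖ₑ := by
  have h := norm_U_le C D x
  have h1 : ‖U C D x‖ₑ ≤ ENNReal.ofReal (2 * (|C| + |D|)) := by
    rw [← ofReal_norm]
    exact ENNReal.ofReal_le_ofReal h
  refine h1.trans (le_of_eq ?_)
  rw [← ofReal_norm C, ← ofReal_norm D, ← mul_add,
    ← ENNReal.ofReal_add (norm_nonneg _) (norm_nonneg _), ENNReal.ofReal_mul (by norm_num),
    Real.norm_eq_abs, Real.norm_eq_abs]
  simp

theorem enorm_le_of_bound {f : E → ℝ} {c : ℝ} (h : ∀ x, ‖f x‖ ≤ c) (x : E) : ‖f x‖ₑ ≤ ENNReal.ofReal c := by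
  rw [← ofReal_norm]
  exact ENNReal.ofReal_le_ofReal (h x)

end LPBM

open SUPM LPBM in
theorem specLPB (hVEL : SpecVEL) (hSUPP : SpecSUPP) : SpecLPB := by
  intro g hg
  obtain ⟨h1, h2, h3, h4, h5, h6, h7, h8, h9, h10, h11⟩ := hSUPP g hg
  have hA : Continuous (kern g) := h2.continuous
  have hgk : Continuous (gp (kern g)) := by
    have hd : Continuous (fderiv ℝ (kern g)) := h2.continuous_fderiv (by simp)
    unfold gp
    exact (continuous_const.mul hA).sub (hd.clm_apply continuous_id)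
  have hck : HasCompactSupport (gp (kern g)) := by
    refine HasCompactSupport.of_support_subset_isCompact (isCompact_closedBall (0 : E) 6) ?_
    intro z hz
    rw [mem_closedBall_zero_iff]
    exact (h10 z hz).2
  obtain ⟨c1, hc1⟩ := h3.exists_bound_of_continuous hA
  obtain ⟨c2, hc2⟩ := hck.exists_bound_of_continuous hgk
  obtain ⟨φ, hφdef⟩ : ∃ φ : E → ℝ≥0∞, φ = fun z => 2 * ‖kern g z‖ₑ + 2 * ‖gp (kern g) z‖ₑ := ⟨_, rfl⟩
  have hφ : Measurable φ := by
    rw [hφdef]
    exact (hA.measurable.enorm.const_mul 2).add (hgk.measurable.enorm.const_mul 2)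
  obtain ⟨B, hB⟩ : ∃ B : ℝ≥0∞, B = 2 * ENNReal.ofReal c1 + 2 * ENNReal.ofReal c2 := ⟨_, rfl⟩
  have hBtop : B ≠ ⊤ := by
    rw [hB]
    exact ENNReal.add_ne_top.2 ⟨ENNReal.mul_ne_top (by simp) ENNReal.ofReal_ne_top,
      ENNReal.mul_ne_top (by simp) ENNReal.ofReal_ne_top⟩
  have hφB : ∀ z, φ z ≤ B * ann z := by
    intro z
    by_cases hz : 3 ≤ ‖z‖ ∧ ‖z‖ ≤ 6
    · have e1 : ann z = 1 := indicator_of_mem (s := {z : E | 3 ≤ ‖z‖ ∧ ‖z‖ ≤ 6}) hz _
      rw [e1, mul_one, hφdef, hB]
      exact add_le_add (mul_le_mul_right (enorm_le_of_bound hc1 z) _)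
        (mul_le_mul_right (enorm_le_of_bound hc2 z) _)
    · have k1 : kern g z = 0 := by
        by_contra h
        exact hz (h9 z h)
      have k2 : gp (kern g) z = 0 := by
        by_contra h
        exact hz (h10 z h)
      rw [hφdef]
      simp only [k1, k2, enorm_zero, mul_zero, add_zero]
      exact zero_le
  have hI : ∫⁻ z, φ z ≠ ⊤ := by
    have : ∫⁻ z, φ z ≤ B * volume (Metric.closedBall (0 : E) 6) := by
      calc ∫⁻ z, φ z ≤ ∫⁻ z, B * ann z := lintegral_mono hφB
        _ = B * ∫⁻ z, ann z := lintegral_const_mul _ measurable_ann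
        _ ≤ B * volume (Metric.closedBall (0 : E) 6) := by
          refine mul_le_mul_right ?_ _
          have : ∫⁻ z, ann z = volume {z : E | 3 ≤ ‖z‖ ∧ ‖z‖ ≤ 6} := by
            unfold ann
            rw [lintegral_indicator_one measurableSet_ann]
          rw [this]
          refine measure_mono fun z hz => ?_
          rw [mem_closedBall_zero_iff]
          exact hz.2
    refine ne_top_of_le_ne_top ?_ this
    exact ENNReal.mul_ne_top hBtop (measure_closedBall_lt_top).ne
  obtain ⟨I, hIdef⟩ : ∃ I : ℝ≥0∞, I = ∫⁻ z, φ z := ⟨_, rfl⟩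
  obtain ⟨V, hV⟩ : ∃ V : ℝ≥0∞, V = B * (4 * volume (Metric.ball (0 : E) 1)) := ⟨_, rfl⟩
  have hVtop : V ≠ ⊤ := by
    rw [hV]
    exact ENNReal.mul_ne_top hBtop (ENNReal.mul_ne_top (by simp) measure_ball_lt_top.ne)
  have hItop : I ≠ ⊤ := by rwa [hIdef]
  obtain ⟨K, hK⟩ : ∃ K : ℝ≥0∞, K = max I (max V 1) := ⟨_, rfl⟩
  have hKtop : K ≠ ⊤ := by
    rw [hK]
    exact (max_lt hItop.lt_top (max_lt hVtop.lt_top ENNReal.one_lt_top)).ne
  have hK0 : K ≠ 0 := by
    have : (1 : ℝ≥0∞) ≤ K := by rw [hK]; exact (le_max_right _ _).trans (le_max_right _ _)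
    exact (zero_lt_one.trans_le this).ne'
  refine ⟨K.toReal, ENNReal.toReal_nonneg, ?_⟩
  intro θ hθ p hp
  rw [ENNReal.ofReal_toReal hKtop]
  obtain ⟨hv0, hv⟩ := hVEL g θ hg hθ
  have hp0 : 0 < p := by linarith
  have hθm : Measurable (fun y => ‖θ y‖ₑ ^ p) := (hθ.measurable.enorm).pow_const p
  have hpt : ∀ x : E, ‖vel g θ x‖ₑ ^ p ≤
      I ^ (p - 1) * B * ∫⁻ y : E, ‖θ y‖ₑ ^ p * (ENNReal.ofReal (‖x‖⁻¹ ^ 2) * ann (‖x‖⁻¹ • y)) := by
    intro x
    rcases eq_or_ne x 0 with rfl | hx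
    · rw [hv0, enorm_zero, ENNReal.zero_rpow_of_pos hp0]
      exact zero_le
    · have hr : 0 < ‖x‖ := norm_pos_iff.2 hx
      have hmr : Measurable (fun z : E => ‖θ (‖x‖ • z)‖ₑ) :=
        (hθ.measurable.comp (measurable_const_smul ‖x‖)).enorm
      have s1 : ‖vel g θ x‖ₑ ≤ ∫⁻ z, ‖θ (‖x‖ • z)‖ₑ * φ z := by
        rw [hv x hx]
        refine (U_enorm_le _ _ _).trans ?_
        have t1 := samp_enorm_le (f := kern g) (θ := θ) ‖x‖
        have t2 := samp_enorm_le (f := gp (kern g)) (θ := θ) ‖x‖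
        refine (add_le_add (mul_le_mul_right t1 2) (mul_le_mul_right t2 2)).trans (le_of_eq ?_)
        have m1 : Measurable (fun z : E => ‖θ (‖x‖ • z)‖ₑ * ‖kern g z‖ₑ) :=
          hmr.mul hA.measurable.enorm
        have m2 : Measurable (fun z : E => ‖θ (‖x‖ • z)‖ₑ * ‖gp (kern g) z‖ₑ) :=
          hmr.mul hgk.measurable.enorm
        have m3 : Measurable (fun z : E => 2 * (‖θ (‖x‖ • z)‖ₑ * ‖kern g z‖ₑ)) := m1.const_mul 2
        rw [← lintegral_const_mul _ m1, ← lintegral_const_mul _ m2, ← lintegral_add_left m3, hφdef]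
        refine lintegral_congr fun z => ?_
        ring
      have s2 := ENNReal.rpow_le_rpow s1 hp0.le
      refine s2.trans ((jensen hmr hφ hp).trans ?_)
      rw [← hIdef, mul_assoc]
      refine mul_le_mul_right ?_ _
      have s3 : ∫⁻ z, ‖θ (‖x‖ • z)‖ₑ ^ p * φ z ≤ B * ∫⁻ z, ‖θ (‖x‖ • z)‖ₑ ^ p * ann z := by
        have m4 : Measurable (fun z : E => ‖θ (‖x‖ • z)‖ₑ ^ p * ann z) :=
          (hmr.pow_const p).mul measurable_ann
        rw [← lintegral_const_mul _ m4]
        refine lintegral_mono fun z => ?_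
        calc ‖θ (‖x‖ • z)‖ₑ ^ p * φ z ≤ ‖θ (‖x‖ • z)‖ₑ ^ p * (B * ann z) := mul_le_mul_right (hφB z) _
          _ = B * (‖θ (‖x‖ • z)‖ₑ ^ p * ann z) := by ring
      refine s3.trans (mul_le_mul_right ?_ _)
      have m5 : Measurable (fun y : E => ‖θ y‖ₑ ^ p * ann (‖x‖⁻¹ • y)) :=
        hθm.mul (measurable_ann.comp (measurable_const_smul _))
      have s4 := lintegral_scale (H := fun y => ‖θ y‖ₑ ^ p * ann (‖x‖⁻¹ • y)) m5 hr
      have s5 : ∀ z : E, ‖x‖⁻¹ • (‖x‖ • z) = z := fun z => inv_smul_smul₀ hr.ne' z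
      simp only [s5] at s4
      rw [s4, ← lintegral_const_mul _ m5]
      refine le_of_eq (lintegral_congr fun y => ?_)
      ring
  refine (lintegral_mono hpt).trans ?_
  have hmeas : Measurable (fun x : E => ∫⁻ y : E, ‖θ y‖ₑ ^ p *
      (ENNReal.ofReal (‖x‖⁻¹ ^ 2) * ann (‖x‖⁻¹ • y))) := by
    refine Measurable.lintegral_prod_right' (f := fun q : E × E => ‖θ q.2‖ₑ ^ p *
      (ENNReal.ofReal (‖q.1‖⁻¹ ^ 2) * ann (‖q.1‖⁻¹ • q.2))) ?_
    refine Measurable.mul (hθm.comp measurable_snd) (Measurable.mul ?_ ?_)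
    · exact (((measurable_norm.comp measurable_fst).inv).pow_const 2).ennreal_ofReal
    · exact measurable_ann.comp (((measurable_norm.comp measurable_fst).inv).smul measurable_snd)
  rw [lintegral_const_mul _ hmeas]
  refine (mul_le_mul_right (tonelli hθm) _).trans ?_
  have e1 : I ^ (p - 1) * B * (4 * volume (Metric.ball (0 : E) 1) * ∫⁻ y, ‖θ y‖ₑ ^ p) =
      I ^ (p - 1) * V * ∫⁻ y, ‖θ y‖ₑ ^ p := by
    rw [hV]
    ring
  rw [e1]
  refine mul_le_mul_left ?_ _
  have e2 : K ^ p = K ^ (p - 1) * K := by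
    conv_rhs => rw [← ENNReal.rpow_one K, ← ENNReal.rpow_mul, one_mul]
    rw [← ENNReal.rpow_add _ _ hK0 hKtop]
    congr 1
    ring
  rw [e2]
  refine mul_le_mul' (ENNReal.rpow_le_rpow ?_ (by linarith)) ?_
  · rw [hK]; exact le_max_left _ _
  · rw [hK]; exact (le_max_left _ _).trans (le_max_right _ _)

end Pool.Agent.Lib.MP96bed6
end
end

section
/-!
# MP_96bed6_an, module MAX: the maximum principle
-/
set_option autoImplicit false

open MeasureTheory Filter Topology Set
open scoped ENNReal ContDiff NNReal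

noncomputable section

namespace Pool.Agent.Lib.MP96bed6

namespace MAXM

theorem fracLap_const (α c : ℝ) (x : E) : fracLap α (fun _ => c) x = 0 := by
  unfold fracLap
  simp

theorem isLin_neg (hFLA : SpecFLA) {α κ τ : ℝ} {v : ℝ → E → E} {Θ : ℝ → E → ℝ}
    (h : IsLin α κ τ v Θ) : IsLin α κ τ v (fun t x => -Θ t x) where
  cont := h.cont.neg
  decay := by
    intro η hη
    obtain ⟨R, hR⟩ := h.decay η hη
    refine ⟨R, fun t ht x hx => ?_⟩
    rw [abs_neg]
    exact hR t ht x hx
  dt := fun t ht x => (h.dt t ht x).neg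
  dx := fun t ht x => (h.dx t ht x).neg
  eqn := by
    intro t ht x
    have h1 := h.eqn t ht x
    have h2 : deriv (fun s => -Θ s x) t = -deriv (fun s => Θ s x) t := deriv.fun_neg
    have h3 : fderiv ℝ (fun y => -Θ t y) x = -fderiv ℝ (Θ t) x := fderiv_fun_neg
    have h4 := (hFLA α (Θ t) x).1 (-1) 0
    have h5 : (fun y => -1 * Θ t y + 0) = fun y => -Θ t y := by
      funext y
      ring
    rw [h5] at h4
    rw [h2, h4]
    show -deriv (fun s => Θ s x) t + fderiv ℝ (fun y => -Θ t y) x (v t x) +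
      κ * (-1 * fracLap α (Θ t) x) = 0
    rw [h3]
    show -deriv (fun s => Θ s x) t + -(fderiv ℝ (Θ t) x (v t x)) +
      κ * (-1 * fracLap α (Θ t) x) = 0
    linarith

end MAXM

open MAXM in
theorem specMAX (hTCH : SpecTCH) (hCPT : SpecCPT) (hFLA : SpecFLA) : SpecMAX := by
  intro α κ τ v Θ hα hα2 hκ hτ h M hM h0 t ht x
  -- the strict inequality
  have hstrict : ∀ T' : ℝ, 0 < T' → T' < τ → ∀ η : ℝ, 0 < η → ∀ t ∈ Icc 0 T', ∀ x,
      Θ t x < M + η * (1 + t) := by
    intro T' hT' hT'τ η hη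
    by_contra hcon
    push Not at hcon
    obtain ⟨t1, ht1, x1, hx1⟩ := hcon
    obtain ⟨R, hR⟩ := h.decay (η / 2) (half_pos hη)
    obtain ⟨i, t₀, ht₀, x₀, hD0, hDs, hDy⟩ := hCPT T' R (fun _ t x => M + η * (1 + t) - Θ t x) hT'
      (fun _ => by
        have h1 : ContinuousOn (fun p : ℝ × E => Θ p.1 p.2) (Icc 0 T' ×ˢ univ) :=
          h.cont.mono (Set.prod_mono (Icc_subset_Icc_right hT'τ.le) (subset_refl _))
        have h2 : ContinuousOn (fun p : ℝ × E => M + η * (1 + p.1)) (Icc 0 T' ×ˢ univ) := by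
          fun_prop
        exact h2.sub h1)
      (fun _ x => by
        have := h0 x
        show 0 < M + η * (1 + 0) - Θ 0 x
        linarith)
      (fun _ t ht x hx => by
        have h1 := hR t ⟨ht.1, ht.2.trans hT'τ.le⟩ x hx
        have h2 := (abs_le.1 h1).2
        have h3 : 0 ≤ η * t := mul_nonneg hη.le ht.1
        show 0 < M + η * (1 + t) - Θ t x
        nlinarith)
      ⟨0, t1, ht1, x1, by
        show M + η * (1 + t1) - Θ t1 x1 ≤ 0
        linarith⟩
    have hL := isLin_neg hFLA h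
    have ht₀τ : t₀ ∈ Ioo 0 τ := ⟨ht₀.1, ht₀.2.trans_lt hT'τ⟩
    have key := hTCH α κ τ v (fun t x => -Θ t x) hα hα2 hκ hL (fun t _ => -(M + η * (1 + t))) t₀ x₀
      |M + η * (1 + t₀)| (-η) 0 ht₀τ
      (by
        have : M + η * (1 + t₀) - Θ t₀ x₀ = 0 := hD0
        show -Θ t₀ x₀ = -(M + η * (1 + t₀))
        linarith)
      (fun s hs => by
        have : 0 < M + η * (1 + s) - Θ s x₀ := hDs 0 s hs x₀
        show -(M + η * (1 + s)) ≤ -Θ s x₀
        linarith)
      (fun y => by
        have : 0 ≤ M + η * (1 + t₀) - Θ t₀ y := hDy 0 y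
        show -(M + η * (1 + t₀)) ≤ -Θ t₀ y
        linarith)
      (by
        have h1 : HasDerivAt (fun s : ℝ => -(M + η * (1 + s))) (-(η * 1)) t₀ :=
          ((((hasDerivAt_id t₀).const_add 1).const_mul η).const_add M).neg
        rwa [mul_one] at h1)
      continuous_const
      (fun y => by rw [abs_neg])
      (hasFDerivAt_const _ x₀)
    have h2 : fracLap α ((fun (t : ℝ) (_ : E) => -(M + η * (1 + t))) t₀) x₀ = 0 :=
      fracLap_const α _ x₀
    rw [h2] at key
    simp at key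
    linarith
  -- conclusion
  obtain ⟨T', hT'1, hT'2⟩ := exists_between ht.2
  have hT' : 0 < T' := ht.1.trans_lt hT'1
  have h1t : 0 < 1 + t := by linarith [ht.1]
  refine le_of_forall_pos_le_add fun ε hε => ?_
  have h1 := hstrict T' hT' hT'2 (ε / (1 + t)) (div_pos hε h1t) t ⟨ht.1, hT'1.le⟩ x
  rw [div_mul_cancel₀ ε h1t.ne'] at h1
  exact h1.le

end Pool.Agent.Lib.MP96bed6
end
end

section
/-!
# MP_96bed6_an, module PAR

`r ↦ ∫ θ(rz) f(z) dz` is smooth when `θ` is smooth and `f` is continuous with compact support: it is the value at `0` of a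
convolution with a smooth compactly supported function depending smoothly on the parameter `r`.
-/
set_option autoImplicit false

open MeasureTheory Filter Topology Set
open scoped ENNReal ContDiff NNReal Convolution

noncomputable section

namespace Pool.Agent.Lib.MP96bed6

/-- PAR. -/
theorem specPAR : SpecPAR := by
  intro f θ hf hfc hθ
  obtain ⟨R, hR⟩ := hfc.isCompact.isBounded.subset_closedBall (0 : E)
  let c : ContDiffBump (0 : E) :=
    ⟨max R 1, max R 1 + 1, lt_of_lt_of_le one_pos (le_max_right _ _), lt_add_one _⟩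
  have hc1 : ∀ z : E, f z ≠ 0 → c (-z) = 1 := by
    intro z hz
    apply c.one_of_mem_closedBall
    have h1 : z ∈ Metric.closedBall (0 : E) R := hR (subset_tsupport _ hz)
    rw [mem_closedBall_zero_iff] at h1 ⊢
    rw [norm_neg]
    exact h1.trans (le_max_left _ _)
  have key := contDiffOn_convolution_right_with_param_comp (𝕜 := ℝ) (n := (⊤ : ℕ∞)) (μ := (volume : Measure E))
    (ContinuousLinearMap.mul ℝ ℝ) (s := (univ : Set ℝ)) (v := fun _ : ℝ => (0 : E)) contDiffOn_const
    (f := f) (g := fun (p : ℝ) (y : E) => θ (p • (-y)) * c y) (k := Metric.closedBall (0 : E) (max R 1 + 1))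
    isOpen_univ (isCompact_closedBall _ _)
    (by
      intro p x _ hx
      have : c x = 0 := by
        apply c.zero_of_le_dist
        rw [Metric.mem_closedBall, not_le] at hx
        exact hx.le
      simp only [this, mul_zero])
    hf.locallyIntegrable
    (by
      apply ContDiff.contDiffOn
      have h1 : ContDiff ℝ ∞ (fun q : ℝ × E => θ (q.1 • (-q.2)) * c q.2) := by
        apply ContDiff.mul
        · exact hθ.comp (contDiff_fst.smul contDiff_snd.neg)
        · exact c.contDiff.comp contDiff_snd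
      exact h1)
  rw [contDiffOn_univ] at key
  have e : samp f θ = fun x : ℝ =>
      (f ⋆[ContinuousLinearMap.mul ℝ ℝ, (volume : Measure E)] fun y : E => θ (x • (-y)) * c y) 0 := by
    funext r
    unfold samp MeasureTheory.convolution
    apply integral_congr_ae
    filter_upwards with z
    by_cases hz : f z = 0
    · simp [hz]
    · have h2 := hc1 z hz
      simp only [zero_sub, neg_neg, ContinuousLinearMap.mul_apply', h2, mul_one]
      ring
  rw [e]
  exact key

end Pool.Agent.Lib.MP96bed6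
end
end

section
/-! # MP_96bed6_an, module SAM -/
set_option autoImplicit false

open MeasureTheory Filter Topology Set
open scoped ENNReal ContDiff NNReal

noncomputable section

namespace Pool.Agent.Lib.MP96bed6

namespace SAMM

lemma intble {f θ : E → ℝ} (hf : Continuous f) (hs : HasCompactSupport f) (hθ : Continuous θ) (r : ℝ) :
    Integrable (fun z : E => θ (r • z) * f z) := by
  have hc : Continuous (fun z : E => θ (r • z) * f z) := (hθ.comp (continuous_const_smul r)).mul hf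
  exact hc.integrable_of_hasCompactSupport hs.mul_left

lemma samp_add {f θ η : E → ℝ} (hf : Continuous f) (hs : HasCompactSupport f) (hθ : Continuous θ) (hη : Continuous η)
    (r : ℝ) : samp f θ r + samp f η r = ∫ z : E, (θ (r • z) + η (r • z)) * f z := by
  unfold samp
  rw [← integral_add (intble hf hs hθ r) (intble hf hs hη r)]
  congr 1
  ext z
  ring

lemma abs_samp_le {f θ η : E → ℝ} (hf : Continuous f) (hs : HasCompactSupport f) (hθ : Continuous θ) (hη : Continuous η)
    (h1 : ∀ x, |θ x| ≤ 1) (h2 : ∀ x, |η x| ≤ 1) (r : ℝ) :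
    |samp f θ r + samp f η r| ≤ 2 * ∫ z, |f z| := by
  rw [samp_add hf hs hθ hη, ← integral_const_mul]
  have hfi : Integrable f := hf.integrable_of_hasCompactSupport hs
  have hi : Integrable (fun z : E => (θ (r • z) + η (r • z)) * f z) :=
    intble (θ := fun x => θ x + η x) hf hs (hθ.add hη) r
  refine (abs_integral_le_integral_abs).trans ?_
  refine integral_mono hi.abs (hfi.abs.const_mul 2) ?_
  intro z
  simp only
  rw [abs_mul]
  refine mul_le_mul_of_nonneg_right ?_ (abs_nonneg _)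
  have := abs_add_le (θ (r • z)) (η (r • z))
  have a1 := h1 (r • z)
  have a2 := h2 (r • z)
  linarith

end SAMM

open SAMM in
theorem specSAM (hSUPP : SpecSUPP) (hZER : SpecZER) (hBVL : SpecBVL) : SpecSAM := by
  intro g hg Θ₁ Θ₂ hc1 hc2 hb1 hb2 r
  obtain ⟨hs, -, -, hgps, hgpc, hgpz, -, -, -, -, -⟩ := hSUPP g hg
  have hgc : Continuous g := hg.smooth.continuous
  have hgpC : Continuous (gp g) := hgps.continuous
  have hgi : Integrable g := hgc.integrable_of_hasCompactSupport hs
  have hgpi : Integrable (gp g) := hgpC.integrable_of_hasCompactSupport hgpc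
  have habs : (∫ z, |g z|) = ∫ z, g z := by
    congr 1
    ext z
    exact abs_of_nonneg (hg.nonneg z)
  refine ⟨?_, ?_, ?_⟩
  · have := abs_samp_le hgc hs hc1 hc2 hb1 hb2 r
    rwa [habs] at this
  · exact abs_samp_le hgpC hgpc hc1 hc2 hb1 hb2 r
  · intro l p q δ hl hδ hq hB1 hB2 hlr hrp
    have hr : 0 < r := lt_of_lt_of_le hl hlr
    have key : ∀ z : E, g z ≠ 0 → 2 - 2 * δ ≤ Θ₁ (r • z) + Θ₂ (r • z) := by
      intro z hz
      obtain ⟨h3, h5, h9⟩ := hg.supp z hz
      have e0' : (r • z) 0 = r * z 0 := by simp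
      have e1' : (r • z) 1 = r * z 1 := by simp
      have hbar : bar l p q (r • z) = 1 := by
        refine (hBVL l p q (r • z) hl).2.2 ?_ ?_ hq ?_
        · rw [e0']
          nlinarith
        · rw [e0', e1']
          have h0 : (3 * |z 1|) ^ 2 ≤ (z 0) ^ 2 := by
            refine pow_le_pow_left₀ (by positivity) h9.le 2
          have h0' : 9 * (z 1) ^ 2 ≤ (z 0) ^ 2 := by
            have : (3 * |z 1|) ^ 2 = 9 * (z 1) ^ 2 := by
              rw [mul_pow, sq_abs]; norm_num
            linarith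
          have hr2 : 0 ≤ r ^ 2 := sq_nonneg r
          nlinarith [mul_le_mul_of_nonneg_left h0' hr2]
        · rw [e0']
          nlinarith
      have a1 := hB1 (r • z)
      have a2 := hB2 (r • z)
      rw [hbar] at a1 a2
      linarith
    constructor
    · rw [samp_add hgc hs hc1 hc2, ← integral_const_mul]
      refine integral_mono (hgi.const_mul _) (intble (θ := fun x => Θ₁ x + Θ₂ x) hgc hs (hc1.add hc2) r) ?_
      intro z
      simp only
      by_cases hz : g z = 0
      · rw [hz]; simp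
      · exact mul_le_mul_of_nonneg_right (key z hz) (hg.nonneg z)
    · have h0 : (∫ z, gp g z) = 0 := hZER g hg
      have hi : Integrable (fun z : E => (Θ₁ (r • z) + Θ₂ (r • z)) * gp g z) :=
        intble (θ := fun x => Θ₁ x + Θ₂ x) hgpC hgpc (hc1.add hc2) r
      have h1 : samp (gp g) Θ₁ r + samp (gp g) Θ₂ r = ∫ z : E, ((Θ₁ (r • z) + Θ₂ (r • z)) - 2) * gp g z := by
        rw [samp_add hgpC hgpc hc1 hc2]
        have : (fun z : E => ((Θ₁ (r • z) + Θ₂ (r • z)) - 2) * gp g z)
            = fun z : E => (Θ₁ (r • z) + Θ₂ (r • z)) * gp g z - 2 * gp g z := by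
          ext z; ring
        rw [this, integral_sub hi (hgpi.const_mul 2), integral_const_mul, h0]
        ring
      have hi2 : Integrable (fun z : E => ((Θ₁ (r • z) + Θ₂ (r • z)) - 2) * gp g z) :=
        intble (θ := fun x => (Θ₁ x + Θ₂ x) - 2) hgpC hgpc ((hc1.add hc2).sub continuous_const) r
      rw [h1, ← mul_assoc, ← integral_const_mul]
      refine (abs_integral_le_integral_abs).trans ?_
      refine integral_mono hi2.abs (hgpi.abs.const_mul _) ?_
      intro z
      simp only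
      by_cases hz : gp g z = 0
      · rw [hz]; simp
      · rw [abs_mul]
        refine mul_le_mul_of_nonneg_right ?_ (abs_nonneg _)
        have k := key z (hgpz z hz)
        have a1 := hb1 (r • z)
        have a2 := hb2 (r • z)
        rw [abs_le] at a1 a2 ⊢
        constructor <;> linarith

end Pool.Agent.Lib.MP96bed6
end
end

section
/-!
# MP_96bed6_an, module SMO: the stream function of a smooth function is smooth
-/
set_option autoImplicit false

open MeasureTheory Filter Topology Set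
open scoped ENNReal ContDiff NNReal

noncomputable section

namespace Pool.Agent.Lib.MP96bed6

namespace SMOM

theorem samp_odd {f θ : E → ℝ} (hf : ∀ z, f (-z) = -f z) (r : ℝ) :
    samp f θ (-r) = -samp f θ r := by
  unfold samp
  rw [← integral_neg_eq_self (fun z : E => θ (-r • z) * f z), ← integral_neg]
  refine integral_congr_ae (Eventually.of_forall fun z => ?_)
  simp only [hf, smul_neg, neg_smul, neg_neg]
  ring

theorem contDiff_coord (i : Fin 2) : ContDiff ℝ ∞ (fun x : E => x i) :=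
  (EuclideanSpace.proj (𝕜 := ℝ) (ι := Fin 2) i).contDiff

end SMOM

theorem specSMO (hSUPP : SpecSUPP) (hPAR : SpecPAR) (hHAD : SpecHAD) (hEVN : SpecEVN) :
    SpecSMO := by
  intro g θ hg hθ
  obtain ⟨-, h1, h2, -, -, -, -, hodd, -, -, -⟩ := hSUPP g hg
  have hC : ContDiff ℝ ∞ (samp (kern g) θ) := hPAR (kern g) θ h1.continuous h2 hθ
  have hCo : ∀ r, samp (kern g) θ (-r) = -samp (kern g) θ r := SMOM.samp_odd hodd
  have hC0 : samp (kern g) θ 0 = 0 := by
    have := hCo 0
    rw [neg_zero] at this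
    linarith
  obtain ⟨W, hW, hWe⟩ := hHAD _ hC hC0
  have hev : ∀ t, W (-t) = W t := by
    intro t
    rcases eq_or_ne t 0 with rfl | ht
    · rw [neg_zero]
    · have h3 := hCo t
      rw [hWe, hWe t] at h3
      have h4 : t * (W (-t) - W t) = 0 := by linarith
      rcases mul_eq_zero.1 h4 with h5 | h5
      · exact absurd h5 ht
      · linarith
  have hs : stream g θ = fun x : E => x 0 * x 1 * W ‖x‖ := by
    funext x
    have h3 : stream g θ x = x 0 * x 1 / ‖x‖ * samp (kern g) θ ‖x‖ := rfl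
    rw [h3, hWe]
    rcases eq_or_ne x 0 with rfl | hx
    · simp
    · have hx' : ‖x‖ ≠ 0 := norm_ne_zero_iff.2 hx
      field_simp
  rw [hs]
  exact ((SMOM.contDiff_coord 0).mul (SMOM.contDiff_coord 1)).mul (hEVN W hW hev)

end Pool.Agent.Lib.MP96bed6
end
end

section
/-!
# MP_96bed6_an, module STP: the smooth step
-/
set_option autoImplicit false

open MeasureTheory Filter Topology Set
open scoped ENNReal ContDiff NNReal

noncomputable section

namespace Pool.Agent.Lib.MP96bed6

namespace STPM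

theorem glue_mono {x y : ℝ} (h : x ≤ y) : expNegInvGlue x ≤ expNegInvGlue y := by
  rcases le_or_gt x 0 with hx | hx
  · rw [expNegInvGlue.zero_of_nonpos hx]
    exact expNegInvGlue.nonneg y
  · have hy : 0 < y := hx.trans_le h
    unfold expNegInvGlue
    rw [if_neg (not_le.2 hx), if_neg (not_le.2 hy)]
    apply Real.exp_le_exp.2
    have := inv_anti₀ hx h
    linarith

theorem S_eq : S = Real.smoothTransition := rfl

theorem S_mono : Monotone S := by
  intro x y h
  rw [S_eq]
  unfold Real.smoothTransition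
  have ha := glue_mono h
  have hb : expNegInvGlue (1 - y) ≤ expNegInvGlue (1 - x) := glue_mono (by linarith)
  have hx := Real.smoothTransition.pos_denom x
  have hy := Real.smoothTransition.pos_denom y
  have n1 := expNegInvGlue.nonneg x
  have n2 := expNegInvGlue.nonneg (1 - y)
  rw [div_le_div_iff₀ hx hy]
  have h1 : expNegInvGlue x * expNegInvGlue (1 - y) ≤ expNegInvGlue y * expNegInvGlue (1 - x) :=
    mul_le_mul ha hb n2 (expNegInvGlue.nonneg y)
  nlinarith

end STPM

open STPM in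
theorem specSTP : SpecSTP := by
  have hc : ContDiff ℝ ∞ S := Real.smoothTransition.contDiff
  have h01 : ∀ s, 0 ≤ S s ∧ S s ≤ 1 := fun s =>
    ⟨Real.smoothTransition.nonneg s, Real.smoothTransition.le_one s⟩
  have h0 : ∀ s, s ≤ 0 → S s = 0 := fun s hs => Real.smoothTransition.zero_of_nonpos hs
  have h1 : ∀ s, 1 ≤ s → S s = 1 := fun s hs => Real.smoothTransition.one_of_one_le hs
  have hz0 : ∀ s, s ≤ 0 → deriv S s = 0 := by
    intro s hs
    apply IsLocalMin.deriv_eq_zero
    refine Filter.Eventually.of_forall fun y => ?_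
    rw [h0 s hs]
    exact (h01 y).1
  have hz1 : ∀ s, 1 ≤ s → deriv S s = 0 := by
    intro s hs
    apply IsLocalMax.deriv_eq_zero
    refine Filter.Eventually.of_forall fun y => ?_
    rw [h1 s hs]
    exact (h01 y).2
  refine ⟨hc, h01, h0, h1, fun s hs => Real.smoothTransition.pos_of_pos hs,
    fun s => S_mono.deriv_nonneg, ?_, ?_⟩
  · intro s hs
    constructor
    · by_contra h
      exact hs (hz0 s (not_lt.1 h))
    · by_contra h
      exact hs (hz1 s (not_lt.1 h))
  · have hcd : Continuous (deriv S) := hc.continuous_deriv (by simp)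
    obtain ⟨C, hC⟩ := (isCompact_Icc (a := (0:ℝ)) (b := 1)).exists_bound_of_continuousOn
      hcd.continuousOn
    refine ⟨max C 1, le_max_right _ _, fun s => ?_⟩
    rcases le_or_gt s 0 with hs | hs
    · rw [hz0 s hs]
      exact le_trans zero_le_one (le_max_right _ _)
    · rcases le_or_gt 1 s with hs1 | hs1
      · rw [hz1 s hs1]
        exact le_trans zero_le_one (le_max_right _ _)
      · have h2 := hC s ⟨hs.le, hs1.le⟩
        exact (le_abs_self _).trans (h2.trans (le_max_left _ _))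

end Pool.Agent.Lib.MP96bed6
end
end

section
/-!
# SUPP: elementary facts on samplers
-/
set_option autoImplicit false

open MeasureTheory Filter Topology Set
open scoped ENNReal ContDiff NNReal

noncomputable section

namespace Pool.Agent.Lib.MP96bed6

namespace SUPPM

/-- the reflection as a linear map -/
def rl : E →ₗ[ℝ] E where
  toFun := refl
  map_add' := by
    intro x y
    ext i
    fin_cases i
    · show -((x + y) 0) = -(x 0) + -(y 0)
      rw [PiLp.add_apply]
      ring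
    · rfl
  map_smul' := by
    intro c x
    ext i
    fin_cases i
    · show -((c • x) 0) = c * -(x 0)
      rw [PiLp.smul_apply, smul_eq_mul]
      ring
    · rfl

/-- the reflection as a continuous linear map -/
def rc : E →L[ℝ] E := LinearMap.toContinuousLinearMap rl

theorem rc_apply (x : E) : rc x = refl x := rfl

theorem refl_zero_coord (x : E) : (refl x) 0 = -(x 0) := rfl

theorem refl_one_coord (x : E) : (refl x) 1 = x 1 := rfl

theorem refl_refl (x : E) : refl (refl x) = x := by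
  ext i
  fin_cases i
  · show -(-(x 0)) = x 0
    ring
  · rfl

theorem norm_refl (x : E) : ‖refl x‖ = ‖x‖ := by
  have h1 := EuclideanSpace.real_norm_sq_eq (refl x)
  have h2 := EuclideanSpace.real_norm_sq_eq x
  rw [Fin.sum_univ_two] at h1 h2
  rw [refl_zero_coord, refl_one_coord, neg_sq, ← h2] at h1
  exact (sq_eq_sq₀ (norm_nonneg _) (norm_nonneg _)).1 h1

theorem refl_neg (x : E) : refl (-x) = -refl x := by
  rw [← rc_apply, ← rc_apply, map_neg]

theorem contDiff_refl : ContDiff ℝ ∞ refl := rc.contDiff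

variable {g : E → ℝ} (hg : IsSampler g)
include hg

theorem norm_bd {z : E} (hz : g z ≠ 0) : 3 ≤ ‖z‖ ∧ ‖z‖ ≤ 6 := by
  obtain ⟨h1, h2, h3⟩ := hg.supp z hz
  have h4 := EuclideanSpace.real_norm_sq_eq z
  rw [Fin.sum_univ_two] at h4
  have h5 : (z 1) ^ 2 ≤ (5 / 3) ^ 2 := by
    rw [← sq_abs]
    have h6 : |z 1| ≤ 5 / 3 := by linarith
    exact pow_le_pow_left₀ (abs_nonneg _) h6 2
  constructor
  · nlinarith [norm_nonneg z, sq_nonneg (z 1)]
  · nlinarith [norm_nonneg z, sq_nonneg (z 1)]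

theorem gp_ne {z : E} (hz : gp g z ≠ 0) : g z ≠ 0 := by
  intro h
  apply hz
  have h1 : IsLocalMin g z := by
    refine Filter.Eventually.of_forall fun y => ?_
    rw [h]
    exact hg.nonneg y
  unfold gp
  rw [h1.fderiv_eq_zero, h]
  simp

theorem gp_kern (z : E) : gp (kern g) z = gp g (refl z) - gp g z := by
  have hd : Differentiable ℝ g := hg.smooth.differentiable (by simp)
  have h1 : HasFDerivAt (kern g) ((fderiv ℝ g (refl z)).comp rc - fderiv ℝ g z) z := by
    have h2 : HasFDerivAt (fun y : E => g (rc y)) ((fderiv ℝ g (rc z)).comp rc) z :=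
      (hd (rc z)).hasFDerivAt.comp z rc.hasFDerivAt
    exact h2.sub (hd z).hasFDerivAt
  unfold gp
  rw [h1.fderiv]
  unfold kern
  simp only [sub_apply, ContinuousLinearMap.comp_apply, rc_apply]
  ring

end SUPPM

open SUPPM in
theorem specSUPP : SpecSUPP := by
  intro g hg
  have hcs : ∀ f : E → ℝ, (∀ z, f z ≠ 0 → ‖z‖ ≤ 6) → HasCompactSupport f := by
    intro f hf
    refine HasCompactSupport.of_support_subset_isCompact (isCompact_closedBall (0 : E) 6) ?_
    intro z hz
    rw [mem_closedBall_zero_iff]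
    exact hf z hz
  have hk : ∀ z, kern g z ≠ 0 → 3 ≤ ‖z‖ ∧ ‖z‖ ≤ 6 := by
    intro z hz
    by_cases h : g z = 0
    · have h1 : g (refl z) ≠ 0 := by
        intro h2
        apply hz
        unfold kern
        rw [h, h2, sub_self]
      have := norm_bd hg h1
      rwa [norm_refl] at this
    · exact norm_bd hg h
  have hgk : ∀ z, gp (kern g) z ≠ 0 → 3 ≤ ‖z‖ ∧ ‖z‖ ≤ 6 := by
    intro z hz
    rw [gp_kern hg] at hz
    by_cases h : gp g z = 0
    · have h1 : gp g (refl z) ≠ 0 := by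
        intro h2
        apply hz
        rw [h, h2, sub_self]
      have := norm_bd hg (gp_ne hg h1)
      rwa [norm_refl] at this
    · exact norm_bd hg (gp_ne hg h)
  have hsgp : ContDiff ℝ ∞ (gp g) := by
    have h1 : ContDiff ℝ ∞ (fderiv ℝ g) := hg.smooth.fderiv_right (by simp)
    exact (contDiff_const.mul hg.smooth).sub (h1.clm_apply contDiff_id)
  refine ⟨hcs g fun z hz => (norm_bd hg hz).2, (hg.smooth.comp contDiff_refl).sub hg.smooth,
    hcs _ fun z hz => (hk z hz).2, hsgp, hcs _ fun z hz => (norm_bd hg (gp_ne hg hz)).2,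
    fun z hz => gp_ne hg hz, gp_kern hg, ?_, hk, hgk, ?_⟩
  · intro z
    unfold kern
    have h1 : g (refl (-z)) = g z := by
      rw [refl_neg]
      exact hg.even z
    have h2 : g (-z) = g (refl z) := by
      have := hg.even (refl z)
      rwa [refl_refl] at this
    rw [h1, h2]
    ring
  · obtain ⟨z, hz⟩ := hg.ne
    exact hg.smooth.continuous.integral_pos_of_hasCompactSupport_nonneg_nonzero
      (hcs g fun z hz => (norm_bd hg hz).2) hg.nonneg hz

end Pool.Agent.Lib.MP96bed6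
end
end

section
/-!
# MP_96bed6_an, TCH: the inequality at a touching point
-/
set_option autoImplicit false

open MeasureTheory Filter Topology Set
open scoped ENNReal ContDiff NNReal

noncomputable section

namespace Pool.Agent.Lib.MP96bed6

namespace TCHM

/-- A function that is continuous and small at infinity is bounded. -/
theorem bounded_of_decay {f : E → ℝ} (hc : Continuous f) {R : ℝ} (hd : ∀ x : E, R ≤ ‖x‖ → |f x| ≤ 1) :
    ∃ M : ℝ, ∀ x, |f x| ≤ M := by
  obtain ⟨M, hM⟩ := (isCompact_closedBall (0 : E) R).exists_bound_of_continuousOn hc.continuousOn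
  refine ⟨max M 1, fun x => ?_⟩
  by_cases hx : R ≤ ‖x‖
  · exact (hd x hx).trans (le_max_right _ _)
  · have hx' : x ∈ Metric.closedBall (0 : E) R := by
      rw [mem_closedBall_zero_iff]
      exact (not_le.1 hx).le
    have := hM x hx'
    rw [Real.norm_eq_abs] at this
    exact this.trans (le_max_left _ _)

/-- Nonnegative before `t`, zero at `t`: the derivative is nonpositive. -/
theorem deriv_nonpos {D : ℝ → ℝ} {a t : ℝ} (ht : 0 < t) (hD : HasDerivAt D a t) (h0 : D t = 0)
    (h1 : ∀ s ∈ Ico 0 t, 0 ≤ D s) : a ≤ 0 := by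
  have h2 : Tendsto (slope D t) (𝓝[<] t) (𝓝 a) :=
    (hasDerivAt_iff_tendsto_slope.1 hD).mono_left
      (nhdsWithin_mono _ (fun s hs => ne_of_lt hs))
  refine le_of_tendsto h2 ?_
  have h3 : Ioo 0 t ∈ 𝓝[<] t := Ioo_mem_nhdsLT ht
  filter_upwards [h3] with s hs
  rw [slope_def_field, h0]
  have h4 := h1 s ⟨hs.1.le, hs.2⟩
  have h5 : s - t < 0 := by linarith [hs.2]
  rw [sub_zero]
  exact div_nonpos_of_nonneg_of_nonpos h4 h5.le

end TCHM

open TCHM

theorem specTCH (hFLC : SpecFLC) : SpecTCH := by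
  intro α κ τ v Θ hα hα2 hκ hL G t x M Gt Gx ht hxt hprev hle hGt hGc hGM hGx
  have htI : t ∈ Icc (0 : ℝ) τ := ⟨ht.1.le, ht.2.le⟩
  have hΘc : Continuous (Θ t) := by
    rw [← continuousOn_univ]
    have h1 : ContinuousOn (fun y : E => ((t, y) : ℝ × E)) univ := by fun_prop
    exact hL.cont.comp h1 (fun y _ => ⟨htI, mem_univ _⟩)
  obtain ⟨R, hR⟩ := hL.decay 1 one_pos
  obtain ⟨M', hM'⟩ := bounded_of_decay hΘc (fun y hy => hR t htI y hy)
  -- the time derivative
  have hdt := (hL.dt t ht x).hasDerivAt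
  have h1 : deriv (fun s => Θ s x) t ≤ Gt := by
    have h2 := hdt.sub hGt
    have h3 := deriv_nonpos ht.1 h2 (by simp [hxt]) (fun s hs => by
      have := hprev s hs
      simp only [Pi.sub_apply]
      linarith)
    linarith
  -- the space derivative
  have hdx := (hL.dx t ht x).hasFDerivAt
  have h2 : fderiv ℝ (Θ t) x = Gx := by
    have h3 := hdx.sub hGx
    have h4 : IsLocalMin (Θ t - G t) x := by
      refine Filter.Eventually.of_forall (fun y => ?_)
      have := hle y
      simp only [Pi.sub_apply, hxt, sub_self]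
      linarith
    have h5 := h4.hasFDerivAt_eq_zero h3
    exact sub_eq_zero.1 h5
  -- the fractional Laplacian
  have h3 : fracLap α (Θ t) x ≤ fracLap α (G t) x := by
    refine hFLC α hα hα2 (Θ t) (G t) (max M M') x hΘc hGc (fun y => (hM' y).trans (le_max_right _ _))
      (fun y => (hGM y).trans (le_max_left _ _)) (hL.dx t ht x) hGx.differentiableAt (fun y => ?_)
    have := hle y
    rw [hxt]
    linarith
  have h4 := hL.eqn t ht x
  rw [h2] at h4
  have h5 := mul_le_mul_of_nonneg_left h3 hκ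
  linarith

end Pool.Agent.Lib.MP96bed6
end
end

section
/-! # VEL: the formula for the velocity -/
set_option autoImplicit false

open MeasureTheory Filter Topology Set
open scoped ENNReal ContDiff NNReal

noncomputable section

namespace Pool.Agent.Lib.MP96bed6

namespace VELM

theorem norm_sq (x : E) : ‖x‖ ^ 2 = x 0 ^ 2 + x 1 ^ 2 := by
  rw [EuclideanSpace.norm_sq_eq, Fin.sum_univ_two, Real.norm_eq_abs, Real.norm_eq_abs, sq_abs, sq_abs]

theorem hasFDerivAt_norm' {x : E} (hx : x ≠ 0) :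
    HasFDerivAt (fun y : E => ‖y‖) (‖x‖⁻¹ • (innerSL ℝ x)) x := by
  have h1 : HasFDerivAt (fun y : E => ‖y‖ ^ 2) (2 • (innerSL ℝ x)) x :=
    (hasStrictFDerivAt_norm_sq x).hasFDerivAt
  have hr : 0 < ‖x‖ := norm_pos_iff.2 hx
  have h2 := h1.sqrt (by positivity)
  have h3 : (fun y : E => √(‖y‖ ^ 2)) = fun y : E => ‖y‖ := by
    funext y
    exact Real.sqrt_sq (norm_nonneg y)
  rw [h3] at h2
  have h4 : (1 / (2 * √(‖x‖ ^ 2))) • (2 : ℕ) • (innerSL ℝ x) = ‖x‖⁻¹ • (innerSL ℝ x) := by
    rw [Real.sqrt_sq hr.le, ← Nat.cast_smul_eq_nsmul ℝ 2 (innerSL ℝ x), smul_smul]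
    congr 1
    field_simp
    norm_num
  rw [h4] at h2
  exact h2

theorem hasFDerivAt_coord (i : Fin 2) (x : E) :
    HasFDerivAt (fun y : E => y i) (EuclideanSpace.proj i : E →L[ℝ] ℝ) x :=
  (EuclideanSpace.proj i : E →L[ℝ] ℝ).hasFDerivAt

theorem inner_e0 (x : E) : inner ℝ x e0 = x 0 := by
  simp [e0, EuclideanSpace.inner_single_right]

theorem inner_e1 (x : E) : inner ℝ x e1 = x 1 := by
  simp [e1, EuclideanSpace.inner_single_right]

theorem hasFDerivAt_stream {g θ : E → ℝ} {D : ℝ} {x : E} (hx : x ≠ 0)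
    (hD : HasDerivAt (samp (kern g) θ) (D / ‖x‖) ‖x‖) :
    HasFDerivAt (stream g θ)
      ((x 0 * x 1 / ‖x‖) • ((D / ‖x‖) • (‖x‖⁻¹ • (innerSL ℝ x))) +
        (samp (kern g) θ ‖x‖) •
          ((x 0 * x 1) • ((-(‖x‖ ^ 2)⁻¹) • (‖x‖⁻¹ • (innerSL ℝ x))) +
            (‖x‖⁻¹) • (x 0 • (EuclideanSpace.proj 1 : E →L[ℝ] ℝ) +
              x 1 • (EuclideanSpace.proj 0 : E →L[ℝ] ℝ)))) x := by
  have hr : 0 < ‖x‖ := norm_pos_iff.2 hx
  have hn := hasFDerivAt_norm' hx
  have h1 : HasFDerivAt (fun y : E => samp (kern g) θ ‖y‖)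
      ((D / ‖x‖) • (‖x‖⁻¹ • (innerSL ℝ x))) x := hD.comp_hasFDerivAt x hn
  have h2 : HasFDerivAt (fun y : E => ‖y‖⁻¹) ((-(‖x‖ ^ 2)⁻¹) • (‖x‖⁻¹ • (innerSL ℝ x))) x :=
    (hasDerivAt_inv hr.ne').comp_hasFDerivAt x hn
  have h3 := (hasFDerivAt_coord 0 x).mul (hasFDerivAt_coord 1 x)
  have h4 := (h3.mul h2).mul h1
  exact h4

end VELM

open VELM in
theorem specVEL (hDER : SpecDER) (hSUPP : SpecSUPP) : SpecVEL := by
  intro g θ hg hθ
  obtain ⟨h1, h2, h3, h4, h5, h6, h7, h8, h9, h10, h11⟩ := hSUPP g hg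
  constructor
  · have heven : (fun x : E => stream g θ (-x)) = stream g θ := by
      funext x
      simp only [stream, norm_neg]
      congr 1
      show (-x) 0 * (-x) 1 / ‖x‖ = x 0 * x 1 / ‖x‖
      have e0' : (-x) 0 = -(x 0) := rfl
      have e1' : (-x) 1 = -(x 1) := rfl
      rw [e0', e1']
      ring
    have hz : fderiv ℝ (stream g θ) 0 = 0 := by
      by_cases hd : DifferentiableAt ℝ (stream g θ) 0
      · have h0 : HasFDerivAt (stream g θ) (fderiv ℝ (stream g θ) 0) (-(0 : E)) := by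
          rw [neg_zero]
          exact hd.hasFDerivAt
        have hneg : HasFDerivAt (fun x : E => -x) (-(ContinuousLinearMap.id ℝ E)) 0 :=
          (hasFDerivAt_id (0 : E)).neg
        have h1 := h0.comp (0 : E) hneg
        have h2 : (stream g θ ∘ fun x : E => -x) = stream g θ := heven
        rw [h2] at h1
        have h3 := h1.fderiv
        ext v
        have h4 := congrArg (fun A : E →L[ℝ] ℝ => A v) h3
        simp only [ContinuousLinearMap.comp_apply, neg_apply,
          ContinuousLinearMap.id_apply, map_neg] at h4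
        simp only [zero_apply]
        linarith
      · exact fderiv_zero_of_not_differentiableAt hd
    unfold vel
    rw [hz]
    ext i
    fin_cases i <;> simp
  · intro x hx
    have hr : 0 < ‖x‖ := norm_pos_iff.2 hx
    have hD := hDER (kern g) θ h2 h3 hθ ‖x‖ hr
    have hs := (hasFDerivAt_stream hx hD).fderiv
    have hsq := norm_sq x
    set C := samp (kern g) θ ‖x‖ with hC
    set D := samp (gp (kern g)) θ ‖x‖ with hDd
    have v1 : fderiv ℝ (stream g θ) x e1 =
        x 0 * (C * x 0 ^ 2 + D * x 1 ^ 2) / ‖x‖ ^ 3 := by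
      rw [hs]
      simp only [add_apply, smul_apply, innerSL_apply_apply,
        smul_eq_mul, inner_e1]
      have p1 : (EuclideanSpace.proj 1 : E →L[ℝ] ℝ) e1 = 1 := by simp [e1]
      have p0 : (EuclideanSpace.proj 0 : E →L[ℝ] ℝ) e1 = 0 := by simp [e1]
      rw [p1, p0]
      field_simp
      have : ‖x‖ ^ 2 = x 0 ^ 2 + x 1 ^ 2 := hsq
      linear_combination (C * x 0) * this
    have v0 : fderiv ℝ (stream g θ) x e0 =
        x 1 * (C * x 1 ^ 2 + D * x 0 ^ 2) / ‖x‖ ^ 3 := by
      rw [hs]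
      simp only [add_apply, smul_apply, innerSL_apply_apply,
        smul_eq_mul, inner_e0]
      have p1 : (EuclideanSpace.proj 1 : E →L[ℝ] ℝ) e0 = 0 := by simp [e0]
      have p0 : (EuclideanSpace.proj 0 : E →L[ℝ] ℝ) e0 = 1 := by simp [e0]
      rw [p1, p0]
      field_simp
      have : ‖x‖ ^ 2 = x 0 ^ 2 + x 1 ^ 2 := hsq
      linear_combination (C * x 1) * this
    unfold vel U
    rw [v1, v0, neg_div]

end Pool.Agent.Lib.MP96bed6
end
end

section
/-!
# ZER: `∫ gp g = 0`
-/
set_option autoImplicit false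

open MeasureTheory Filter Topology Set
open scoped ENNReal ContDiff NNReal

noncomputable section

namespace Pool.Agent.Lib.MP96bed6

theorem specZER (hDER : SpecDER) (hSUPP : SpecSUPP) : SpecZER := by
  intro g hg
  have h1 := hDER g (fun _ => 1) hg.smooth (hSUPP g hg).1 continuous_const 1 one_pos
  have h2 : samp g (fun _ => 1) = fun _ => ∫ z, g z := by
    funext r
    simp only [samp, one_mul]
  rw [h2] at h1
  have h3 := h1.unique (hasDerivAt_const (1 : ℝ) (∫ z, g z))
  rw [div_one] at h3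
  simpa only [samp, one_mul] using h3

end Pool.Agent.Lib.MP96bed6
end
end
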