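import Mathlib

/-!
# MP_96bed6_an: incompressible active scalars of order zero with supercritical dissipation can lose continuity

Definitions only.  `E = ℝ²`, the velocity law `vel g`, the fractional Laplacian and classical solutions.
-/

set_option autoImplicit false

open MeasureTheory Filter Topology Set
open scoped ENNReal ContDiff NNReal

noncomputable section

namespace Pool.Agent.Lib.MP96bed6

/-- The plane `ℝ²` with the Euclidean norm. -/
abbrev E : Type := EuclideanSpace ℝ (Fin 2)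

/-- The first basis vector. -/
def e0 : E := EuclideanSpace.single 0 1

/-- The second basis vector. -/
def e1 : E := EuclideanSpace.single 1 1

/-- The reflection `(x₁, x₂) ↦ (-x₁, x₂)`. -/
def refl (x : E) : E := !₂[-(x 0), x 1]

/-- The sampling kernel `g(-z₁, z₂) - g(z₁, z₂)`. -/
def kern (g : E → ℝ) (z : E) : ℝ := g (refl z) - g z

/-- The stream function `ψ(x) = (x₁x₂/|x|) ∫ θ(|x|z) (g(-z₁,z₂) - g(z₁,z₂)) dz`. -/
def stream (g : E → ℝ) (θ : E → ℝ) (x : E) : ℝ :=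
  x 0 * x 1 / ‖x‖ * ∫ z : E, θ (‖x‖ • z) * kern g z

/-- The velocity law `Tθ = ∇^⊥ψ = (-∂₂ψ, ∂₁ψ)`. -/
def vel (g : E → ℝ) (θ : E → ℝ) (x : E) : E :=
  !₂[-(fderiv ℝ (stream g θ) x e1), fderiv ℝ (stream g θ) x e0]

/-- `∫ (f(x) - f(y)) |x-y|^(-2-2α) dy`: the fractional Laplacian `(-Δ)^α f(x)` up to a positive constant
depending only on `α`. -/
def fracLap (α : ℝ) (f : E → ℝ) (x : E) : ℝ := ∫ y : E, (f x - f y) / ‖x - y‖ ^ (2 + 2 * α)

/-- Classical solutions on `[0, τ]` of `∂ₜθ + (Tθ + w)·∇θ + κ(-Δ)^α θ = 0` with `θ = θ₀` at time `0`: `θ` is continuous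
on `[0, τ] × ℝ²`, tends to `0` at infinity uniformly in `t ∈ [0, τ]`, and for `0 < t < τ` and all `x` it is
differentiable in `t` and in `x` and satisfies the equation. -/
structure IsSol (α κ τ : ℝ) (T : (E → ℝ) → E → E) (w : ℝ → E → E) (θ₀ : E → ℝ) (θ : ℝ → E → ℝ) : Prop where
  init : θ 0 = θ₀
  cont : ContinuousOn (fun p : ℝ × E => θ p.1 p.2) (Icc 0 τ ×ˢ univ)
  decay : ∀ η : ℝ, 0 < η → ∃ R : ℝ, ∀ t ∈ Icc (0 : ℝ) τ, ∀ x : E, R ≤ ‖x‖ → |θ t x| ≤ η
  dt : ∀ t ∈ Ioo (0 : ℝ) τ, ∀ x : E, DifferentiableAt ℝ (fun s => θ s x) t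
  dx : ∀ t ∈ Ioo (0 : ℝ) τ, ∀ x : E, DifferentiableAt ℝ (θ t) x
  eqn : ∀ t ∈ Ioo (0 : ℝ) τ, ∀ x : E,
    deriv (fun s => θ s x) t + fderiv ℝ (θ t) x (T (θ t) x + w t x) + κ * fracLap α (θ t) x = 0

/-- The hypotheses on the sampling function `g`: smooth, nonnegative, not identically zero, even in `z₂`, and supported
in the open set `{3 < z₁ < 5, 3|z₂| < z₁}`. -/
structure IsSampler (g : E → ℝ) : Prop where
  smooth : ContDiff ℝ ∞ g
  nonneg : ∀ z, 0 ≤ g z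
  ne : ∃ z, g z ≠ 0
  even : ∀ z, g (-refl z) = g z
  supp : ∀ z, g z ≠ 0 → 3 < z 0 ∧ z 0 < 5 ∧ 3 * |z 1| < z 0

end Pool.Agent.Lib.MP96bed6
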