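import Pool.Agent.Lib.MP_96bed6_an.Defs

/-!
# MP_96bed6_an: classical solutions on a half-open time interval
-/

set_option autoImplicit false

open MeasureTheory Filter Topology Set
open scoped ENNReal ContDiff NNReal

noncomputable section

namespace Pool.Agent.Lib.MP96bed6

/-- Classical solutions on the time interval `[0, T')` of `∂ₜθ + V(t, θ(t))·∇θ + κ(-Δ)^α θ = 0` with `θ = θ₀` at time `0`:
`θ` is continuous on `[0, T') × ℝ²`, tends to `0` as `|x| → ∞` locally uniformly in `t ∈ [0, T')`, and for `0 < t < T'` and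
all `x` it is differentiable in `t` and in `x` and satisfies the equation. -/
structure IsSolOn (α κ T' : ℝ) (V : ℝ → (E → ℝ) → E → E) (θ₀ : E → ℝ) (θ : ℝ → E → ℝ) : Prop where
  init : θ 0 = θ₀
  cont : ContinuousOn (fun p : ℝ × E => θ p.1 p.2) (Ico 0 T' ×ˢ univ)
  decay : ∀ t ∈ Ico (0 : ℝ) T', ∀ η : ℝ, 0 < η → ∃ R : ℝ, ∀ s ∈ Icc (0 : ℝ) t, ∀ x : E, R ≤ ‖x‖ → |θ s x| ≤ η
  dt : ∀ t ∈ Ioo (0 : ℝ) T', ∀ x : E, DifferentiableAt ℝ (fun s => θ s x) t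
  dx : ∀ t ∈ Ioo (0 : ℝ) T', ∀ x : E, DifferentiableAt ℝ (θ t) x
  eqn : ∀ t ∈ Ioo (0 : ℝ) T', ∀ x : E,
    deriv (fun s => θ s x) t + fderiv ℝ (θ t) x (V t (θ t) x) + κ * fracLap α (θ t) x = 0

end Pool.Agent.Lib.MP96bed6
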