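import Pool.Agent.Lib.MP_96bed6_an.Spec3

section
set_option autoImplicit false

open MeasureTheory Filter Topology Set
open scoped ENNReal ContDiff NNReal

noncomputable section

namespace Pool.Agent.Lib.MP96bed6

namespace CORE3M

lemma isLin_neg (hFLA : SpecFLA) {α κ τ : ℝ} {v : ℝ → E → E} {Θ : ℝ → E → ℝ} (h : IsLin α κ τ v Θ) :
    IsLin α κ τ v (fun t x => -Θ t x) where
  cont := h.cont.neg
  decay := by
    intro η hη
    obtain ⟨R, hR⟩ := h.decay η hη
    exact ⟨R, fun t ht x hx => by simpa using hR t ht x hx⟩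
  dt := fun t ht x => (h.dt t ht x).neg
  dx := fun t ht x => (h.dx t ht x).neg
  eqn := by
    intro t ht x
    have h1 := h.eqn t ht x
    have h2 : deriv (fun s => -Θ s x) t = -deriv (fun s => Θ s x) t := by
      simp [deriv.fun_neg]
    have h3 : fderiv ℝ (fun y => -Θ t y) x (v t x) = -fderiv ℝ (Θ t) x (v t x) := by
      rw [fderiv_fun_neg]; rfl
    have h4 : fracLap α (fun y => -Θ t y) x = -fracLap α (Θ t) x := by
      have := (hFLA α (Θ t) x).1 (-1) 0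
      simpa using this
    rw [h2, h3, h4]
    linarith

lemma abs_le_one (hMAX : SpecMAX) (hFLA : SpecFLA) {α κ τ : ℝ} {v : ℝ → E → E} {Θ : ℝ → E → ℝ}
    (h0 : 0 < α) (h1 : α < 1 / 2) (hκ : 0 ≤ κ) (hτ : 0 < τ)
    (h : IsLin α κ τ v Θ) (hb : ∀ x, |Θ 0 x| ≤ 1) : ∀ t ∈ Ico 0 τ, ∀ x, |Θ t x| ≤ 1 := by
  intro t ht x
  rw [abs_le]
  constructor
  · have := hMAX α κ τ v (fun t x => -Θ t x) h0 h1 hκ hτ (isLin_neg hFLA h) 1 zero_le_one
      (fun x => by have := (abs_le.1 (hb x)).1; linarith) t ht x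
    linarith
  · exact hMAX α κ τ v Θ h0 h1 hκ hτ h 1 zero_le_one (fun x => (abs_le.1 (hb x)).2) t ht x

lemma int_pos_sampler (hSUPP : SpecSUPP) {g : E → ℝ} (hg : IsSampler g) : 0 < ∫ z, g z :=
  (hSUPP g hg).2.2.2.2.2.2.2.2.2.2

lemma bar_cont (hBLP : SpecBLP) {l p q : ℝ} (hl : 0 < l) (hl1 : l ≤ 1) (hq : 0 ≤ q) : Continuous (bar l p q) := by
  obtain ⟨K, hK1, hK⟩ := hBLP
  have hKl : 0 ≤ K / l := by positivity
  refine (LipschitzWith.of_dist_le_mul (K := ⟨K / l, hKl⟩) ?_).continuous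
  intro x y
  rw [Real.dist_eq, dist_eq_norm]
  exact hK l p q hl hl1 hq x y

end CORE3M

open CORE3M

theorem specCORE3 (hTCH : SpecTCH) (hCPT : SpecCPT) (hMAX : SpecMAX) (hFLA : SpecFLA) (hFLB : SpecFLB)
    (hBVL : SpecBVL) (hBDX : SpecBDX) (hBDT : SpecBDT) (hBLP : SpecBLP) (hBCT : SpecBCT) (hINQ : SpecINQ)
    (hSAM : SpecSAM) (hSUPP : SpecSUPP) : SpecCORE3 := by
  intro α κ M τ g hg hα hα2 hκ hM hτ
  have hm : 0 < ∫ z, g z := int_pos_sampler hSUPP hg
  obtain ⟨KL, hKL1, hKL⟩ := id hBLP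
  set m : ℝ := ∫ z, g z with hmdef
  set K : ℝ := 2 * ∫ z, |gp g z| with hKdef
  have hK0 : 0 ≤ K := by
    have : 0 ≤ ∫ z, |gp g z| := integral_nonneg fun z => abs_nonneg _
    rw [hKdef]; linarith
  set N : ℝ := 2 * m + K with hNdef
  have hN : 0 < N := by positivity
  have hNm : 2 * m ≤ N := by rw [hNdef]; linarith
  set c : ℝ := M * m / 4 with hcdef
  have hc : 0 < c := by positivity
  set β : ℝ := 1 - 2 * α with hβdef
  have hβ : 0 < β := by rw [hβdef]; linarith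
  have hPH : 0 ≤ PHI α := by
    unfold PHI
    exact integral_nonneg fun z => by positivity
  set A : ℝ := 2 * κ * PHI α * KL ^ (2 * α) + 1 with hAdef
  have hKLp : 0 < KL ^ (2 * α) := Real.rpow_pos_of_pos (by linarith) _
  have hA : 0 < A := by positivity
  set D1 : ℝ := A / (β * c) with hD1def
  have hD1 : 0 < D1 := by positivity
  set δs : ℝ := m / (2 * N) with hδsdef
  have hδs : 0 < δs := by positivity
  have hδs4 : δs ≤ 1 / 4 := by
    rw [hδsdef, div_le_iff₀ (by positivity)]; linarith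
  have hδN : δs * N = m / 2 := by
    rw [hδsdef]; field_simp
  -- choice of l₀
  obtain ⟨l₀, hl0, hl1, hlτ, hlN, hlδ⟩ : ∃ l₀ : ℝ, 0 < l₀ ∧ l₀ ≤ 1 ∧ 4 * l₀ < M * m * τ ∧ 2100 * N * l₀ ≤ m ∧
      D1 * l₀ ^ β ≤ δs / 2 := by
    refine ⟨min (min 1 (M * m * τ / 8)) (min (m / (2100 * N)) ((δs / (2 * D1)) ^ (1 / β))), ?_, ?_, ?_, ?_, ?_⟩
    · refine lt_min (lt_min one_pos (by positivity)) (lt_min (by positivity) ?_)
      exact Real.rpow_pos_of_pos (by positivity) _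
    · exact (min_le_left _ _).trans (min_le_left _ _)
    · have : min (min 1 (M * m * τ / 8)) (min (m / (2100 * N)) ((δs / (2 * D1)) ^ (1 / β))) ≤ M * m * τ / 8 :=
        (min_le_left _ _).trans (min_le_right _ _)
      have h2 : 0 < M * m * τ := by positivity
      linarith
    · have : min (min 1 (M * m * τ / 8)) (min (m / (2100 * N)) ((δs / (2 * D1)) ^ (1 / β))) ≤ m / (2100 * N) :=
        (min_le_right _ _).trans (min_le_left _ _)
      calc 2100 * N * min (min 1 (M * m * τ / 8)) (min (m / (2100 * N)) ((δs / (2 * D1)) ^ (1 / β)))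
          ≤ 2100 * N * (m / (2100 * N)) := by gcongr
        _ = m := by field_simp
    · set X := min (min 1 (M * m * τ / 8)) (min (m / (2100 * N)) ((δs / (2 * D1)) ^ (1 / β))) with hX
      have hX0 : 0 < X := by
        refine lt_min (lt_min one_pos (by positivity)) (lt_min (by positivity) ?_)
        exact Real.rpow_pos_of_pos (by positivity) _
      have hXle : X ≤ (δs / (2 * D1)) ^ (1 / β) := (min_le_right _ _).trans (min_le_right _ _)
      have h1 : X ^ β ≤ ((δs / (2 * D1)) ^ (1 / β)) ^ β := Real.rpow_le_rpow hX0.le hXle hβ.le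
      rw [← Real.rpow_mul (by positivity), one_div, inv_mul_cancel₀ hβ.ne', Real.rpow_one] at h1
      calc D1 * X ^ β ≤ D1 * (δs / (2 * D1)) := by gcongr
        _ = δs / 2 := by field_simp
  refine ⟨l₀, δs / 4, hl0, hl1, hlτ, hlN, by positivity, by linarith, ?_⟩
  intro T' hT' v Θ hLin hvel hb0 hbar0 i₁ t₁ ht₁0 ht₁T ht₁ x₁
  -- facts on times
  have hl : ∀ t : ℝ, t ≤ t₁ → 0 < l₀ - c * t := by
    intro t ht
    have : c * t ≤ c * t₁ := by gcongr
    linarith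
  have hl' : ∀ t : ℝ, 0 ≤ t → l₀ - c * t ≤ l₀ := by
    intro t ht
    have : 0 ≤ c * t := by positivity
    linarith
  have hτt : ∀ t : ℝ, t ≤ t₁ → t < T' := fun t ht => lt_of_le_of_lt ht ht₁T
  have hct : ∀ t : ℝ, 0 ≤ t → t ≤ t₁ → M * m * t < 4 * l₀ := by
    intro t _ ht
    have h1 : c * t < l₀ := by have := hl t ht; linarith
    have h2 : M * m * t = 4 * (c * t) := by rw [hcdef]; ring
    rw [h2]; linarith
  have hMN : ∀ t : ℝ, 0 ≤ t → t ≤ t₁ → M * N * t * 525 ≤ 1 := by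
    intro t ht0 ht
    have h1 := hct t ht0 ht
    -- M N t * m = N * (M m t) < N * 4 l₀ ≤ 4 m / 2100
    have h2 : M * N * t * 525 * m ≤ 1 * m := by
      have h3 : M * N * t * 525 * m = 525 * N * (M * m * t) := by ring
      rw [h3]
      calc 525 * N * (M * m * t) ≤ 525 * N * (4 * l₀) := by gcongr
        _ = 2100 * N * l₀ := by ring
        _ ≤ 1 * m := by linarith
    exact le_of_mul_le_mul_right h2 hm
  set V : ℝ := 2 * M * N with hVdef
  set V2 : ℝ := 7 * M * N with hV2def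
  have hV0 : 0 < V := by positivity
  have hV20 : 0 < V2 := by positivity
  have hVt : ∀ t : ℝ, 0 ≤ t → t ≤ t₁ → V * t ≤ 2 / 525 := by
    intro t ht0 ht
    have := hMN t ht0 ht
    have h2 : V * t = 2 * (M * N * t) := by rw [hVdef]; ring
    rw [h2]; linarith
  have hV2t : ∀ t : ℝ, 0 ≤ t → t ≤ t₁ → V2 * t ≤ 1 / 72 := by
    intro t ht0 ht
    have := hMN t ht0 ht
    have h2 : V2 * t = 7 * (M * N * t) := by rw [hV2def]; ring
    rw [h2]; linarith
  have hl4200 : l₀ ≤ 1 / 4200 := by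
    have : 2100 * (2 * m) * l₀ ≤ 2100 * N * l₀ := by gcongr
    have h2 : 4200 * l₀ * m ≤ 1 * m := by nlinarith
    have := le_of_mul_le_mul_right h2 hm
    linarith
  -- the function δ
  set δ : ℝ → ℝ := fun t => δs / 2 + D1 * (l₀ ^ β - (l₀ - c * t) ^ β) with hδdef
  have hδlow : ∀ t : ℝ, 0 ≤ t → t ≤ t₁ → δs / 2 ≤ δ t := by
    intro t ht0 ht
    have : (l₀ - c * t) ^ β ≤ l₀ ^ β := Real.rpow_le_rpow (hl t ht).le (hl' t ht0) hβ.le
    have h2 : 0 ≤ D1 * (l₀ ^ β - (l₀ - c * t) ^ β) := mul_nonneg hD1.le (by linarith)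
    simp only [hδdef]; linarith
  have hδup : ∀ t : ℝ, 0 ≤ t → t ≤ t₁ → δ t ≤ δs := by
    intro t ht0 ht
    have : 0 ≤ (l₀ - c * t) ^ β := Real.rpow_nonneg (hl t ht).le _
    have h2 : D1 * (l₀ ^ β - (l₀ - c * t) ^ β) ≤ D1 * l₀ ^ β := by gcongr; linarith
    simp only [hδdef]; linarith
  have hδder : ∀ t : ℝ, t ≤ t₁ → HasDerivAt δ (A * (l₀ - c * t) ^ (-(2 * α))) t := by
    intro t ht
    have h1 : HasDerivAt (fun s : ℝ => l₀ - c * s) (-c) t := by
      simpa using ((hasDerivAt_id t).const_mul c).const_sub l₀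
    have h2 := (h1.rpow_const (p := β) (Or.inl (hl t ht).ne')).const_sub (l₀ ^ β)
    have h3 := (h2.const_mul D1).const_add (δs / 2)
    refine h3.congr_deriv ?_
    have h4 : β - 1 = -(2 * α) := by rw [hβdef]; ring
    rw [h4, hD1def]
    field_simp
  -- the barrier differences
  set D : Fin 2 → ℝ → E → ℝ := fun i t x =>
    Θ i t x + 1 - 2 * bar (l₀ - c * t) (V * t) (V2 * t) x + δ t with hDdef
  by_contra hcon
  push Not at hcon
  have ht₁pos : 0 < t₁ := by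
    rcases ht₁0.lt_or_eq with h | h
    · exact h
    · exfalso
      rw [← h] at hcon
      have := hbar0 i₁ x₁
      simp only [mul_zero, sub_zero] at hcon
      linarith
  have hΘ1 : ∀ i, ∀ t ∈ Ico 0 T', ∀ x, |Θ i t x| ≤ 1 := fun i =>
    abs_le_one hMAX hFLA hα hα2 hκ hT' (hLin i) (hb0 i)
  have hδcont : ContinuousOn (fun p : ℝ × E => δ p.1) (Icc 0 t₁ ×ˢ univ) := by
    intro p hp
    have h1 : ContinuousAt δ p.1 := (hδder p.1 hp.1.2).continuousAt
    exact (h1.comp continuousAt_fst).continuousWithinAt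
  have hDcont : ∀ i, ContinuousOn (fun p : ℝ × E => D i p.1 p.2) (Icc 0 t₁ ×ˢ univ) := by
    intro i
    have h1 : ContinuousOn (fun p : ℝ × E => Θ i p.1 p.2) (Icc 0 t₁ ×ˢ univ) :=
      (hLin i).cont.mono (prod_mono (Icc_subset_Icc le_rfl (hτt t₁ le_rfl).le) subset_rfl)
    have h2 := hBCT l₀ c V V2 t₁ (fun t ht => hl t ht.2)
    exact ((h1.add continuousOn_const).sub (continuousOn_const.mul h2)).add hδcont
  have hD0 : ∀ i x, 0 < D i 0 x := by
    intro i x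
    have h1 := hbar0 i x
    have h2 := hδlow 0 le_rfl ht₁0
    simp only [hDdef, mul_zero, sub_zero]
    linarith
  obtain ⟨R₀, hR₀⟩ := (hLin 0).decay (1 / 2) (by norm_num)
  obtain ⟨R₁, hR₁⟩ := (hLin 1).decay (1 / 2) (by norm_num)
  have hDinf : ∀ i, ∀ t ∈ Icc 0 t₁, ∀ x : E, max (max R₀ R₁) 3 ≤ ‖x‖ → 0 < D i t x := by
    intro i t ht x hx
    have hx0 : R₀ ≤ ‖x‖ := ((le_max_left _ _).trans (le_max_left _ _)).trans hx
    have hx1 : R₁ ≤ ‖x‖ := ((le_max_right _ _).trans (le_max_left _ _)).trans hx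
    have hx3 : 3 ≤ ‖x‖ := (le_max_right _ _).trans hx
    have htτ : t ∈ Icc 0 T' := ⟨ht.1, (hτt t ht.2).le⟩
    have hΘ : |Θ i t x| ≤ 1 / 2 := by
      fin_cases i
      · exact hR₀ t htτ x hx0
      · exact hR₁ t htτ x hx1
    have hbz : bar (l₀ - c * t) (V * t) (V2 * t) x = 0 := by
      by_contra hne
      have hb := hBVL (l₀ - c * t) (V * t) (V2 * t) x (hl t ht.2)
      have hpos : 0 < bar (l₀ - c * t) (V * t) (V2 * t) x := lt_of_le_of_ne hb.1.1 (Ne.symm hne)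
      obtain ⟨h1, h2, h3⟩ := hb.2.1 hpos
      have hx0pos : 0 < x 0 := (hl t ht.2).trans h1
      have hp0 : 0 ≤ V * t := mul_nonneg hV0.le ht.1
      have hq0 : 0 ≤ V2 * t := mul_nonneg hV20.le ht.1
      have h4 : x 0 < 2 := by linarith
      have h5 : x 1 ^ 2 / x 0 ^ 2 < 1 / 4 := by linarith
      rw [div_lt_iff₀ (by positivity)] at h5
      have h6 : ‖x‖ ^ 2 = x 0 ^ 2 + x 1 ^ 2 := by
        rw [EuclideanSpace.norm_sq_eq]; simp [Fin.sum_univ_two]
      nlinarith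
    have h1 := (abs_le.1 hΘ).1
    have h2 := hδlow t ht.1 ht.2
    simp only [hDdef, hbz]
    linarith
  have hex : ∃ i, ∃ t ∈ Icc 0 t₁, ∃ x, D i t x ≤ 0 := by
    refine ⟨i₁, t₁, ⟨ht₁0, le_rfl⟩, x₁, ?_⟩
    have h2 := hδup t₁ ht₁0 le_rfl
    simp only [hDdef]
    linarith
  obtain ⟨i, t, ht, x, hDx, hDlt, hDge⟩ := hCPT t₁ _ D ht₁pos hDcont hD0 hDinf hex
  have ht0 : 0 ≤ t := ht.1.le
  have htt : t ≤ t₁ := ht.2
  set l : ℝ := l₀ - c * t with hldef
  have hlpos : 0 < l := hl t htt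
  have hlle : l ≤ l₀ := hl' t ht0
  have hq0 : 0 ≤ V2 * t := mul_nonneg hV20.le ht0
  have hp0 : 0 ≤ V * t := mul_nonneg hV0.le ht0
  have htτ' : t ∈ Ico 0 T' := ⟨ht0, hτt t htt⟩
  have hΘx := (abs_le.1 (hΘ1 i t htτ' x)).1
  have hδpos : 0 < δ t := by have := hδlow t ht0 htt; linarith
  have hbpos : 0 < bar l (V * t) (V2 * t) x := by
    have h1 : Θ i t x + 1 - 2 * bar l (V * t) (V2 * t) x + δ t = 0 := hDx
    linarith
  obtain ⟨hx1, hx2, hx3⟩ := (hBVL l (V * t) (V2 * t) x hlpos).2.1 hbpos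
  have hx0pos : 0 < x 0 := hlpos.trans hx1
  have hxne : x ≠ 0 := by
    rintro rfl
    simp at hx0pos
  have hΘc : ∀ j, Continuous (Θ j t) := by
    intro j
    rw [← continuousOn_univ]
    have h1 := (hLin j).cont
    have h2 : ContinuousOn (fun y : E => ((t, y) : ℝ × E)) univ := by fun_prop
    exact h1.comp h2 (fun y _ => ⟨⟨ht0, (hτt t htt).le⟩, mem_univ _⟩)
  have hbarle : ∀ j y, -1 + 2 * bar l (V * t) (V2 * t) y - δ t ≤ Θ j t y := by
    intro j y
    have h1 : 0 ≤ Θ j t y + 1 - 2 * bar l (V * t) (V2 * t) y + δ t := hDge j y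
    linarith
  obtain ⟨hS1, hS2, hS3⟩ := hSAM g hg (Θ 0 t) (Θ 1 t) (hΘc 0) (hΘc 1) (hΘ1 0 t htτ') (hΘ1 1 t htτ') ‖x‖
  set C : ℝ := samp g (Θ 0 t) ‖x‖ + samp g (Θ 1 t) ‖x‖ with hCdef
  set Dd : ℝ := samp (gp g) (Θ 0 t) ‖x‖ + samp (gp g) (Θ 1 t) ‖x‖ with hDddef
  have hgood : l ≤ ‖x‖ → 5 * ‖x‖ + V * t ≤ 1 → |Dd| ≤ m / 2 ∧ 3 / 2 * m ≤ C - |Dd| := by
    intro ha hb
    obtain ⟨h1, h2⟩ := hS3 l (V * t) (V2 * t) (δ t) hlpos hδpos.le (hV2t t ht0 htt) (hbarle 0) (hbarle 1) ha hb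
    have h3 : δ t ≤ δs := hδup t ht0 htt
    have h4 : δ t * K ≤ δs * K := by gcongr
    have h5 : δs * K ≤ m / 2 := by
      have : δs * K ≤ δs * N := by
        have : K ≤ N := by rw [hNdef]; linarith
        gcongr
      linarith
    constructor
    · linarith
    · have h6 : δ t * m ≤ δs * m := by gcongr
      have h7 : δs * N = 2 * (δs * m) + δs * K := by rw [hNdef]; ring
      nlinarith
  have htIoo : t ∈ Ioo 0 T' := ⟨ht.1, hτt t htt⟩
  obtain ⟨w', hw', hvx⟩ := hvel i t htIoo x hxne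
  have hinq := hINQ l (V * t) (V2 * t) m K M C Dd x w' hlpos hp0
    (by have := hVt t ht0 htt; linarith) (by have := hVt t ht0 htt; linarith) hq0 (hV2t t ht0 htt) hm hK0 hM
    hS1 hS2 hw' hgood hx1 hx2
  rw [← hvx] at hinq
  -- touching
  obtain ⟨Ax, hAx, hAxv⟩ := hBDX l (V * t) (V2 * t) x hlpos hx0pos
  have hBT := hBDT l₀ c V V2 t x hlpos hx0pos
  set G : ℝ → E → ℝ := fun s y => -1 + 2 * bar (l₀ - c * s) (V * s) (V2 * s) y - δ s with hGdef
  have hGt : HasDerivAt (fun s => G s x) (2 * barT l (V * t) (V2 * t) c V V2 x - A * l ^ (-(2 * α))) t :=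
    ((hBT.const_mul 2).const_add (-1)).sub (hδder t htt)
  have hGx : HasFDerivAt (G t) ((2 : ℝ) • Ax) x := by
    have h1 := ((hAx.const_mul 2).const_add (-1)).sub_const (δ t)
    exact h1
  have hbarc : Continuous (bar l (V * t) (V2 * t)) := bar_cont hBLP hlpos (hlle.trans hl1) hq0
  have hGc : Continuous (G t) := by
    have : G t = fun y => -1 + 2 * bar l (V * t) (V2 * t) y - δ t := rfl
    rw [this]
    fun_prop
  have hGb : ∀ y, |G t y| ≤ 2 := by
    intro y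
    have h1 := (hBVL l (V * t) (V2 * t) y hlpos).1
    have h2 := hδup t ht0 htt
    have h3 : G t y = -1 + 2 * bar l (V * t) (V2 * t) y - δ t := rfl
    rw [h3, abs_le]
    constructor <;> linarith [h1.1, h1.2]
  have htch := hTCH α κ T' (v i) (Θ i) hα hα2 hκ (hLin i) G t x 2 _ _ htIoo
    (by have h1 : Θ i t x + 1 - 2 * bar l (V * t) (V2 * t) x + δ t = 0 := hDx
        have h3 : G t x = -1 + 2 * bar l (V * t) (V2 * t) x - δ t := rfl
        rw [h3]; linarith)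
    (fun s hs => by
      have h1 := hDlt i s hs x
      have h2 : D i s x = Θ i s x - G s x := by simp only [hDdef, hGdef]; ring
      rw [h2] at h1; linarith)
    (fun y => hbarle i y) hGt hGc hGb hGx
  have hfl : fracLap α (G t) x = 2 * fracLap α (bar l (V * t) (V2 * t)) x := by
    have h1 := (hFLA α (bar l (V * t) (V2 * t)) x).1 2 (-1 - δ t)
    rw [← h1]
    congr 1
    funext y
    simp only [hGdef]
    ring
  have hflb : |fracLap α (bar l (V * t) (V2 * t)) x| ≤ (KL / l) ^ (2 * α) * PHI α :=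
    hFLB α hα hα2 _ (KL / l) x (by positivity) (fun y => (hBVL l (V * t) (V2 * t) y hlpos).1)
      (hKL l (V * t) (V2 * t) hlpos (hlle.trans hl1) hq0)
  have hdiv : (KL / l) ^ (2 * α) = KL ^ (2 * α) * l ^ (-(2 * α)) := by
    rw [Real.div_rpow (by linarith) hlpos.le, Real.rpow_neg hlpos.le, div_eq_mul_inv]
  have hlp : 0 < l ^ (-(2 * α)) := Real.rpow_pos_of_pos hlpos _
  rw [hfl] at htch
  have h9 : ((2 : ℝ) • Ax) (v i t x) = 2 * barX l (V * t) (V2 * t) x (v i t x) := by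
    rw [← hAxv]; simp
  rw [h9] at htch
  have h10 : κ * (2 * fracLap α (bar l (V * t) (V2 * t)) x) ≤ 2 * κ * (KL ^ (2 * α) * l ^ (-(2 * α)) * PHI α) := by
    have := (abs_le.1 hflb).2
    rw [hdiv] at this
    nlinarith
  have h11 : A * l ^ (-(2 * α)) = 2 * κ * (KL ^ (2 * α) * l ^ (-(2 * α)) * PHI α) + l ^ (-(2 * α)) := by
    rw [hAdef]; ring
  have h12 : barT l (V * t) (V2 * t) c V V2 x + barX l (V * t) (V2 * t) x (v i t x) ≤ 0 := hinq
  linarith

end Pool.Agent.Lib.MP96bed6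
end
end

section
/-!
# MP_96bed6_an, FIN3: the breakdown theorem for an open set of data
-/
set_option autoImplicit false

open MeasureTheory Filter Topology Set
open scoped ENNReal ContDiff NNReal

noncomputable section

namespace Pool.Agent.Lib.MP96bed6

namespace FIN3M

lemma isLin_neg (hFLA : SpecFLA) {α κ τ : ℝ} {v : ℝ → E → E} {Θ : ℝ → E → ℝ} (h : IsLin α κ τ v Θ) :
    IsLin α κ τ v (fun t x => -Θ t x) where
  cont := h.cont.neg
  decay := by
    intro η hη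
    obtain ⟨R, hR⟩ := h.decay η hη
    exact ⟨R, fun t ht x hx => by simpa using hR t ht x hx⟩
  dt := fun t ht x => (h.dt t ht x).neg
  dx := fun t ht x => (h.dx t ht x).neg
  eqn := by
    intro t ht x
    have h1 := h.eqn t ht x
    have h2 : deriv (fun s => -Θ s x) t = -deriv (fun s => Θ s x) t := by
      simp [deriv.fun_neg]
    have h3 : fderiv ℝ (fun y => -Θ t y) x (v t x) = -fderiv ℝ (Θ t) x (v t x) := by
      rw [fderiv_fun_neg]; rfl
    have h4 : fracLap α (fun y => -Θ t y) x = -fracLap α (Θ t) x := by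
      have := (hFLA α (Θ t) x).1 (-1) 0
      simpa using this
    rw [h2, h3, h4]
    linarith

lemma abs_le_of (hMAX : SpecMAX) (hFLA : SpecFLA) {α κ τ M : ℝ} {v : ℝ → E → E} {Θ : ℝ → E → ℝ}
    (h0 : 0 < α) (h1 : α < 1 / 2) (hκ : 0 ≤ κ) (hτ : 0 < τ) (hM : 0 ≤ M)
    (h : IsLin α κ τ v Θ) (hb : ∀ x, |Θ 0 x| ≤ M) : ∀ t ∈ Ico 0 τ, ∀ x, |Θ t x| ≤ M := by
  intro t ht x
  rw [abs_le]
  constructor
  · have := hMAX α κ τ v (fun t x => -Θ t x) h0 h1 hκ hτ (isLin_neg hFLA h) M hM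
      (fun x => by have := (abs_le.1 (hb x)).1; linarith) t ht x
    linarith
  · exact hMAX α κ τ v Θ h0 h1 hκ hτ h M hM (fun x => (abs_le.1 (hb x)).2) t ht x

/-- A solution on `[0, T')` is a solution of a linear equation on every smaller interval. -/
lemma isLin_of {α κ T' T'' : ℝ} {V : ℝ → (E → ℝ) → E → E} {θ₀ : E → ℝ} {θ : ℝ → E → ℝ}
    (h : IsSolOn α κ T' V θ₀ θ) (h0 : 0 < T'') (h1 : T'' < T') :
    IsLin α κ T'' (fun t x => V t (θ t) x) θ where
  cont := h.cont.mono (prod_mono (fun t ht => ⟨ht.1, lt_of_le_of_lt ht.2 h1⟩) subset_rfl)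
  decay := h.decay T'' ⟨h0.le, h1⟩
  dt := fun t ht x => h.dt t ⟨ht.1, ht.2.trans h1⟩ x
  dx := fun t ht x => h.dx t ⟨ht.1, ht.2.trans h1⟩ x
  eqn := fun t ht x => h.eqn t ⟨ht.1, ht.2.trans h1⟩ x

lemma cont_slice {T' : ℝ} {θ : ℝ → E → ℝ} (h : ContinuousOn (fun p : ℝ × E => θ p.1 p.2) (Ico 0 T' ×ˢ univ))
    {t : ℝ} (ht : t ∈ Ico 0 T') : Continuous (θ t) := by
  rw [← continuousOn_univ]
  have h2 : ContinuousOn (fun y : E => ((t, y) : ℝ × E)) univ := by fun_prop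
  exact h.comp h2 (fun y _ => ⟨ht, mem_univ _⟩)

end FIN3M

open FIN3M

theorem specFIN3 (hCORE3 : SpecCORE3) (hLIFT : SpecLIFT) (hDAT : SpecDAT) (hBVL : SpecBVL) (hSUPP : SpecSUPP)
    (hMAX : SpecMAX) (hFLA : SpecFLA) : SpecFIN3 := by
  intro g hg α κ M τ hα hα2 hκ hM hτ
  have hm : 0 < ∫ z, g z := (hSUPP g hg).2.2.2.2.2.2.2.2.2.2
  have hK0 : 0 ≤ ∫ z, |gp g z| := integral_nonneg fun z => abs_nonneg _
  obtain ⟨l₀, δ₀, hl0, hl1, hlτ, hlN, hδ0, hδ16, hcore⟩ := hCORE3 α κ M τ g hg hα hα2 hκ hM hτ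
  have hMb : 0 < M * (1 - δ₀ / 2) := by
    have : 0 < 1 - δ₀ / 2 := by linarith
    positivity
  obtain ⟨θ₁, hsm, hcs, hbd1, hd1', hd2'⟩ := hDAT l₀ (M * (1 - δ₀ / 2)) hl0 hl1 hMb
  set m : ℝ := ∫ z, g z with hmdef
  set J : ℝ := ∫ z, |gp g z| with hJdef
  set c : ℝ := M * m / 4 with hcdef
  have hc : 0 < c := by positivity
  set Ts : ℝ := l₀ / c with hTsdef
  have hTs : 0 < Ts := by positivity
  have hTsτ : Ts < τ := by
    rw [hTsdef, div_lt_iff₀ hc, hcdef]; linarith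
  have hcT : c * Ts = l₀ := by rw [hTsdef]; field_simp
  refine ⟨θ₁, M * δ₀ / 2, Ts, hsm, hcs, by positivity, fun x => by have := hbd1 x; linarith, hTs, hTsτ, ?_⟩
  intro θ₀ hclose S hS T' θ hT' hθ
  have hbd : ∀ x, |θ₀ x| ≤ M := by
    intro x
    have h1 := abs_le.1 (hclose x)
    have h2 := abs_le.1 (hbd1 x)
    rw [abs_le]
    constructor <;> linarith [h1.1, h1.2, h2.1, h2.2]
  have hd1 : ∀ x, -1 + 2 * bar l₀ 0 0 x - δ₀ ≤ -(θ₀ x) / M := by
    intro x
    have h1 := hd1' x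
    rw [le_div_iff₀ hMb] at h1
    rw [le_div_iff₀ hM]
    have h2 := abs_le.1 (hclose x)
    have h3 := (hBVL l₀ 0 0 x hl0).1
    have h4 : 0 ≤ M * δ₀ * (1 - bar l₀ 0 0 x) := by
      have := h3.2
      have h5 : 0 ≤ 1 - bar l₀ 0 0 x := by linarith
      positivity
    nlinarith [h2.1, h2.2, h3.1, h3.2]
  have hd2 : ∀ x, -1 + 2 * bar l₀ 0 0 x - δ₀ ≤ θ₀ (refl x) / M := by
    intro x
    have h1 := hd2' x
    rw [le_div_iff₀ hMb] at h1
    rw [le_div_iff₀ hM]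
    have h2 := abs_le.1 (hclose (refl x))
    have h3 := (hBVL l₀ 0 0 x hl0).1
    have h4 : 0 ≤ M * δ₀ * (1 - bar l₀ 0 0 x) := by
      have := h3.2
      have h5 : 0 ≤ 1 - bar l₀ 0 0 x := by linarith
      positivity
    nlinarith [h2.1, h2.2, h3.1, h3.2]
  have hθ0 : ∀ x, θ 0 x = θ₀ x := fun x => by rw [hθ.init]
  -- the moving point
  set X : ℝ → E := fun t => !₂[3 * (l₀ - c * t), 0] with hXdef
  have hXc : Continuous X := by
    rw [hXdef]
    refine (PiLp.continuous_toLp 2 _).comp ?_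
    refine continuous_pi fun i => ?_
    fin_cases i <;> simp <;> fun_prop
  have hXT : X Ts = 0 := by
    simp only [hXdef, hcT]
    ext i
    fin_cases i <;> simp
  have hrX : ∀ t, refl (X t) = -X t := by
    intro t
    ext i
    fin_cases i <;> simp [refl, hXdef]
  have hXn : ∀ t, t < Ts → ‖X t‖ = 3 / 4 * M * m * (Ts - t) := by
    intro t ht
    have h1 : 0 < l₀ - c * t := by
      have : c * t < c * Ts := by gcongr
      linarith
    have h2 : ‖X t‖ ^ 2 = (3 * (l₀ - c * t)) ^ 2 := by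
      rw [EuclideanSpace.norm_sq_eq]
      simp [Fin.sum_univ_two, hXdef]
    have h3 : ‖X t‖ = 3 * (l₀ - c * t) := by
      have := (sq_eq_sq₀ (norm_nonneg _) (by positivity)).1 h2
      exact this
    rw [h3, ← hcT, hcdef]; ring
  have hMN : ∀ t : ℝ, 0 ≤ t → c * t < l₀ → M * (2 * m + 2 * J) * t * 525 ≤ 1 := by
    intro t ht0 ht
    have h3 : M * (2 * m + 2 * J) * t * 525 * m = 2100 * (2 * m + 2 * J) * (c * t) := by rw [hcdef]; ring
    have h4 : M * (2 * m + 2 * J) * t * 525 * m ≤ 1 * m := by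
      rw [h3]
      calc 2100 * (2 * m + 2 * J) * (c * t) ≤ 2100 * (2 * m + 2 * J) * l₀ := by gcongr
        _ ≤ 1 * m := by linarith
    exact le_of_mul_le_mul_right h4 hm
  have hl4200 : l₀ ≤ 1 / 4200 := by
    have h3 : 2100 * (2 * m) * l₀ ≤ 2100 * (2 * m + 2 * J) * l₀ := by gcongr; linarith
    have h4 : 4200 * l₀ * m ≤ 1 * m := by nlinarith
    have := le_of_mul_le_mul_right h4 hm
    linarith
  -- the main lower bound
  have key : ∀ t ∈ Ico 0 T', t < Ts → θ t (X t) ≤ -(3 / 4 * M) ∧ 3 / 4 * M ≤ θ t (-X t) := by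
    intro t ht htTs
    set T₁ : ℝ := (t + T') / 2 with hT₁def
    have hT₁0 : 0 < T₁ := by rw [hT₁def]; linarith [ht.1]
    have htT₁ : t < T₁ := by rw [hT₁def]; linarith [ht.2]
    have hT₁T' : T₁ < T' := by rw [hT₁def]; linarith [ht.2]
    have hlin := isLin_of hθ hT₁0 hT₁T'
    have hbM : ∀ s ∈ Ico 0 T₁, ∀ x, |θ s x| ≤ M :=
      abs_le_of hMAX hFLA hα hα2 hκ hT₁0 hM.le hlin (fun x => by rw [hθ0]; exact hbd x)
    set w : ℝ → E → E := fun s x => if 0 < s ∧ s < T₁ then S s (θ s) x else 0 with hwdef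
    have hw : ∀ s x, ‖w s x‖ ≤ m / 10 * M := by
      intro s x
      simp only [hwdef]
      split_ifs with hs
      · refine hS s (θ s) (cont_slice hθ.cont ⟨hs.1.le, hs.2.trans hT₁T'⟩) (fun y => hbM s ⟨hs.1.le, hs.2⟩ y) x
      · rw [norm_zero]; positivity
    have hsol : IsSol α κ T₁ (vel g) w θ₀ θ := by
      refine ⟨hθ.init, hlin.cont, hlin.decay, hlin.dt, hlin.dx, fun s hs x => ?_⟩
      have h1 := hlin.eqn s hs x
      have h2 : w s x = S s (θ s) x := by simp only [hwdef]; rw [if_pos ⟨hs.1, hs.2⟩]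
      rw [h2]
      exact h1
    obtain ⟨v, Θ, h1, h2, hLin, hvel⟩ := hLIFT α κ T₁ M g w θ₀ θ hg hM hT₁0 hw hsol
    have hb0 : ∀ i x, |Θ i 0 x| ≤ 1 := by
      intro i x
      fin_cases i
      · simp only [Fin.zero_eta, Fin.isValue, h1, hθ0]
        rw [abs_div, abs_neg, abs_of_pos hM, div_le_one hM]
        exact hbd x
      · simp only [Fin.mk_one, Fin.isValue, h2, hθ0]
        rw [abs_div, abs_of_pos hM, div_le_one hM]
        exact hbd _
    have hbar0 : ∀ i x, -1 + 2 * bar l₀ 0 0 x - δ₀ ≤ Θ i 0 x := by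
      intro i x
      fin_cases i
      · simp only [Fin.zero_eta, Fin.isValue, h1, hθ0]; exact hd1 x
      · simp only [Fin.mk_one, Fin.isValue, h2, hθ0]; exact hd2 x
    have core := hcore T₁ hT₁0 v Θ hLin hvel hb0 hbar0
    have hct : c * t < l₀ := by
      have : c * t < c * Ts := by gcongr
      linarith
    have hlow : ∀ i, 3 / 4 ≤ Θ i t (X t) := by
      intro i
      have hb := core i t ht.1 htT₁ hct (X t)
      have hl : 0 < l₀ - c * t := by linarith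
      have hMNt := hMN t ht.1 hct
      have hX0 : X t 0 = 3 * (l₀ - c * t) := by simp [hXdef]
      have hX1 : X t 1 = 0 := by simp [hXdef]
      have hct0 : 0 ≤ c * t := mul_nonneg hc.le ht.1
      have hval := (hBVL (l₀ - c * t) (2 * M * (2 * m + 2 * J) * t) (7 * M * (2 * m + 2 * J) * t) (X t) hl).2.2
        (by rw [hX0]; linarith) (by rw [hX0, hX1]; nlinarith [sq_nonneg (3 * (l₀ - c * t))]) (by linarith)
        (by rw [hX0]; linarith)
      rw [hval] at hb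
      linarith
    have e1 := hlow 0
    have e2 := hlow 1
    rw [h1, le_div_iff₀ hM] at e1
    rw [h2, le_div_iff₀ hM, hrX] at e2
    exact ⟨by linarith, e2⟩
  -- no limit at `(Ts, 0)`
  have nolim : ∀ b : ℝ, Ts ≤ T' →
      ¬ Tendsto (fun p : ℝ × E => θ p.1 p.2) (𝓝[Ico 0 T' ×ˢ univ] (Ts, 0)) (𝓝 b) := by
    intro b hb hten
    have hmemI : ∀ᶠ t in 𝓝[<] Ts, t ∈ Ioo 0 Ts := Ioo_mem_nhdsLT hTs
    have hp1 : Tendsto (fun t : ℝ => ((t, X t) : ℝ × E)) (𝓝[<] Ts) (𝓝[Ico 0 T' ×ˢ univ] (Ts, (0 : E))) := by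
      refine tendsto_nhdsWithin_iff.2 ⟨?_, ?_⟩
      · have h5 : Tendsto (fun t : ℝ => ((t, X t) : ℝ × E)) (𝓝 Ts) (𝓝 (Ts, X Ts)) :=
          (continuous_id.prodMk hXc).tendsto Ts
        rw [hXT] at h5
        exact h5.mono_left nhdsWithin_le_nhds
      · filter_upwards [hmemI] with t ht
        exact ⟨⟨ht.1.le, lt_of_lt_of_le ht.2 hb⟩, mem_univ _⟩
    have hp2 : Tendsto (fun t : ℝ => ((t, -X t) : ℝ × E)) (𝓝[<] Ts) (𝓝[Ico 0 T' ×ˢ univ] (Ts, (0 : E))) := by
      refine tendsto_nhdsWithin_iff.2 ⟨?_, ?_⟩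
      · have h5 : Tendsto (fun t : ℝ => ((t, -X t) : ℝ × E)) (𝓝 Ts) (𝓝 (Ts, -X Ts)) :=
          (continuous_id.prodMk hXc.neg).tendsto Ts
        rw [hXT, neg_zero] at h5
        exact h5.mono_left nhdsWithin_le_nhds
      · filter_upwards [hmemI] with t ht
        exact ⟨⟨ht.1.le, lt_of_lt_of_le ht.2 hb⟩, mem_univ _⟩
    have hup : b ≤ -(3 / 4 * M) := by
      refine le_of_tendsto (hten.comp hp1) ?_
      filter_upwards [hmemI] with t ht
      exact (key t ⟨ht.1.le, lt_of_lt_of_le ht.2 hb⟩ ht.2).1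
    have hdn : 3 / 4 * M ≤ b := by
      refine ge_of_tendsto (hten.comp hp2) ?_
      filter_upwards [hmemI] with t ht
      exact (key t ⟨ht.1.le, lt_of_lt_of_le ht.2 hb⟩ ht.2).2
    linarith
  have hle : T' ≤ Ts := by
    by_contra hcon
    push Not at hcon
    have hcont := hθ.cont (Ts, (0 : E)) ⟨⟨hTs.le, hcon⟩, mem_univ _⟩
    exact nolim _ hcon.le hcont.tendsto
  refine ⟨hle, ?_, ?_, fun b hb => nolim b hb.ge⟩
  · intro t ht
    have htTs : t < Ts := lt_of_lt_of_le ht.2 hle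
    exact ⟨X t, hXn t htTs, key t ht htTs⟩
  · intro t ht L hL
    have htTs : t < Ts := lt_of_lt_of_le ht.2 hle
    obtain ⟨h1, h2⟩ := key t ht htTs
    have h3 := hL.dist_le_mul (-X t) (X t)
    rw [Real.dist_eq, dist_eq_norm] at h3
    have h4 : ‖-X t - X t‖ = 2 * ‖X t‖ := by
      have : -X t - X t = (-2 : ℝ) • X t := by module
      rw [this, norm_smul]; norm_num
    rw [h4, hXn t htTs] at h3
    have h5 : 3 / 2 * M ≤ θ t (-X t) - θ t (X t) := by linarith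
    have h6 := le_trans h5 (le_trans (le_abs_self _) h3)
    have h7 : 3 / 2 * M * 1 ≤ 3 / 2 * M * (L * (m * (Ts - t))) := by
      calc 3 / 2 * M * 1 = 3 / 2 * M := by ring
        _ ≤ _ := h6
        _ = 3 / 2 * M * (L * (m * (Ts - t))) := by ring
    exact le_of_mul_le_mul_left h7 (by positivity)

end Pool.Agent.Lib.MP96bed6
end
end
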