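import Pool.Agent.Lib.MP_96bed6_an.Defs

/-!
# MP_96bed6_an, Specs

Module `XXX` = file `Pool/Agent/Lib/MP_96bed6_an/XXX.lean`, theorem `specXXX (hYYY : SpecYYY) .. : SpecXXX` in namespace
`Pool.Agent.Lib.MP96bed6` (own lemmas in namespace `Pool.Agent.Lib.MP96bed6.XXXM`).  A module may take any other Spec as a
hypothesis as long as no circle arises (the docstring names the intended ones; `none` = no hypothesis).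

THE THEOREM.  `g` a sampler (`IsSampler`), `T = vel g`.  `T` is linear, commutes with dilations, is bounded on `L^p`
(`1 ≤ p ≤ ∞`) and on Lipschitz functions, maps smooth functions to smooth divergence free fields; and for every
`0 < α < 1/2`, `κ ≥ 0`, `M, τ > 0` there is a smooth compactly supported `θ₀`, `|θ₀| ≤ M`, such that for no `w` with
`|w| ≤ εM` a classical solution of `∂ₜθ + (Tθ+w)·∇θ + κ(-Δ)^αθ = 0` exists on `[0, τ]`.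

PROOF OF THE SECOND PART (overview).  For `x ≠ 0`, `r = |x|`: `Tθ(x) = U(C, D, x)`,
`U(C,D,x) = (-x₁(Cx₁²+Dx₂²)/r³, x₂(Cx₂²+Dx₁²)/r³)`, `C = ∫θ(rz)kern(z)dz`, `D = rC'(r)`.  With `Θ₁ = -θ/M`,
`Θ₂ = θ∘refl/M`: `C/M = ∫(Θ₁+Θ₂)(rz)g(z)dz`.  Both `Θᵢ` solve `∂ₜΘ + vᵢ·∇Θ + κΛΘ = 0`, `vᵢ = M·U + wᵢ`, `|wᵢ| ≤ εM`.
Barrier: `Θᵢ(t,x) ≥ -1 + 2F(t,x) - δ(t)`, `F(t,x) = bar (ℓ(t)) (Vt) (V₂t) x`, a cut-off of the sector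
`{x₁ > ℓ(t), |x₂| < x₁/2}`, `ℓ(t) = ℓ₀ - ct`.  As long as it holds, `g` samples the part of the sector where `F = 1`, so
`C ≈ 2m`, `D ≈ 0` (`m = ∫g`): the flow is hyperbolic, runs inwards in the sector and away from its axis, and
`∂ₜF + vᵢ·∇F ≤ 0` (`INQ`).  The fractional Laplacian of `F` is at most `const·ℓ^(-2α)`, integrable in time since `2α < 1`,
and is absorbed by `δ(t)`.  At time `ℓ₀/c` the barrier gives `θ ≤ -3M/4` and `θ ≥ 3M/4` at points that tend to `0`.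
-/

set_option autoImplicit false

open MeasureTheory Filter Topology Set
open scoped ENNReal ContDiff NNReal

noncomputable section

namespace Pool.Agent.Lib.MP96bed6

/-- `f'(z) = -2f(z) - ∇f(z)·z`. -/
def gp (f : E → ℝ) (z : E) : ℝ := -2 * f z - fderiv ℝ f z z

/-- `samp f θ r = ∫ θ(rz) f(z) dz`. -/
def samp (f θ : E → ℝ) (r : ℝ) : ℝ := ∫ z : E, θ (r • z) * f z

/-- The field `U(C, D, x)`. -/
def U (C D : ℝ) (x : E) : E :=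
  !₂[-(x 0 * (C * x 0 ^ 2 + D * x 1 ^ 2)) / ‖x‖ ^ 3, x 1 * (C * x 1 ^ 2 + D * x 0 ^ 2) / ‖x‖ ^ 3]

/-! ### Block A: the operator `T` -/

/-- DER 100 lines, none.
Proof.  `samp f θ r = r⁻²∫θ(y)f(r⁻¹y)dy` (`Measure.integral_comp_smul`, dimension 2).  Differentiate under the integral
(`hasDerivAt_integral_of_dominated_loc_of_deriv_le` on the interval `(r/2, 2r)`; everything is supported in a fixed ball and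
continuous, hence dominated): `d/dr [r⁻²f(y/r)] = -2r⁻³f(y/r) - r⁻³Df(y/r)(y/r) = r⁻³ gp f (y/r)`, and
`∫θ(y)r⁻³gp f(y/r)dy = r⁻¹ samp (gp f) θ r`. -/
def SpecDER : Prop := ∀ f θ : E → ℝ, ContDiff ℝ ∞ f → HasCompactSupport f → Continuous θ → ∀ r : ℝ, 0 < r →
  HasDerivAt (samp f θ) (samp (gp f) θ r / r) r

/-- SUPP 80 lines, none: elementary facts on samplers.
Proof.  `g z ≠ 0` implies `‖z‖ ≤ 6` (`z₀ < 5`, `|z₁| < 5/3`) and `‖z‖ ≥ 3`; so `g` has compact support, and `kern g`, `gp g`,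
`gp (kern g)` are smooth resp. with compact support.  If `gp g z ≠ 0` then `g z ≠ 0`: if `g z = 0` then `z` is a minimum of
`g ≥ 0`, so `fderiv ℝ g z = 0`.  `refl` is a linear isometry.  `∫g > 0`: continuous, nonnegative, not zero.
`gp (kern g) z = gp g (refl z) - gp g z` (chain rule for `g ∘ refl`, `refl` linear).
`kern g (-z) = -kern g z` by `even`. -/
def SpecSUPP : Prop := ∀ g : E → ℝ, IsSampler g →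
  HasCompactSupport g ∧ ContDiff ℝ ∞ (kern g) ∧ HasCompactSupport (kern g) ∧
  ContDiff ℝ ∞ (gp g) ∧ HasCompactSupport (gp g) ∧
  (∀ z, gp g z ≠ 0 → g z ≠ 0) ∧
  (∀ z, gp (kern g) z = gp g (refl z) - gp g z) ∧
  (∀ z, kern g (-z) = -kern g z) ∧
  (∀ z, kern g z ≠ 0 → 3 ≤ ‖z‖ ∧ ‖z‖ ≤ 6) ∧
  (∀ z, gp (kern g) z ≠ 0 → 3 ≤ ‖z‖ ∧ ‖z‖ ≤ 6) ∧
  0 < ∫ z, g z

/-- ZER 30 lines, hypothesis DER (and SUPP).
Proof.  `samp g 1 r = ∫g` is constant in `r`, so its derivative `samp (gp g) 1 1 / 1 = ∫gp g` at `r = 1` is `0`. -/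
def SpecZER : Prop := ∀ g : E → ℝ, IsSampler g → (∫ z, gp g z) = 0

/-- SYM 60 lines, hypothesis SUPP.
Proof.  `refl` preserves Lebesgue measure (linear isometry equivalence), `r • refl z = refl (r • z)`; split the integrals
(continuous functions with compact support are integrable). -/
def SpecSYM : Prop := ∀ g θ : E → ℝ, IsSampler g → Continuous θ → ∀ r : ℝ,
  samp (kern g) θ r = samp g (fun x => -θ x) r + samp g (fun x => θ (refl x)) r ∧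
  samp (gp (kern g)) θ r = samp (gp g) (fun x => -θ x) r + samp (gp g) (fun x => θ (refl x)) r

/-- VEL 150 lines, hypotheses DER, SUPP.
Proof.  Near `x ≠ 0`, `stream g θ x = x₀x₁‖x‖⁻¹C(‖x‖)`, `C = samp (kern g) θ`, `C'(r) = D(r)/r`, and `‖·‖` is differentiable at
`x` with derivative `v ↦ ⟪x, v⟫/‖x‖`.  So `∂₁ψ = x₀C/r + x₀x₁(C/r)'x₁/r`, `(C/r)' = D/r² - C/r²`; with `r² = x₀² + x₁²`:
`-∂₁ψ = -x₀[Cr² + x₁²(D - C)]/r³ = -x₀(Cx₀² + Dx₁²)/r³`, and similarly `∂₀ψ = x₁(Cx₁² + Dx₀²)/r³`.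
At `0`: `stream g θ` is even (`stream(-x) = stream(x)`), so its `fderiv` at `0` is `0` (if it is differentiable:
`A = -A`; otherwise by definition). -/
def SpecVEL : Prop := ∀ g θ : E → ℝ, IsSampler g → Continuous θ →
  vel g θ 0 = 0 ∧
  ∀ x : E, x ≠ 0 → vel g θ x = U (samp (kern g) θ ‖x‖) (samp (gp (kern g)) θ ‖x‖) x

/-- PAR 100 lines, none.
Proof.  Prove for all `n` and all `h : ℝ → E → ℝ` with `ContDiff ℝ ∞ (uncurry h)`: `t ↦ ∫h(t,z)f(z)dz` is `C^n`, by induction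
on `n` (`contDiff_succ_iff_deriv`): its derivative is `∫∂ₜh(t,z)f(z)dz`
(`hasDerivAt_integral_of_dominated_loc_of_deriv_le`; `∂ₜh` is bounded on `[t-1,t+1] × tsupport f`). -/
def SpecPAR : Prop := ∀ f θ : E → ℝ, Continuous f → HasCompactSupport f → ContDiff ℝ ∞ θ → ContDiff ℝ ∞ (samp f θ)

/-- HAD 80 lines, none (Hadamard's lemma).
Proof.  `h(t) = t·∫₀¹h'(st)ds` as `h(0) = 0`.  `t ↦ ∫₀¹k(st)s^j ds` is `C^n` for every smooth `k` and every `j`, by induction on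
`n`: the derivative is `∫₀¹k'(st)s^(j+1)ds` (`intervalIntegral.hasDerivAt_integral_of_dominated_loc_of_deriv_le`). -/
def SpecHAD : Prop := ∀ h : ℝ → ℝ, ContDiff ℝ ∞ h → h 0 = 0 →
  ∃ k : ℝ → ℝ, ContDiff ℝ ∞ k ∧ ∀ t, h t = t * k t

/-- EVN 100 lines, hypothesis HAD.
Proof.  Induction on `n`: for every even smooth `W` the function `x ↦ W(‖x‖)` is `C^n`.  `W'` is odd, so `W'(t) = tW₁(t)` with
`W₁` smooth by HAD, and `W₁` is even (for `t ≠ 0` clear, both sides continuous).  `x ↦ W‖x‖` has the derivative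
`v ↦ W₁(‖x‖)⟪x, v⟫` at every `x`: for `x ≠ 0` by the chain rule; at `0`: `|W(t) - W(0)| ≤ Kt²` for small `t` (or: `W(t) - W(0) =
t²·smooth`), so the derivative is `0`.  This is `C^n` in `x` by the induction hypothesis for `W₁`. -/
def SpecEVN : Prop := ∀ W : ℝ → ℝ, ContDiff ℝ ∞ W → (∀ t, W (-t) = W t) → ContDiff ℝ ∞ (fun x : E => W ‖x‖)

/-- SMO 80 lines, hypotheses SUPP, PAR, HAD, EVN.
Proof.  `C = samp (kern g) θ` is smooth on `ℝ` (PAR) and odd: `C(-r) = ∫θ(-rz)kern(z)dz = ∫θ(rz)kern(-z)dz = -C(r)`.  So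
`C(r) = rW(r)` with `W` smooth (HAD) and even; `stream g θ x = x₀x₁W(‖x‖)` for all `x` (also `x = 0`), smooth by EVN. -/
def SpecSMO : Prop := ∀ g θ : E → ℝ, IsSampler g → ContDiff ℝ ∞ θ → ContDiff ℝ ∞ (stream g θ)

/-- DIV 60 lines, hypothesis SMO.
Proof.  `vel g θ` has components built from `fderiv ℝ (stream g θ)`, smooth; the divergence is `-∂₀∂₁ψ + ∂₁∂₀ψ = 0` (symmetry of the
second derivative). -/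
def SpecDIV : Prop := ∀ g θ : E → ℝ, IsSampler g → ContDiff ℝ ∞ θ →
  ContDiff ℝ ∞ (vel g θ) ∧ ∀ x, (fderiv ℝ (vel g θ) x e0) 0 + (fderiv ℝ (vel g θ) x e1) 1 = 0

/-- SUP 60 lines, hypotheses VEL, SUPP.
Proof.  `|C|, |D| ≤ M·∫|kern g|, M·∫|gp(kern g)|`; `‖U(C,D,x)‖ ≤ 2(|C|+|D|)` as `|xᵢ| ≤ ‖x‖`. -/
def SpecSUP : Prop := ∀ g : E → ℝ, IsSampler g → ∃ K : ℝ, 0 ≤ K ∧ ∀ θ : E → ℝ, Continuous θ →
  ∀ M : ℝ, (∀ x, |θ x| ≤ M) → ∀ x, ‖vel g θ x‖ ≤ K * M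

/-- LPB 220 lines, hypotheses VEL, SUPP.
Proof.  `Φ = 2|kern g| + 2|gp(kern g)|` is bounded by `B` and supported in `3 ≤ ‖z‖ ≤ 6`; `‖vel g θ x‖ ≤ ∫|θ(‖x‖z)|Φ(z)dz` (also for
`x = 0`).  Hoelder (or Jensen): `(∫|θ(rz)|Φ)^p ≤ (∫Φ)^(p-1)∫|θ(rz)|^pΦ`.  With Tonelli, polar coordinates
(`∫⁻ F(‖x‖)dx = 2vol(B₁)∫⁻_{r>0} rF(r)dr`, from `Measure.measurePreserving_homeomorphUnitSphereProd` as in
`integral_fun_norm_addHaar`) and `z = y/r`: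
`∫⁻_x∫⁻_z|θ(‖x‖z)|^pΦ(z) = 2vol(B₁)∫⁻_{r>0} r⁻¹∫⁻_y|θ(y)|^pΦ(y/r) = 2vol(B₁)∫⁻_y|θ(y)|^p∫⁻_{r>0}r⁻¹Φ(y/r)`, and the inner
integral is over `‖y‖/6 ≤ r ≤ ‖y‖/3`, so at most `B·(‖y‖/6)·(6/‖y‖) = B`.  `K = max(∫Φ, 2vol(B₁)B, 1)` works for all `p ≥ 1`. -/
def SpecLPB : Prop := ∀ g : E → ℝ, IsSampler g → ∃ K : ℝ, 0 ≤ K ∧ ∀ θ : E → ℝ, Continuous θ →
  ∀ p : ℝ, 1 ≤ p → (∫⁻ x, ‖vel g θ x‖ₑ ^ p) ≤ ENNReal.ofReal K ^ p * ∫⁻ x, ‖θ x‖ₑ ^ p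

/-- LIP 200 lines, hypotheses VEL, SUPP.
Proof.  Let `f = kern g` or `gp (kern g)`: `f(-z) = -f(z)` (for the second: `gp` of an odd function is odd), so `∫f = 0`, and
`|samp f θ r| = |∫(θ(rz) - θ(0))f| ≤ Lr∫‖z‖|f|`, `|samp f θ r - samp f θ s| ≤ L|r - s|∫‖z‖|f|` for `r, s ≥ 0`.  For `x ≠ 0` write
`vel g θ x = P(x)C(‖x‖) + Q(x)D(‖x‖)`, `P(x) = (-x₀³, x₁³)/‖x‖³`, `Q(x) = (-x₀x₁², x₀²x₁)/‖x‖³`: these are polynomials in `x/‖x‖`,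
bounded by `2` and Lipschitz on the unit ball, and `‖x/‖x‖ - y/‖y‖‖ ≤ 2‖x - y‖/max(‖x‖,‖y‖)`.  So for `‖y‖ ≤ ‖x‖`, `x ≠ 0`, `y ≠ 0`:
`|P(x)C(‖x‖) - P(y)C(‖y‖)| ≤ 2|C(‖x‖) - C(‖y‖)| + |C(‖y‖)||P(x) - P(y)| ≤ K L‖x - y‖`, as `|C(‖y‖)| ≤ KL‖y‖`.  `y = 0`: `vel = 0`. -/
def SpecLIP : Prop := ∀ g : E → ℝ, IsSampler g → ∃ K : ℝ≥0, ∀ θ : E → ℝ, ∀ L : ℝ≥0, LipschitzWith L θ →
  LipschitzWith (K * L) (vel g θ)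

/-- DIL 40 lines, none.
Proof.  `stream g (θ(λ·)) x = λ⁻¹ stream g θ (λx)` (`‖λx‖ = λ‖x‖`); `fderiv_comp_smul`-type rule (valid without differentiability). -/
def SpecDIL : Prop := ∀ g θ : E → ℝ, ∀ lam : ℝ, 0 < lam → ∀ x : E,
  vel g (fun y => θ (lam • y)) x = vel g θ (lam • x)

/-- EXG 50 lines, none: samplers exist.
Proof.  `g z = Real.smoothTransition (1 - 4‖z - c‖²)`, `c = (4, 0)`: smooth (`‖z - c‖²` is), positive iff `‖z - c‖ < 1/2`, even in `z₁`. -/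
def SpecEXG : Prop := ∃ g : E → ℝ, IsSampler g

/-- LIN 60 lines, hypotheses VEL, SUPP.
Proof.  `samp` is linear in `θ` (continuous functions times continuous compactly supported ones are integrable), `U` is linear in
`(C, D)`. -/
def SpecLIN : Prop := ∀ g θ η : E → ℝ, IsSampler g → Continuous θ → Continuous η → ∀ a b : ℝ, ∀ x : E,
  vel g (fun y => a * θ y + b * η y) x = a • vel g θ x + b • vel g η x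

/-- CPS 50 lines, hypothesis SUPP.
Proof.  If `R < 3‖x‖` then for `x'` near `x` all points `‖x'‖z`, `kern g z ≠ 0`, have norm `≥ 3‖x'‖ > R`, so `stream g θ = 0` near `x`. -/
def SpecCPS : Prop := ∀ g θ : E → ℝ, IsSampler g → ∀ R : ℝ, (∀ x, R ≤ ‖x‖ → θ x = 0) →
  ∀ x, R < 3 * ‖x‖ → vel g θ x = 0

/-! ### Block B: the fractional Laplacian -/

/-- `∫ min(1, ‖z‖) ‖z‖^(-2-2α) dz`. -/
def PHI (α : ℝ) : ℝ := ∫ z : E, min 1 ‖z‖ / ‖z‖ ^ (2 + 2 * α)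

/-- INT 120 lines, none.
Proof.  Integrability by polar coordinates (`integrable_fun_norm_addHaar`): `r·min(1,r)r^(-2-2α)` is `r^(-2α)` on `(0,1)` and
`r^(-1-2α)` on `(1,∞)`.  Scaling: substitute `z = y/L` (`Measure.integral_comp_smul`): `∫min(1,L‖z‖)‖z‖^(-2-2α)dz
= L^(-2)·L^(2+2α)∫min(1,‖y‖)‖y‖^(-2-2α)dy`. -/
def SpecINT : Prop := ∀ α : ℝ, 0 < α → α < 1 / 2 →
  Integrable (fun z : E => min 1 ‖z‖ / ‖z‖ ^ (2 + 2 * α)) ∧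
  ∀ L : ℝ, 0 < L → Integrable (fun z : E => min 1 (L * ‖z‖) / ‖z‖ ^ (2 + 2 * α)) ∧
    (∫ z : E, min 1 (L * ‖z‖) / ‖z‖ ^ (2 + 2 * α)) = L ^ (2 * α) * PHI α

/-- FLI 60 lines, hypothesis INT.
Proof.  `|f x - f y| ≤ K·min(1, ‖x - y‖)` for some `K`: near `x` by differentiability at `x`, elsewhere by boundedness.  Dominate by
`K·min(1,‖x-y‖)/‖x-y‖^(2+2α)` (translate and reflect INT). -/
def SpecFLI : Prop := ∀ α : ℝ, 0 < α → α < 1 / 2 → ∀ (f : E → ℝ) (M : ℝ) (x : E), Continuous f → (∀ y, |f y| ≤ M) →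
  DifferentiableAt ℝ f x → Integrable (fun y : E => (f x - f y) / ‖x - y‖ ^ (2 + 2 * α))

/-- FLB 50 lines, hypothesis INT.
Proof.  `|F x - F y| ≤ min(1, L‖x - y‖)`; integrate. -/
def SpecFLB : Prop := ∀ α : ℝ, 0 < α → α < 1 / 2 → ∀ (F : E → ℝ) (L : ℝ) (x : E), 0 < L → (∀ y, 0 ≤ F y ∧ F y ≤ 1) →
  (∀ y z, |F y - F z| ≤ L * ‖y - z‖) → |fracLap α F x| ≤ L ^ (2 * α) * PHI α

/-- FLC 40 lines, hypothesis FLI.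
Proof.  `integral_mono` with `(f x - f y) ≤ (h x - h y)`. -/
def SpecFLC : Prop := ∀ α : ℝ, 0 < α → α < 1 / 2 → ∀ (f h : E → ℝ) (M : ℝ) (x : E), Continuous f → Continuous h →
  (∀ y, |f y| ≤ M) → (∀ y, |h y| ≤ M) → DifferentiableAt ℝ f x → DifferentiableAt ℝ h x →
  (∀ y, f x - h x ≤ f y - h y) → fracLap α f x ≤ fracLap α h x

/-- FLA 50 lines, none.
Proof.  Linearity of the integral; `refl` is a measure preserving linear isometry. -/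
def SpecFLA : Prop := ∀ (α : ℝ) (f : E → ℝ) (x : E),
  (∀ c d : ℝ, fracLap α (fun y => c * f y + d) x = c * fracLap α f x) ∧
  fracLap α (fun y => f (refl y)) x = fracLap α f (refl x)

/-! ### Block C: linear equations and barriers -/

/-- Classical solutions of the linear equation `∂ₜΘ + v·∇Θ + κ(-Δ)^αΘ = 0`. -/
structure IsLin (α κ τ : ℝ) (v : ℝ → E → E) (Θ : ℝ → E → ℝ) : Prop where
  cont : ContinuousOn (fun p : ℝ × E => Θ p.1 p.2) (Icc 0 τ ×ˢ univ)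
  decay : ∀ η : ℝ, 0 < η → ∃ R : ℝ, ∀ t ∈ Icc (0 : ℝ) τ, ∀ x : E, R ≤ ‖x‖ → |Θ t x| ≤ η
  dt : ∀ t ∈ Ioo (0 : ℝ) τ, ∀ x : E, DifferentiableAt ℝ (fun s => Θ s x) t
  dx : ∀ t ∈ Ioo (0 : ℝ) τ, ∀ x : E, DifferentiableAt ℝ (Θ t) x
  eqn : ∀ t ∈ Ioo (0 : ℝ) τ, ∀ x : E,
    deriv (fun s => Θ s x) t + fderiv ℝ (Θ t) x (v t x) + κ * fracLap α (Θ t) x = 0

/-- TCH 90 lines, hypotheses FLC.
Proof.  `Θ t` is continuous and bounded (continuous, small at infinity).  At the touching point: `∂ₜΘ ≤ Gt` (difference quotients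
from the left), `∇Θ = Gx` (`y ↦ Θ t y - G t y` has a minimum at `x`, `IsLocalMin.fderiv_eq_zero`), `fracLap Θ ≤ fracLap G` (FLC).  Insert
into the equation. -/
def SpecTCH : Prop := ∀ (α κ τ : ℝ) (v : ℝ → E → E) (Θ : ℝ → E → ℝ), 0 < α → α < 1 / 2 → 0 ≤ κ →
  IsLin α κ τ v Θ → ∀ (G : ℝ → E → ℝ) (t : ℝ) (x : E) (M Gt : ℝ) (Gx : E →L[ℝ] ℝ), t ∈ Ioo 0 τ →
  Θ t x = G t x → (∀ s ∈ Ico 0 t, G s x ≤ Θ s x) → (∀ y, G t y ≤ Θ t y) →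
  HasDerivAt (fun s => G s x) Gt t → Continuous (G t) → (∀ y, |G t y| ≤ M) → HasFDerivAt (G t) Gx x →
  0 ≤ Gt + Gx (v t x) + κ * fracLap α (G t) x

/-- CPT 100 lines, none: the first touching time.
Proof.  `Z = {(t,x) ∈ [0,T'] × closedBall 0 R : ∃i, D i t x ≤ 0}` is compact (closed in a compact set by continuity) and not empty;
take `(t₀,x₀) ∈ Z` with minimal `t`.  `t₀ > 0`.  For `s < t₀` all `D j s y > 0`.  By continuity in `t` (`t₀ > 0`): `D j t₀ y ≥ 0`, so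
`D i t₀ x₀ = 0`. -/
def SpecCPT : Prop := ∀ (T' R : ℝ) (D : Fin 2 → ℝ → E → ℝ), 0 < T' →
  (∀ i, ContinuousOn (fun p : ℝ × E => D i p.1 p.2) (Icc 0 T' ×ˢ univ)) → (∀ i x, 0 < D i 0 x) →
  (∀ i, ∀ t ∈ Icc 0 T', ∀ x : E, R ≤ ‖x‖ → 0 < D i t x) →
  (∃ i, ∃ t ∈ Icc 0 T', ∃ x, D i t x ≤ 0) →
  ∃ i, ∃ t ∈ Ioc 0 T', ∃ x, D i t x = 0 ∧ (∀ j, ∀ s ∈ Ico 0 t, ∀ y, 0 < D j s y) ∧ (∀ j y, 0 ≤ D j t y)

/-- MAX 70 lines, hypotheses TCH, CPT, FLA: the maximum principle.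
Proof.  Let `T' < τ`, `η > 0`; claim `Θ t x < M + η(1+t)` on `[0,T']`.  Apply CPT to `D i t x = M + η(1+t) - Θ t x` (both `i`); at a first
touching point apply TCH to `-Θ` (again `IsLin` with the same `v`) and `G t x = -(M + η(1+t))`: `0 ≤ -η + 0 + 0`, contradiction. -/
def SpecMAX : Prop := ∀ (α κ τ : ℝ) (v : ℝ → E → E) (Θ : ℝ → E → ℝ), 0 < α → α < 1 / 2 → 0 ≤ κ → 0 < τ →
  IsLin α κ τ v Θ → ∀ M : ℝ, 0 ≤ M → (∀ x, Θ 0 x ≤ M) → ∀ t ∈ Ico 0 τ, ∀ x, Θ t x ≤ M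

/-! ### Block D: the barrier function -/

/-- smooth step, `0` for `s ≤ 0`, `1` for `s ≥ 1`. -/
def S (s : ℝ) : ℝ := Real.smoothTransition s

/-- The barrier function. -/
def bar (l p q : ℝ) (x : E) : ℝ :=
  if 0 < x 0 then S (x 0 / l - 1) * S (2 - 8 * (x 1 ^ 2 / x 0 ^ 2) - 8 * q) * S (2 - x 0 - p) else 0

/-- Derivative of `bar l p q` at `x` in the direction `v`. -/
def barX (l p q : ℝ) (x v : E) : ℝ :=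
  deriv S (x 0 / l - 1) * S (2 - 8 * (x 1 ^ 2 / x 0 ^ 2) - 8 * q) * S (2 - x 0 - p) * (v 0 / l)
  + S (x 0 / l - 1) * deriv S (2 - 8 * (x 1 ^ 2 / x 0 ^ 2) - 8 * q) * S (2 - x 0 - p)
    * (-16 * (x 1 / x 0) * ((v 1 * x 0 - v 0 * x 1) / x 0 ^ 2))
  + S (x 0 / l - 1) * S (2 - 8 * (x 1 ^ 2 / x 0 ^ 2) - 8 * q) * deriv S (2 - x 0 - p) * (-(v 0))

/-- Time derivative of `bar (l(t)) (p(t)) (q(t)) x` if `l' = -c`, `p' = V`, `q' = V₂`. -/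
def barT (l p q c V V₂ : ℝ) (x : E) : ℝ :=
  deriv S (x 0 / l - 1) * S (2 - 8 * (x 1 ^ 2 / x 0 ^ 2) - 8 * q) * S (2 - x 0 - p) * (x 0 * c / l ^ 2)
  + S (x 0 / l - 1) * deriv S (2 - 8 * (x 1 ^ 2 / x 0 ^ 2) - 8 * q) * S (2 - x 0 - p) * (-8 * V₂)
  + S (x 0 / l - 1) * S (2 - 8 * (x 1 ^ 2 / x 0 ^ 2) - 8 * q) * deriv S (2 - x 0 - p) * (-V)

/-- STP 60 lines, none: the smooth step.
Proof.  Mathlib's `Real.smoothTransition` API; the derivative is continuous and vanishes outside `[0,1]`, so it is bounded; it is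
`≥ 0` as `S` is monotone. -/
def SpecSTP : Prop :=
  ContDiff ℝ ∞ S ∧ (∀ s, 0 ≤ S s ∧ S s ≤ 1) ∧ (∀ s, s ≤ 0 → S s = 0) ∧ (∀ s, 1 ≤ s → S s = 1) ∧
  (∀ s, 0 < s → 0 < S s) ∧ (∀ s, 0 ≤ deriv S s) ∧ (∀ s, deriv S s ≠ 0 → 0 < s ∧ s < 1) ∧
  ∃ B : ℝ, 1 ≤ B ∧ ∀ s, deriv S s ≤ B

/-- BVL 60 lines, hypothesis STP: values of `bar`.
Proof.  `9x₁² ≤ x₀²` and `q ≤ 1/72` give `2 - 8x₁²/x₀² - 8q ≥ 2 - 8/9 - 1/9 = 1`. -/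
def SpecBVL : Prop := ∀ (l p q : ℝ) (x : E), 0 < l →
  (0 ≤ bar l p q x ∧ bar l p q x ≤ 1) ∧
  (0 < bar l p q x → l < x 0 ∧ x 1 ^ 2 / x 0 ^ 2 + q < 1 / 4 ∧ x 0 + p < 2) ∧
  (2 * l ≤ x 0 → 9 * x 1 ^ 2 ≤ x 0 ^ 2 → q ≤ 1 / 72 → x 0 + p ≤ 1 → bar l p q x = 1)

/-- BDX 100 lines, hypothesis STP.
Proof.  Chain and product rules on the open set `{x₀ > 0}`, where `bar` is the product; `d(x₁²/x₀²)(v) = 2(x₁/x₀)(v₁x₀ - v₀x₁)/x₀²`. -/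
def SpecBDX : Prop := ∀ (l p q : ℝ) (x : E), 0 < l → 0 < x 0 →
  ∃ A : E →L[ℝ] ℝ, HasFDerivAt (bar l p q) A x ∧ ∀ v, A v = barX l p q x v

/-- BDT 60 lines, hypothesis STP.
Proof.  Chain and product rules in `t`; `d/dt (x₀/l) = x₀c/l²`. -/
def SpecBDT : Prop := ∀ (l₀ c V V₂ t : ℝ) (x : E), 0 < l₀ - c * t → 0 < x 0 →
  HasDerivAt (fun s => bar (l₀ - c * s) (V * s) (V₂ * s) x) (barT (l₀ - c * t) (V * t) (V₂ * t) c V V₂ x) t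

/-- BLP 120 lines, hypotheses STP, BVL, BDX: `bar` is Lipschitz with constant `K/l`.
Proof.  `bar l p q` is differentiable everywhere: on `{x₀ > 0}` by BDX, and it vanishes on the open set `{x₀ < l}`.  Where the
derivative is not `0`: `x₀ ≥ l`, `x₁² ≤ x₀²/4` (as `q ≥ 0` and `S`, `S'` vanish for `s ≤ 0`), so the three factors are bounded by
`‖v‖/l`, `16·(1/2)·‖v‖·(|x₀|+|x₁|)/x₀² ≤ 12‖v‖/l`, `‖v‖ ≤ ‖v‖/l`.  `K = 14B`.  Mean value inequality. -/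
def SpecBLP : Prop := ∃ K : ℝ, 1 ≤ K ∧ ∀ (l p q : ℝ), 0 < l → l ≤ 1 → 0 ≤ q → ∀ x y : E,
  |bar l p q x - bar l p q y| ≤ K / l * ‖x - y‖

/-- BCT 80 lines, hypotheses STP (BLP).
Proof.  On `{x₀ > 0}` a composition of continuous functions; on `{(t,x) : x₀ < l(t)}` it is `0`; these two open sets cover
`{t : l(t) > 0} × E`. -/
def SpecBCT : Prop := ∀ (l₀ c V V₂ T' : ℝ), (∀ t ∈ Icc 0 T', 0 < l₀ - c * t) →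
  ContinuousOn (fun z : ℝ × E => bar (l₀ - c * z.1) (V * z.1) (V₂ * z.1) z.2) (Icc 0 T' ×ˢ univ)

/-- INQ 150 lines, hypothesis STP: the transport inequality for the barrier (`N = 2m + K`, `c = Mm/4`, `V = 2MN`, `V₂ = 7MN`).
Proof.  Put `r = ‖x‖`, `h = x₁/x₀`, `h² < 1/4`, so `4r² ≤ 5x₀²`, `x₀/r ≥ 0.894`, `(x₀/r)³ ≥ 0.7`.  `barT + barX(v)` is the sum of
`S'SS·(x₀c/l + v₀)/l`, `SS'S·(-8V₂ - 16h(v₁x₀ - v₀x₁)/x₀²)`, `SSS'·(-V - v₀)`; each summand is `≤ 0`.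
(1) If `S'(s₁) ≠ 0` then `x₀ < 2l`, `5r < 12l`, so `5r + p ≤ 1`, `r ≥ l`: good.  `U₀ ≤ -(x₀/r)³(C - |D|/4) ≤ -0.7·(3/2)m ≤ -m`
(as `x₁² ≤ x₀²/4`), `v₀ ≤ -Mm + Mm/10`, `x₀c/l ≤ 2c = Mm/2`.
(2) If `S'(s₂) ≠ 0` then `1/8 < h² + q`, so `h² ≥ 1/9`.  `(U₁x₀ - U₀x₁)/x₀² = (C+D)h/r`.  `|h(w₁x₀ - w₀x₁)/x₀²| ≤ |h|(Mm/10)r/x₀²`.
Good case (`5r + p ≤ 1`): `C + D ≥ 3m/2`, `(C+D)h²/r ≥ (3/2)m|h|/(3r)·1`, and `(3/2)m|h|·(1/3)/r ≥ |h|(m/10)r/x₀²` since `r²/x₀² ≤ 5/4`.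
Otherwise `r > (1-p)/5 ≥ 1/10`: `16M|C+D|h²/r ≤ 40MN`, `16|h|(Mm/10)r/x₀² ≤ 8(Mm/10)(5/4)/r ≤ 10Mm ≤ 5MN`; `8V₂ = 56MN`.
(3) `|v₀| ≤ M(|C| + |D|) + Mm/10 ≤ 2MN`. -/
def SpecINQ : Prop := ∀ (l p q m K M C D : ℝ) (x w : E), 0 < l → 0 ≤ p → p ≤ 1 / 2 → 12 * l + p ≤ 1 → 0 ≤ q → q ≤ 1 / 72 →
  0 < m → 0 ≤ K → 0 < M → |C| ≤ 2 * m → |D| ≤ K → ‖w‖ ≤ m / 10 * M →
  (l ≤ ‖x‖ → 5 * ‖x‖ + p ≤ 1 → |D| ≤ m / 2 ∧ 3 / 2 * m ≤ C - |D|) →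
  l < x 0 → x 1 ^ 2 / x 0 ^ 2 + q < 1 / 4 →
  barT l p q (M * m / 4) (2 * M * (2 * m + K)) (7 * M * (2 * m + K)) x + barX l p q x (M • U C D x + w) ≤ 0

/-- SAM 120 lines, hypotheses SUPP, ZER, BVL: what the sampler sees.
Proof.  `|Θᵢ| ≤ 1` gives the first two bounds.  If `g z ≠ 0`, `l ≤ r`, `5r + p ≤ 1` then `rz` satisfies `rz₀ ≥ 3l ≥ 2l`, `9(rz₁)² ≤ (rz₀)²`,
`rz₀ + p ≤ 1`, so `bar = 1` there and `2 - 2δ ≤ (Θ₁+Θ₂)(rz) ≤ 2`.  Hence `C ≥ (2-2δ)m`; `D = ∫((Θ₁+Θ₂)(rz) - 2)gp g(z)dz` by ZER, and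
`gp g z ≠ 0` implies `g z ≠ 0`, so `|D| ≤ 2δ∫|gp g|`. -/
def SpecSAM : Prop := ∀ (g : E → ℝ), IsSampler g → ∀ (Θ₁ Θ₂ : E → ℝ), Continuous Θ₁ → Continuous Θ₂ →
  (∀ x, |Θ₁ x| ≤ 1) → (∀ x, |Θ₂ x| ≤ 1) → ∀ r : ℝ,
  |samp g Θ₁ r + samp g Θ₂ r| ≤ 2 * ∫ z, g z ∧
  |samp (gp g) Θ₁ r + samp (gp g) Θ₂ r| ≤ 2 * ∫ z, |gp g z| ∧
  ∀ (l p q δ : ℝ), 0 < l → 0 ≤ δ → q ≤ 1 / 72 →
    (∀ x, -1 + 2 * bar l p q x - δ ≤ Θ₁ x) → (∀ x, -1 + 2 * bar l p q x - δ ≤ Θ₂ x) →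
    l ≤ r → 5 * r + p ≤ 1 →
    (2 - 2 * δ) * (∫ z, g z) ≤ samp g Θ₁ r + samp g Θ₂ r ∧
    |samp (gp g) Θ₁ r + samp (gp g) Θ₂ r| ≤ δ * (2 * ∫ z, |gp g z|)

/-- LIFT 120 lines, hypotheses VEL, SYM, FLA: from a solution to the pair `Θ₁ = -θ/M`, `Θ₂ = θ∘refl/M`.
Proof.  Derivatives: `∇Θ₂(x)·v = ∇θ(refl x)·(refl v)/M` (chain rule), `refl (vel g θ (refl x)) = vel g θ x` by VEL
(`‖refl x‖ = ‖x‖`, `U(C,D,refl x) = refl (U(C,D,x))`).  With `v₁ = vel g (θ t) + w t`, `v₂(x) = vel g (θ t) x + refl (w t (refl x))` both are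
`IsLin`.  For `x ≠ 0`: `vel g (θ t) x = U C' D' x`, `C' = samp (kern g) (θ t) ‖x‖ = M(samp g (Θ₁ t) ‖x‖ + samp g (Θ₂ t) ‖x‖)` by SYM, and `U` is
homogeneous in `(C, D)`. -/
def SpecLIFT : Prop := ∀ (α κ τ M : ℝ) (g : E → ℝ) (w : ℝ → E → E) (θ₀ : E → ℝ) (θ : ℝ → E → ℝ), IsSampler g → 0 < M → 0 < τ →
  (∀ t x, ‖w t x‖ ≤ (∫ z, g z) / 10 * M) → IsSol α κ τ (vel g) w θ₀ θ →
  ∃ (v : Fin 2 → ℝ → E → E) (Θ : Fin 2 → ℝ → E → ℝ),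
    (∀ t x, Θ 0 t x = -(θ t x) / M) ∧ (∀ t x, Θ 1 t x = θ t (refl x) / M) ∧
    (∀ i, IsLin α κ τ (v i) (Θ i)) ∧
    ∀ i, ∀ t ∈ Ioo 0 τ, ∀ x : E, x ≠ 0 → ∃ w' : E, ‖w'‖ ≤ (∫ z, g z) / 10 * M ∧
      v i t x = M • U (samp g (Θ 0 t) ‖x‖ + samp g (Θ 1 t) ‖x‖)
        (samp (gp g) (Θ 0 t) ‖x‖ + samp (gp g) (Θ 1 t) ‖x‖) x + w'

/-- DAT 100 lines, hypothesis STP: the initial data.
Proof.  `P(x) = S(2x₀/l - 1)S(4 - x₀)S(3 - x₁²)` is smooth, supported in `{l/2 ≤ x₀ ≤ 4, x₁² ≤ 3}`, `0 ≤ P ≤ 1`, and `= 1` if `l ≤ x₀ ≤ 2`,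
`|x₁| ≤ 1`, in particular where `bar l 0 0 ≠ 0`.  `θ₀ = M(P∘refl - P)`: the two summands have disjoint supports.
`-θ₀/M = P - P∘refl ≥ -1 + 2bar`: where `bar > 0` (so `x₀ > 0`, `P∘refl = 0`, `P = 1`) the right side is `≤ 1`; elsewhere it is `-1`. -/
def SpecDAT : Prop := ∀ (l M : ℝ), 0 < l → l ≤ 1 → 0 < M →
  ∃ θ₀ : E → ℝ, ContDiff ℝ ∞ θ₀ ∧ HasCompactSupport θ₀ ∧ (∀ x, |θ₀ x| ≤ M) ∧
    (∀ x, -1 + 2 * bar l 0 0 x ≤ -(θ₀ x) / M) ∧ (∀ x, -1 + 2 * bar l 0 0 x ≤ θ₀ (refl x) / M)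

/-- CORE (helper86) 200 lines, hypotheses TCH, CPT, MAX, FLA, FLB, BVL, BDX, BDT, BLP, BCT, INQ, SAM.
The barrier holds up to time `T* = ℓ₀/c`.
Proof.  `m = ∫g`, `K = 2∫|gp g|`, `N = 2m+K`, `δ* = m/(2N) ≤ 1/4`, `c = Mm/4`, `δ(t) = δ*/2 + D₁(ℓ₀^(1-2α) - ℓ(t)^(1-2α))`,
`D₁ = (2κΦK_L^(2α)+1)/((1-2α)c)`, `δ'(t) = (2κΦK_L^(2α)+1)ℓ(t)^(-2α)`, `ℓ₀` so small that `δ ≤ δ*` and `2100Nℓ₀ ≤ m`
(so `V₂t ≤ 28Nℓ₀/m ≤ 1/72`, `Vt ≤ 8/2100`, `12ℓ + Vt ≤ 1`).  Apply CPT to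
`Dᵢ(t,x) = Θᵢ(t,x) + 1 - 2bar + δ(t)`; at a first touching point `bar > 0`, SAM gives the hypotheses of INQ, and TCH gives
`0 ≤ 2(barT + barX(v)) - δ' + 2κ fracLap bar ≤ -δ' + 2κΦ(K_L/ℓ)^(2α) < 0`. -/
def SpecCORE : Prop := ∀ (α κ M τ : ℝ) (g : E → ℝ), IsSampler g → 0 < α → α < 1 / 2 → 0 ≤ κ → 0 < M → 0 < τ →
  ∃ l₀ : ℝ, 0 < l₀ ∧ l₀ ≤ 1 ∧ 4 * l₀ < M * (∫ z, g z) * τ ∧ 2100 * (2 * (∫ z, g z) + 2 * ∫ z, |gp g z|) * l₀ ≤ ∫ z, g z ∧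
    ∀ (v : Fin 2 → ℝ → E → E) (Θ : Fin 2 → ℝ → E → ℝ), (∀ i, IsLin α κ τ (v i) (Θ i)) →
    (∀ i, ∀ t ∈ Ioo 0 τ, ∀ x : E, x ≠ 0 → ∃ w' : E, ‖w'‖ ≤ (∫ z, g z) / 10 * M ∧
      v i t x = M • U (samp g (Θ 0 t) ‖x‖ + samp g (Θ 1 t) ‖x‖)
        (samp (gp g) (Θ 0 t) ‖x‖ + samp (gp g) (Θ 1 t) ‖x‖) x + w') →
    (∀ i x, |Θ i 0 x| ≤ 1) → (∀ i x, -1 + 2 * bar l₀ 0 0 x ≤ Θ i 0 x) →
    ∀ i, ∀ t : ℝ, 0 ≤ t → M * (∫ z, g z) / 4 * t < l₀ → ∀ x,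
      -1 + 2 * bar (l₀ - M * (∫ z, g z) / 4 * t) (2 * M * (2 * (∫ z, g z) + 2 * ∫ z, |gp g z|) * t)
        (7 * M * (2 * (∫ z, g z) + 2 * ∫ z, |gp g z|) * t) x - 1 / 4 ≤ Θ i t x

/-- BLW (helper86) 150 lines, hypotheses CORE, LIFT, DAT, BVL.
Proof.  Data from DAT with `l = l₀`; the barrier at the points `(3ℓ(t), 0)`, where `bar = 1`, gives `-θ/M ≥ 3/4` at `(3ℓ(t),0)` and
`θ/M ≥ 3/4` at `(-3ℓ(t),0)`; let `t → 4l₀/(Mm) < τ` and use continuity at `(4l₀/(Mm), 0)`. -/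
def SpecBLW : Prop := ∀ g : E → ℝ, IsSampler g → ∀ (α κ M τ : ℝ), 0 < α → α < 1 / 2 → 0 ≤ κ → 0 < M → 0 < τ →
  ∃ θ₀ : E → ℝ, ContDiff ℝ ∞ θ₀ ∧ HasCompactSupport θ₀ ∧ (∀ x, |θ₀ x| ≤ M) ∧
    ∀ w : ℝ → E → E, (∀ t x, ‖w t x‖ ≤ (∫ z, g z) / 10 * M) → ¬ ∃ θ : ℝ → E → ℝ, IsSol α κ τ (vel g) w θ₀ θ

end Pool.Agent.Lib.MP96bed6
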