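import Pool.Agent.Lib.MP_96bed6_an.Spec
import Pool.Agent.Lib.MP_96bed6_an.Defs2

/-!
# MP_96bed6_an, second form of the core (suggestions of helper33 and helper99)

Solutions on any interval `[0, T')`, perturbations of the law that may depend on the solution, and a lower bound for
the gradient.
-/

set_option autoImplicit false

open MeasureTheory Filter Topology Set
open scoped ENNReal ContDiff NNReal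

noncomputable section

namespace Pool.Agent.Lib.MP96bed6

/-- CORE2 (helper86): as CORE, for solutions on `[0, T']`, `T'` arbitrary. -/
def SpecCORE2 : Prop := ∀ (α κ M τ : ℝ) (g : E → ℝ), IsSampler g → 0 < α → α < 1 / 2 → 0 ≤ κ → 0 < M → 0 < τ →
  ∃ l₀ : ℝ, 0 < l₀ ∧ l₀ ≤ 1 ∧ 4 * l₀ < M * (∫ z, g z) * τ ∧ 2100 * (2 * (∫ z, g z) + 2 * ∫ z, |gp g z|) * l₀ ≤ ∫ z, g z ∧
    ∀ (T' : ℝ), 0 < T' → ∀ (v : Fin 2 → ℝ → E → E) (Θ : Fin 2 → ℝ → E → ℝ), (∀ i, IsLin α κ T' (v i) (Θ i)) →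
    (∀ i, ∀ t ∈ Ioo 0 T', ∀ x : E, x ≠ 0 → ∃ w' : E, ‖w'‖ ≤ (∫ z, g z) / 10 * M ∧
      v i t x = M • U (samp g (Θ 0 t) ‖x‖ + samp g (Θ 1 t) ‖x‖)
        (samp (gp g) (Θ 0 t) ‖x‖ + samp (gp g) (Θ 1 t) ‖x‖) x + w') →
    (∀ i x, |Θ i 0 x| ≤ 1) → (∀ i x, -1 + 2 * bar l₀ 0 0 x ≤ Θ i 0 x) →
    ∀ i, ∀ t : ℝ, 0 ≤ t → t < T' → M * (∫ z, g z) / 4 * t < l₀ → ∀ x,
      -1 + 2 * bar (l₀ - M * (∫ z, g z) / 4 * t) (2 * M * (2 * (∫ z, g z) + 2 * ∫ z, |gp g z|) * t)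
        (7 * M * (2 * (∫ z, g z) + 2 * ∫ z, |gp g z|) * t) x - 1 / 4 ≤ Θ i t x

/-- FIN (helper86): the final form of the breakdown theorem, hypotheses CORE2, LIFT, DAT, BVL, SUPP, MAX, FLA. -/
def SpecFIN : Prop := ∀ g : E → ℝ, IsSampler g → ∀ (α κ M τ : ℝ), 0 < α → α < 1 / 2 → 0 ≤ κ → 0 < M → 0 < τ →
  ∃ (θ₀ : E → ℝ) (Ts : ℝ), ContDiff ℝ ∞ θ₀ ∧ HasCompactSupport θ₀ ∧ (∀ x, |θ₀ x| ≤ M) ∧ 0 < Ts ∧ Ts < τ ∧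
    ∀ S : ℝ → (E → ℝ) → E → E,
      (∀ t f, Continuous f → (∀ y, |f y| ≤ M) → ∀ x, ‖S t f x‖ ≤ (∫ z, g z) / 10 * M) →
    ∀ (T' : ℝ) (θ : ℝ → E → ℝ), 0 < T' → IsSolOn α κ T' (fun t f x => vel g f x + S t f x) θ₀ θ →
      T' ≤ Ts ∧
      (∀ t ∈ Ico 0 T', ∃ x : E, ‖x‖ = 3 / 4 * M * (∫ z, g z) * (Ts - t) ∧ θ t x ≤ -(3 / 4 * M) ∧ 3 / 4 * M ≤ θ t (-x)) ∧
      (∀ t ∈ Ico 0 T', ∀ L : ℝ≥0, LipschitzWith L (θ t) → 1 ≤ L * ((∫ z, g z) * (Ts - t))) ∧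
      (∀ b : ℝ, T' = Ts → ¬ Tendsto (fun p : ℝ × E => θ p.1 p.2) (𝓝[Ico 0 T' ×ˢ univ] (Ts, 0)) (𝓝 b))

end Pool.Agent.Lib.MP96bed6
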